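import Pool.Agent.Lib.Pbbea99G.E10.Data
import Pool.Agent.Lib.Pbbea99G.Piece

/-!
# MP_bbea99_co: closure of the templates
-/

namespace MPbbea99G.E10

open MPbbea99S MPbbea99T MPbbea99G Finset

mutual

theorem C02_1_p0 : allN (fun j => chkV1 P V lk 0x100000001000700010001000100004000400040004000400040004000400040004000 (0 + j)) 18 = true := by decide +kernel

theorem C02_1_p1 : allN (fun j => chkV1 P V lk 0x100000001000700010001000100004000400040004000400040004000400040004000 (18 + j)) 18 = true := by decide +kernel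

theorem C02_1_p2 : allN (fun j => chkV1 P V lk 0x100000001000700010001000100004000400040004000400040004000400040004000 (36 + j)) 18 = true := by decide +kernel

theorem C02_1_p3 : allN (fun j => chkV1 P V lk 0x100000001000700010001000100004000400040004000400040004000400040004000 (54 + j)) 18 = true := by decide +kernel

theorem C02_1_p4 : allN (fun j => chkV1 P V lk 0x100000001000700010001000100004000400040004000400040004000400040004000 (72 + j)) 18 = true := by decide +kernel

theorem C02_1_p5 : allN (fun j => chkV1 P V lk 0x100000001000700010001000100004000400040004000400040004000400040004000 (90 + j)) 18 = true := by decide +kernel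

theorem C02_1_p6 : allN (fun j => chkV1 P V lk 0x100000001000700010001000100004000400040004000400040004000400040004000 (108 + j)) 13 = true := by decide +kernel

end

theorem allC02 :
    (allTr (chkV P V lk) tr_3143_3144 = true) ∧
    (allTr (chkV P V lk) tr_3156_3157 = true) ∧
    ((chkV P V lk) 0x100000000000b00020008000800014000400040013fff400040004000400140003fff = true) ∧
    ((chkV P V lk) 0x1000b0000003700210000400040003fff400040014000400140003fff4000 = true) ∧
    ((chkV P V lk) 0x100000000000a00020005000500014000400040013fff400040004000400140003fff = true) ∧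
    ((chkV P V lk) 0x100000000000600020013001300014000400040013fff400040004000400140003fff = true) ∧
    (allTr (chkV P V lk) tr_2984_2985 = true) ∧
    (allTr (chkV P V lk) tr_2693_2694 = true) ∧
    (allTr (chkV P V lk) tr_3115_3117 = true) ∧
    (allTr (chkV P V lk) tr_2815_2817 = true) ∧
    (allTr (chkV P V lk) tr_2262_2273 = true) ∧
    (allTr (chkV P V lk) tr_2412_2423 = true) ∧
    ((chkV P V lk) 0x100000000000b0002000d000d00014000400040013fff400040004000400140003fff = true) ∧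
    (allTr (chkV P V lk) tr_1699_1723 = true) ∧
    (allTr (chkV P V lk) tr_2112_2117 = true) ∧
    (allTr (chkV P V lk) tr_1837_1839 = true) ∧
    ((chkV P V lk) 0x10000000000090002001e001e00014000400040013fff400040004000400140003fff = true) ∧
    (allTr (chkV P V lk) tr_3051_3052 = true) ∧
    ((chkV P V lk) 0x10000000000030002000a000a00014000400040013fff400040004000400140003fff = true) ∧
    (allTr (chkV P V lk) tr_3071_3072 = true) ∧
    ((chkV P V lk) 0x100000000000500020009000900014000400040013fff400040004000400140003fff = true) ∧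
    ((chkV P V lk) 0x100000000000800020031003100024000400040013fff400040004000400140003fff = true) ∧
    (allTr (chkV P V lk) tr_2896_2897 = true) ∧
    (allTr (chkV P V lk) tr_2593_2598 = true) ∧
    ((chkV P V lk) 0x10008000000080003000040004000400040013fff40003fff400140004000 = true) ∧
    ((chkV P V lk) 0x100000000000b0002001d001d00014000400040013fff400040004000400140003fff = true) ∧
    (allTr (chkV P V lk) tr_1125_1128 = true) ∧
    ((chkV P V lk) 0x100000000000900020024002400024000400040013fff400040004000400140003fff = true) ∧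
    (allTr (chkV P V lk) tr_500_549 = true) ∧
    (allTr (chkV P V lk) tr_1550_1598 = true) ∧
    ((chkV P V lk) 0x100000000000800020011001100014000400040013fff400040004000400140003fff = true) ∧
    (allTr (chkV P V lk) tr_2851_2852 = true) ∧
    ((chkV P V lk) 0x100000000000500020029002900024000400040013fff400040004000400140003fff = true) ∧
    (allTr (chkV P V lk) tr_3056_3057 = true) ∧
    (allTr (chkV P V lk) tr_2999_3000 = true) ∧
    (allTr (chkV P V lk) tr_2581_2583 = true) ∧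
    ((chkV P V lk) 0x100000000000900020046004600024000400040013fff400040004000400140003fff = true) ∧
    ((chkV P V lk) 0x100000000000900020021002100024000400040013fff400040004000400140003fff = true) ∧
    (allTr (chkV P V lk) tr_3131_3132 = true) ∧
    (allTr (chkV P V lk) tr_1116_1118 = true) ∧
    ((chkV P V lk) 0x80001000c003d00014000400040023fff40014000400040003fff3fff = true) ∧
    (allTr (chkV P V lk) tr_2293_2298 = true) ∧
    (allTr (chkV P V lk) tr_1475_1487 = true) ∧
    (allTr (chkV P V lk) tr_2571_2573 = true) ∧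
    (allTr (chkV P V lk) tr_779_781 = true) ∧
    (allTr (chkV P V lk) tr_2062_2064 = true) ∧
    (allTr (chkV P V lk) tr_2768_2773 = true) ∧
    (allTr (chkV P V lk) tr_775_776 = true) ∧
    ((chkV P V lk) 0x20021001900054000400040004000400140003fff400240003ffe = true) ∧
    ((chkV P V lk) 0x10002003d000d000540003fff4001400140014000400040003fff3fff = true) ∧
    ((chkV P V lk) 0x600020043003e003b400040014000400140003fff40033fff3ffe3fff = true) ∧
    ((chkV P V lk) 0x800020022001200034000400040003fff40014001400040023fff3ffe = true) ∧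
    ((chkV P V lk) 0xa0002002e003800044000400040003ffe40004000400140023fff4000 = true) ∧
    ((chkV P V lk) 0x1000000000000001e0012001240003ffe3fff400240014001400040003fff4000 = true) ∧
    ((chkV P V lk) 0x10039001e000840003fff40023ffe40004000400240013ffe4000 = true) :=
  ⟨allTr_mk (chkV_of (by decide +kernel) (rng_cons C02_1_p0 rfl (rng_cons C02_1_p1 rfl (rng_cons C02_1_p2 rfl (rng_cons C02_1_p3 rfl (rng_cons C02_1_p4 rfl (rng_cons C02_1_p5 rfl (rng_cons C02_1_p6 rfl (rng_end (Nat.le_of_eq rfl)))))))))) rfl rfl,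
  by decide +kernel,
  by decide +kernel,
  by decide +kernel,
  by decide +kernel,
  by decide +kernel,
  by decide +kernel,
  by decide +kernel,
  by decide +kernel,
  by decide +kernel,
  by decide +kernel,
  by decide +kernel,
  by decide +kernel,
  by decide +kernel,
  by decide +kernel,
  by decide +kernel,
  by decide +kernel,
  by decide +kernel,
  by decide +kernel,
  by decide +kernel,
  by decide +kernel,
  by decide +kernel,
  by decide +kernel,
  by decide +kernel,
  by decide +kernel,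
  by decide +kernel,
  by decide +kernel,
  by decide +kernel,
  by decide +kernel,
  by decide +kernel,
  by decide +kernel,
  by decide +kernel,
  by decide +kernel,
  by decide +kernel,
  by decide +kernel,
  by decide +kernel,
  by decide +kernel,
  by decide +kernel,
  by decide +kernel,
  by decide +kernel,
  by decide +kernel,
  by decide +kernel,
  by decide +kernel,
  by decide +kernel,
  by decide +kernel,
  by decide +kernel,
  by decide +kernel,
  by decide +kernel,
  by decide +kernel,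
  by decide +kernel,
  by decide +kernel,
  by decide +kernel,
  by decide +kernel,
  by decide +kernel,
  by decide +kernel⟩

theorem c_3143_3144 : allTr (chkV P V lk) tr_3143_3144 = true := allC02.1

theorem c_3156_3157 : allTr (chkV P V lk) tr_3156_3157 = true := allC02.2.1

theorem ck_3089 : (chkV P V lk) 0x100000000000b00020008000800014000400040013fff400040004000400140003fff = true := allC02.2.2.1

theorem ck_2752 : (chkV P V lk) 0x1000b0000003700210000400040003fff400040014000400140003fff4000 = true := allC02.2.2.2.1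

theorem ck_3035 : (chkV P V lk) 0x100000000000a00020005000500014000400040013fff400040004000400140003fff = true := allC02.2.2.2.2.1

theorem ck_2854 : (chkV P V lk) 0x100000000000600020013001300014000400040013fff400040004000400140003fff = true := allC02.2.2.2.2.2.1

theorem c_2984_2985 : allTr (chkV P V lk) tr_2984_2985 = true := allC02.2.2.2.2.2.2.1

theorem c_2693_2694 : allTr (chkV P V lk) tr_2693_2694 = true := allC02.2.2.2.2.2.2.2.1

theorem c_3115_3117 : allTr (chkV P V lk) tr_3115_3117 = true := allC02.2.2.2.2.2.2.2.2.1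

theorem c_2815_2817 : allTr (chkV P V lk) tr_2815_2817 = true := allC02.2.2.2.2.2.2.2.2.2.1

theorem c_2262_2273 : allTr (chkV P V lk) tr_2262_2273 = true := allC02.2.2.2.2.2.2.2.2.2.2.1

theorem c_2412_2423 : allTr (chkV P V lk) tr_2412_2423 = true := allC02.2.2.2.2.2.2.2.2.2.2.2.1

theorem ck_3097 : (chkV P V lk) 0x100000000000b0002000d000d00014000400040013fff400040004000400140003fff = true := allC02.2.2.2.2.2.2.2.2.2.2.2.2.1

theorem c_1699_1723 : allTr (chkV P V lk) tr_1699_1723 = true := allC02.2.2.2.2.2.2.2.2.2.2.2.2.2.1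

theorem c_2112_2117 : allTr (chkV P V lk) tr_2112_2117 = true := allC02.2.2.2.2.2.2.2.2.2.2.2.2.2.2.1

theorem c_1837_1839 : allTr (chkV P V lk) tr_1837_1839 = true := allC02.2.2.2.2.2.2.2.2.2.2.2.2.2.2.2.1

theorem ck_2998 : (chkV P V lk) 0x10000000000090002001e001e00014000400040013fff400040004000400140003fff = true := allC02.2.2.2.2.2.2.2.2.2.2.2.2.2.2.2.2.1

theorem c_3051_3052 : allTr (chkV P V lk) tr_3051_3052 = true := allC02.2.2.2.2.2.2.2.2.2.2.2.2.2.2.2.2.2.1

theorem ck_2804 : (chkV P V lk) 0x10000000000030002000a000a00014000400040013fff400040004000400140003fff = true := allC02.2.2.2.2.2.2.2.2.2.2.2.2.2.2.2.2.2.2.1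

theorem c_3071_3072 : allTr (chkV P V lk) tr_3071_3072 = true := allC02.2.2.2.2.2.2.2.2.2.2.2.2.2.2.2.2.2.2.2.1

theorem ck_2825 : (chkV P V lk) 0x100000000000500020009000900014000400040013fff400040004000400140003fff = true := allC02.2.2.2.2.2.2.2.2.2.2.2.2.2.2.2.2.2.2.2.2.1

theorem ck_2961 : (chkV P V lk) 0x100000000000800020031003100024000400040013fff400040004000400140003fff = true := allC02.2.2.2.2.2.2.2.2.2.2.2.2.2.2.2.2.2.2.2.2.2.1

theorem c_2896_2897 : allTr (chkV P V lk) tr_2896_2897 = true := allC02.2.2.2.2.2.2.2.2.2.2.2.2.2.2.2.2.2.2.2.2.2.2.1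

theorem c_2593_2598 : allTr (chkV P V lk) tr_2593_2598 = true := allC02.2.2.2.2.2.2.2.2.2.2.2.2.2.2.2.2.2.2.2.2.2.2.2.1

theorem ck_2682 : (chkV P V lk) 0x10008000000080003000040004000400040013fff40003fff400140004000 = true := allC02.2.2.2.2.2.2.2.2.2.2.2.2.2.2.2.2.2.2.2.2.2.2.2.2.1

theorem ck_3100 : (chkV P V lk) 0x100000000000b0002001d001d00014000400040013fff400040004000400140003fff = true := allC02.2.2.2.2.2.2.2.2.2.2.2.2.2.2.2.2.2.2.2.2.2.2.2.2.2.1

theorem c_1125_1128 : allTr (chkV P V lk) tr_1125_1128 = true := allC02.2.2.2.2.2.2.2.2.2.2.2.2.2.2.2.2.2.2.2.2.2.2.2.2.2.2.1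

theorem ck_3007 : (chkV P V lk) 0x100000000000900020024002400024000400040013fff400040004000400140003fff = true := allC02.2.2.2.2.2.2.2.2.2.2.2.2.2.2.2.2.2.2.2.2.2.2.2.2.2.2.2.1

theorem c_500_549 : allTr (chkV P V lk) tr_500_549 = true := allC02.2.2.2.2.2.2.2.2.2.2.2.2.2.2.2.2.2.2.2.2.2.2.2.2.2.2.2.2.1

theorem c_1550_1598 : allTr (chkV P V lk) tr_1550_1598 = true := allC02.2.2.2.2.2.2.2.2.2.2.2.2.2.2.2.2.2.2.2.2.2.2.2.2.2.2.2.2.2.1

theorem ck_2938 : (chkV P V lk) 0x100000000000800020011001100014000400040013fff400040004000400140003fff = true := allC02.2.2.2.2.2.2.2.2.2.2.2.2.2.2.2.2.2.2.2.2.2.2.2.2.2.2.2.2.2.2.1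

theorem c_2851_2852 : allTr (chkV P V lk) tr_2851_2852 = true := allC02.2.2.2.2.2.2.2.2.2.2.2.2.2.2.2.2.2.2.2.2.2.2.2.2.2.2.2.2.2.2.2.1

theorem ck_2845 : (chkV P V lk) 0x100000000000500020029002900024000400040013fff400040004000400140003fff = true := allC02.2.2.2.2.2.2.2.2.2.2.2.2.2.2.2.2.2.2.2.2.2.2.2.2.2.2.2.2.2.2.2.2.1

theorem c_3056_3057 : allTr (chkV P V lk) tr_3056_3057 = true := allC02.2.2.2.2.2.2.2.2.2.2.2.2.2.2.2.2.2.2.2.2.2.2.2.2.2.2.2.2.2.2.2.2.2.1

theorem c_2999_3000 : allTr (chkV P V lk) tr_2999_3000 = true := allC02.2.2.2.2.2.2.2.2.2.2.2.2.2.2.2.2.2.2.2.2.2.2.2.2.2.2.2.2.2.2.2.2.2.2.1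

theorem c_2581_2583 : allTr (chkV P V lk) tr_2581_2583 = true := allC02.2.2.2.2.2.2.2.2.2.2.2.2.2.2.2.2.2.2.2.2.2.2.2.2.2.2.2.2.2.2.2.2.2.2.2.1

theorem ck_3030 : (chkV P V lk) 0x100000000000900020046004600024000400040013fff400040004000400140003fff = true := allC02.2.2.2.2.2.2.2.2.2.2.2.2.2.2.2.2.2.2.2.2.2.2.2.2.2.2.2.2.2.2.2.2.2.2.2.2.1

theorem ck_3002 : (chkV P V lk) 0x100000000000900020021002100024000400040013fff400040004000400140003fff = true := allC02.2.2.2.2.2.2.2.2.2.2.2.2.2.2.2.2.2.2.2.2.2.2.2.2.2.2.2.2.2.2.2.2.2.2.2.2.2.1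

theorem c_3131_3132 : allTr (chkV P V lk) tr_3131_3132 = true := allC02.2.2.2.2.2.2.2.2.2.2.2.2.2.2.2.2.2.2.2.2.2.2.2.2.2.2.2.2.2.2.2.2.2.2.2.2.2.2.1

theorem c_1116_1118 : allTr (chkV P V lk) tr_1116_1118 = true := allC02.2.2.2.2.2.2.2.2.2.2.2.2.2.2.2.2.2.2.2.2.2.2.2.2.2.2.2.2.2.2.2.2.2.2.2.2.2.2.2.1

theorem ck_1811 : (chkV P V lk) 0x80001000c003d00014000400040023fff40014000400040003fff3fff = true := allC02.2.2.2.2.2.2.2.2.2.2.2.2.2.2.2.2.2.2.2.2.2.2.2.2.2.2.2.2.2.2.2.2.2.2.2.2.2.2.2.2.1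

theorem c_2293_2298 : allTr (chkV P V lk) tr_2293_2298 = true := allC02.2.2.2.2.2.2.2.2.2.2.2.2.2.2.2.2.2.2.2.2.2.2.2.2.2.2.2.2.2.2.2.2.2.2.2.2.2.2.2.2.2.1

theorem c_1475_1487 : allTr (chkV P V lk) tr_1475_1487 = true := allC02.2.2.2.2.2.2.2.2.2.2.2.2.2.2.2.2.2.2.2.2.2.2.2.2.2.2.2.2.2.2.2.2.2.2.2.2.2.2.2.2.2.2.1

theorem c_2571_2573 : allTr (chkV P V lk) tr_2571_2573 = true := allC02.2.2.2.2.2.2.2.2.2.2.2.2.2.2.2.2.2.2.2.2.2.2.2.2.2.2.2.2.2.2.2.2.2.2.2.2.2.2.2.2.2.2.2.1

theorem c_779_781 : allTr (chkV P V lk) tr_779_781 = true := allC02.2.2.2.2.2.2.2.2.2.2.2.2.2.2.2.2.2.2.2.2.2.2.2.2.2.2.2.2.2.2.2.2.2.2.2.2.2.2.2.2.2.2.2.2.1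

theorem c_2062_2064 : allTr (chkV P V lk) tr_2062_2064 = true := allC02.2.2.2.2.2.2.2.2.2.2.2.2.2.2.2.2.2.2.2.2.2.2.2.2.2.2.2.2.2.2.2.2.2.2.2.2.2.2.2.2.2.2.2.2.2.1

theorem c_2768_2773 : allTr (chkV P V lk) tr_2768_2773 = true := allC02.2.2.2.2.2.2.2.2.2.2.2.2.2.2.2.2.2.2.2.2.2.2.2.2.2.2.2.2.2.2.2.2.2.2.2.2.2.2.2.2.2.2.2.2.2.2.1

theorem c_775_776 : allTr (chkV P V lk) tr_775_776 = true := allC02.2.2.2.2.2.2.2.2.2.2.2.2.2.2.2.2.2.2.2.2.2.2.2.2.2.2.2.2.2.2.2.2.2.2.2.2.2.2.2.2.2.2.2.2.2.2.2.1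

theorem ck_649 : (chkV P V lk) 0x20021001900054000400040004000400140003fff400240003ffe = true := allC02.2.2.2.2.2.2.2.2.2.2.2.2.2.2.2.2.2.2.2.2.2.2.2.2.2.2.2.2.2.2.2.2.2.2.2.2.2.2.2.2.2.2.2.2.2.2.2.2.1

theorem ck_874 : (chkV P V lk) 0x10002003d000d000540003fff4001400140014000400040003fff3fff = true := allC02.2.2.2.2.2.2.2.2.2.2.2.2.2.2.2.2.2.2.2.2.2.2.2.2.2.2.2.2.2.2.2.2.2.2.2.2.2.2.2.2.2.2.2.2.2.2.2.2.2.1

theorem ck_1549 : (chkV P V lk) 0x600020043003e003b400040014000400140003fff40033fff3ffe3fff = true := allC02.2.2.2.2.2.2.2.2.2.2.2.2.2.2.2.2.2.2.2.2.2.2.2.2.2.2.2.2.2.2.2.2.2.2.2.2.2.2.2.2.2.2.2.2.2.2.2.2.2.2.1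

theorem ck_1923 : (chkV P V lk) 0x800020022001200034000400040003fff40014001400040023fff3ffe = true := allC02.2.2.2.2.2.2.2.2.2.2.2.2.2.2.2.2.2.2.2.2.2.2.2.2.2.2.2.2.2.2.2.2.2.2.2.2.2.2.2.2.2.2.2.2.2.2.2.2.2.2.2.1

theorem ck_2411 : (chkV P V lk) 0xa0002002e003800044000400040003ffe40004000400140023fff4000 = true := allC02.2.2.2.2.2.2.2.2.2.2.2.2.2.2.2.2.2.2.2.2.2.2.2.2.2.2.2.2.2.2.2.2.2.2.2.2.2.2.2.2.2.2.2.2.2.2.2.2.2.2.2.2.1

theorem ck_2767 : (chkV P V lk) 0x1000000000000001e0012001240003ffe3fff400240014001400040003fff4000 = true := allC02.2.2.2.2.2.2.2.2.2.2.2.2.2.2.2.2.2.2.2.2.2.2.2.2.2.2.2.2.2.2.2.2.2.2.2.2.2.2.2.2.2.2.2.2.2.2.2.2.2.2.2.2.2.1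

theorem ck_449 : (chkV P V lk) 0x10039001e000840003fff40023ffe40004000400240013ffe4000 = true := allC02.2.2.2.2.2.2.2.2.2.2.2.2.2.2.2.2.2.2.2.2.2.2.2.2.2.2.2.2.2.2.2.2.2.2.2.2.2.2.2.2.2.2.2.2.2.2.2.2.2.2.2.2.2.2

end MPbbea99G.E10
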