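import Pool.Agent.Lib.Pbbea99G.E10.Data
import Pool.Agent.Lib.Pbbea99G.Piece

/-!
# MP_bbea99_co: closure of the templates
-/

namespace MPbbea99G.E10

open MPbbea99S MPbbea99T MPbbea99G Finset

mutual

theorem C04_1_p0 : allN (fun j => chkV1 P V lk 0x100010000000100020001000100014000400040013fff400040004000400140003fff (0 + j)) 16 = true := by decide +kernel

theorem C04_1_p1 : allN (fun j => chkV1 P V lk 0x100010000000100020001000100014000400040013fff400040004000400140003fff (16 + j)) 16 = true := by decide +kernel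

theorem C04_1_p2 : allN (fun j => chkV1 P V lk 0x100010000000100020001000100014000400040013fff400040004000400140003fff (32 + j)) 16 = true := by decide +kernel

theorem C04_1_p3 : allN (fun j => chkV1 P V lk 0x100010000000100020001000100014000400040013fff400040004000400140003fff (48 + j)) 16 = true := by decide +kernel

theorem C04_1_p4 : allN (fun j => chkV1 P V lk 0x100010000000100020001000100014000400040013fff400040004000400140003fff (64 + j)) 16 = true := by decide +kernel

theorem C04_1_p5 : allN (fun j => chkV1 P V lk 0x100010000000100020001000100014000400040013fff400040004000400140003fff (80 + j)) 16 = true := by decide +kernel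

theorem C04_1_p6 : allN (fun j => chkV1 P V lk 0x100010000000100020001000100014000400040013fff400040004000400140003fff (96 + j)) 16 = true := by decide +kernel

theorem C04_1_p7 : allN (fun j => chkV1 P V lk 0x100010000000100020001000100014000400040013fff400040004000400140003fff (112 + j)) 9 = true := by decide +kernel

theorem C04_2_p0 : allN (fun j => chkV1 P V lk 0x100000001000b0001001e001e00004000400040004000400040004000400040004000 (0 + j)) 31 = true := by decide +kernel

theorem C04_2_p1 : allN (fun j => chkV1 P V lk 0x100000001000b0001001e001e00004000400040004000400040004000400040004000 (31 + j)) 31 = true := by decide +kernel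

theorem C04_2_p2 : allN (fun j => chkV1 P V lk 0x100000001000b0001001e001e00004000400040004000400040004000400040004000 (62 + j)) 31 = true := by decide +kernel

theorem C04_2_p3 : allN (fun j => chkV1 P V lk 0x100000001000b0001001e001e00004000400040004000400040004000400040004000 (93 + j)) 28 = true := by decide +kernel

theorem C04_3_p0 : allN (fun j => chkV1 P V lk 0x100000001000900010007000700004000400040004000400040004000400040004000 (0 + j)) 41 = true := by decide +kernel

theorem C04_3_p1 : allN (fun j => chkV1 P V lk 0x100000001000900010007000700004000400040004000400040004000400040004000 (41 + j)) 41 = true := by decide +kernel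

theorem C04_3_p2 : allN (fun j => chkV1 P V lk 0x100000001000900010007000700004000400040004000400040004000400040004000 (82 + j)) 39 = true := by decide +kernel

end

theorem allC04 :
    ((chkV P V lk) 0x100010000000100020001000100014000400040013fff400040004000400140003fff = true) ∧
    (allTr (chkV P V lk) tr_3177_3178 = true) ∧
    (allTr (chkV P V lk) tr_3149_3150 = true) ∧
    (allTr (chkV P V lk) tr_2890_2891 = true) ∧
    ((chkV P V lk) 0x100000000000a00020041004100024000400040013fff400040004000400140003fff = true) ∧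
    (allTr (chkV P V lk) tr_3043_3044 = true) ∧
    ((chkV P V lk) 0x100090000001c000e000040003fff400040003fff40004000400040014001 = true) ∧
    (allTr (chkV P V lk) tr_2696_2697 = true) ∧
    (allTr (chkV P V lk) tr_2487_2498 = true) ∧
    ((chkV P V lk) 0x100000000000b00020020002000014000400040013fff400040004000400140003fff = true) ∧
    (allTr (chkV P V lk) tr_1457_1462 = true) ∧
    (allTr (chkV P V lk) tr_1294_1299 = true) ∧
    ((chkV P V lk) 0x100000000000400020010001000014000400040013fff400040004000400140003fff = true) ∧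
    ((chkV P V lk) 0x10000000000070002000d000d00014000400040013fff400040004000400140003fff = true) ∧
    (allTr (chkV P V lk) tr_2899_2900 = true) ∧
    ((chkV P V lk) 0x10000000000080002003a003a00024000400040013fff400040004000400140003fff = true) ∧
    ((chkV P V lk) 0x100000000000800020035003500014000400040013fff400040004000400140003fff = true) ∧
    (allTr (chkV P V lk) tr_3084_3085 = true) ∧
    ((chkV P V lk) 0x100000000000800020031003100014000400040013fff400040004000400140003fff = true) ∧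
    (allTr (chkV P V lk) tr_2512_2517 = true) ∧
    ((chkV P V lk) 0x10000000000080002000f000f00014000400040013fff400040004000400140003fff = true) ∧
    ((chkV P V lk) 0x100000000000800020017001700024000400040013fff400040004000400140003fff = true) ∧
    (allTr (chkV P V lk) tr_1263_1268 = true) ∧
    ((chkV P V lk) 0x100000000000600020040004000024000400040013fff400040004000400140003fff = true) ∧
    (allTr (chkV P V lk) tr_1749_1798 = true) ∧
    (allTr (chkV P V lk) tr_3112_3113 = true) ∧
    (allTr (chkV P V lk) tr_2996_2997 = true) ∧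
    (allTr (chkV P V lk) tr_3046_3047 = true) ∧
    ((chkV P V lk) 0x100000000000500020024002400024000400040013fff400040004000400140003fff = true) ∧
    (allTr (chkV P V lk) tr_300_349 = true) ∧
    ((chkV P V lk) 0xb0001003c0025000140003fff40013fff400040014001400040003fff = true) ∧
    ((chkV P V lk) 0x100000000000a00020014001400014000400040013fff400040004000400140003fff = true) ∧
    (allTr (chkV P V lk) tr_2843_2844 = true) ∧
    (allTr (chkV P V lk) tr_3121_3122 = true) ∧
    ((chkV P V lk) 0x10000000000070002002c002c00024000400040013fff400040004000400140003fff = true) ∧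
    (allTr (chkV P V lk) tr_1812_1817 = true) ∧
    (allTr (chkV P V lk) tr_2518_2523 = true) ∧
    ((chkV P V lk) 0x100000000000b00020001000100024000400040013fff400040004000400140003fff = true) ∧
    (allTr (chkV P V lk) tr_1432_1437 = true) ∧
    ((chkV P V lk) 0x100000000000a00020016001600014000400040013fff400040004000400140003fff = true) ∧
    ((chkV P V lk) 0x10000000000060002003b003b00024000400040013fff400040004000400140003fff = true) ∧
    ((chkV P V lk) 0x600010026003c00024000400040013fff400040013fff400040013fff = true) ∧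
    (allTr (chkV P V lk) tr_1250_1256 = true) ∧
    ((chkV P V lk) 0xa00010020001100014000400040003ffe400040004001400140013fff = true) ∧
    ((chkV P V lk) 0xa00010026003c00014000400040013fff400040013fff400040013fff = true) ∧
    (allTr (chkV P V lk) tr_788_799 = true) ∧
    (allTr (chkV P V lk) tr_363_374 = true) ∧
    (allTr (chkV P V lk) tr_350_356 = true) ∧
    ((chkV P V lk) 0x900010041004600014000400040013fff40013fff4000400040013fff = true) ∧
    ((chkV P V lk) 0x20014000b00044000400140003fff40013fff400040023fff3fff = true) ∧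
    ((chkV P V lk) 0x2003c0024000640003fff4001400040013fff4000400140013ffe = true) ∧
    ((chkV P V lk) 0x30002003e002700044000400140013ffe400140003fff400240003ffe = true) ∧
    ((chkV P V lk) 0x2004300220021400040013fff3fff40004002400040013ffe4000 = true) ∧
    ((chkV P V lk) 0x900010028004200044000400040013ffc400140024000400240003ffe = true) ∧
    ((chkV P V lk) 0xb0000001d000e00024000400040013fff3ffe3fff4000400140024000 = true) ∧
    ((chkV P V lk) 0xa000200270015000640003fff4002400040003fff3fff400240003fff = true) :=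
  ⟨chkV_of (by decide +kernel) (rng_cons C04_1_p0 rfl (rng_cons C04_1_p1 rfl (rng_cons C04_1_p2 rfl (rng_cons C04_1_p3 rfl (rng_cons C04_1_p4 rfl (rng_cons C04_1_p5 rfl (rng_cons C04_1_p6 rfl (rng_cons C04_1_p7 rfl (rng_end (Nat.le_of_eq rfl)))))))))),
  allTr_mk (chkV_of (by decide +kernel) (rng_cons C04_2_p0 rfl (rng_cons C04_2_p1 rfl (rng_cons C04_2_p2 rfl (rng_cons C04_2_p3 rfl (rng_end (Nat.le_of_eq rfl))))))) rfl rfl,
  allTr_mk (chkV_of (by decide +kernel) (rng_cons C04_3_p0 rfl (rng_cons C04_3_p1 rfl (rng_cons C04_3_p2 rfl (rng_end (Nat.le_of_eq rfl)))))) rfl rfl,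
  by decide +kernel,
  by decide +kernel,
  by decide +kernel,
  by decide +kernel,
  by decide +kernel,
  allTr_mk (by decide +kernel) (by decide +kernel) (by decide +kernel),
  by decide +kernel,
  by decide +kernel,
  by decide +kernel,
  by decide +kernel,
  by decide +kernel,
  by decide +kernel,
  by decide +kernel,
  by decide +kernel,
  by decide +kernel,
  by decide +kernel,
  by decide +kernel,
  by decide +kernel,
  by decide +kernel,
  by decide +kernel,
  by decide +kernel,
  by decide +kernel,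
  by decide +kernel,
  by decide +kernel,
  by decide +kernel,
  by decide +kernel,
  by decide +kernel,
  by decide +kernel,
  by decide +kernel,
  by decide +kernel,
  by decide +kernel,
  by decide +kernel,
  by decide +kernel,
  by decide +kernel,
  by decide +kernel,
  by decide +kernel,
  by decide +kernel,
  by decide +kernel,
  by decide +kernel,
  by decide +kernel,
  by decide +kernel,
  by decide +kernel,
  by decide +kernel,
  by decide +kernel,
  by decide +kernel,
  by decide +kernel,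
  by decide +kernel,
  by decide +kernel,
  by decide +kernel,
  by decide +kernel,
  by decide +kernel,
  by decide +kernel,
  by decide +kernel⟩

theorem ck_3194 : (chkV P V lk) 0x100010000000100020001000100014000400040013fff400040004000400140003fff = true := allC04.1

theorem c_3177_3178 : allTr (chkV P V lk) tr_3177_3178 = true := allC04.2.1

theorem c_3149_3150 : allTr (chkV P V lk) tr_3149_3150 = true := allC04.2.2.1

theorem c_2890_2891 : allTr (chkV P V lk) tr_2890_2891 = true := allC04.2.2.2.1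

theorem ck_3085 : (chkV P V lk) 0x100000000000a00020041004100024000400040013fff400040004000400140003fff = true := allC04.2.2.2.2.1

theorem c_3043_3044 : allTr (chkV P V lk) tr_3043_3044 = true := allC04.2.2.2.2.2.1

theorem ck_2704 : (chkV P V lk) 0x100090000001c000e000040003fff400040003fff40004000400040014001 = true := allC04.2.2.2.2.2.2.1

theorem c_2696_2697 : allTr (chkV P V lk) tr_2696_2697 = true := allC04.2.2.2.2.2.2.2.1

theorem c_2487_2498 : allTr (chkV P V lk) tr_2487_2498 = true := allC04.2.2.2.2.2.2.2.2.1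

theorem ck_3104 : (chkV P V lk) 0x100000000000b00020020002000014000400040013fff400040004000400140003fff = true := allC04.2.2.2.2.2.2.2.2.2.1

theorem c_1457_1462 : allTr (chkV P V lk) tr_1457_1462 = true := allC04.2.2.2.2.2.2.2.2.2.2.1

theorem c_1294_1299 : allTr (chkV P V lk) tr_1294_1299 = true := allC04.2.2.2.2.2.2.2.2.2.2.2.1

theorem ck_2811 : (chkV P V lk) 0x100000000000400020010001000014000400040013fff400040004000400140003fff = true := allC04.2.2.2.2.2.2.2.2.2.2.2.2.1

theorem ck_2895 : (chkV P V lk) 0x10000000000070002000d000d00014000400040013fff400040004000400140003fff = true := allC04.2.2.2.2.2.2.2.2.2.2.2.2.2.1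

theorem c_2899_2900 : allTr (chkV P V lk) tr_2899_2900 = true := allC04.2.2.2.2.2.2.2.2.2.2.2.2.2.2.1

theorem ck_2972 : (chkV P V lk) 0x10000000000080002003a003a00024000400040013fff400040004000400140003fff = true := allC04.2.2.2.2.2.2.2.2.2.2.2.2.2.2.2.1

theorem ck_2963 : (chkV P V lk) 0x100000000000800020035003500014000400040013fff400040004000400140003fff = true := allC04.2.2.2.2.2.2.2.2.2.2.2.2.2.2.2.2.1

theorem c_3084_3085 : allTr (chkV P V lk) tr_3084_3085 = true := allC04.2.2.2.2.2.2.2.2.2.2.2.2.2.2.2.2.2.1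

theorem ck_2960 : (chkV P V lk) 0x100000000000800020031003100014000400040013fff400040004000400140003fff = true := allC04.2.2.2.2.2.2.2.2.2.2.2.2.2.2.2.2.2.2.1

theorem c_2512_2517 : allTr (chkV P V lk) tr_2512_2517 = true := allC04.2.2.2.2.2.2.2.2.2.2.2.2.2.2.2.2.2.2.2.1

theorem ck_2936 : (chkV P V lk) 0x10000000000080002000f000f00014000400040013fff400040004000400140003fff = true := allC04.2.2.2.2.2.2.2.2.2.2.2.2.2.2.2.2.2.2.2.2.1

theorem ck_2950 : (chkV P V lk) 0x100000000000800020017001700024000400040013fff400040004000400140003fff = true := allC04.2.2.2.2.2.2.2.2.2.2.2.2.2.2.2.2.2.2.2.2.2.1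

theorem c_1263_1268 : allTr (chkV P V lk) tr_1263_1268 = true := allC04.2.2.2.2.2.2.2.2.2.2.2.2.2.2.2.2.2.2.2.2.2.2.1

theorem ck_2886 : (chkV P V lk) 0x100000000000600020040004000024000400040013fff400040004000400140003fff = true := allC04.2.2.2.2.2.2.2.2.2.2.2.2.2.2.2.2.2.2.2.2.2.2.2.1

theorem c_1749_1798 : allTr (chkV P V lk) tr_1749_1798 = true := allC04.2.2.2.2.2.2.2.2.2.2.2.2.2.2.2.2.2.2.2.2.2.2.2.2.1

theorem c_3112_3113 : allTr (chkV P V lk) tr_3112_3113 = true := allC04.2.2.2.2.2.2.2.2.2.2.2.2.2.2.2.2.2.2.2.2.2.2.2.2.2.1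

theorem c_2996_2997 : allTr (chkV P V lk) tr_2996_2997 = true := allC04.2.2.2.2.2.2.2.2.2.2.2.2.2.2.2.2.2.2.2.2.2.2.2.2.2.2.1

theorem c_3046_3047 : allTr (chkV P V lk) tr_3046_3047 = true := allC04.2.2.2.2.2.2.2.2.2.2.2.2.2.2.2.2.2.2.2.2.2.2.2.2.2.2.2.1

theorem ck_2839 : (chkV P V lk) 0x100000000000500020024002400024000400040013fff400040004000400140003fff = true := allC04.2.2.2.2.2.2.2.2.2.2.2.2.2.2.2.2.2.2.2.2.2.2.2.2.2.2.2.2.1

theorem c_300_349 : allTr (chkV P V lk) tr_300_349 = true := allC04.2.2.2.2.2.2.2.2.2.2.2.2.2.2.2.2.2.2.2.2.2.2.2.2.2.2.2.2.2.1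

theorem ck_2592 : (chkV P V lk) 0xb0001003c0025000140003fff40013fff400040014001400040003fff = true := allC04.2.2.2.2.2.2.2.2.2.2.2.2.2.2.2.2.2.2.2.2.2.2.2.2.2.2.2.2.2.2.1

theorem ck_3044 : (chkV P V lk) 0x100000000000a00020014001400014000400040013fff400040004000400140003fff = true := allC04.2.2.2.2.2.2.2.2.2.2.2.2.2.2.2.2.2.2.2.2.2.2.2.2.2.2.2.2.2.2.2.1

theorem c_2843_2844 : allTr (chkV P V lk) tr_2843_2844 = true := allC04.2.2.2.2.2.2.2.2.2.2.2.2.2.2.2.2.2.2.2.2.2.2.2.2.2.2.2.2.2.2.2.2.1

theorem c_3121_3122 : allTr (chkV P V lk) tr_3121_3122 = true := allC04.2.2.2.2.2.2.2.2.2.2.2.2.2.2.2.2.2.2.2.2.2.2.2.2.2.2.2.2.2.2.2.2.2.1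

theorem ck_2917 : (chkV P V lk) 0x10000000000070002002c002c00024000400040013fff400040004000400140003fff = true := allC04.2.2.2.2.2.2.2.2.2.2.2.2.2.2.2.2.2.2.2.2.2.2.2.2.2.2.2.2.2.2.2.2.2.2.1

theorem c_1812_1817 : allTr (chkV P V lk) tr_1812_1817 = true := allC04.2.2.2.2.2.2.2.2.2.2.2.2.2.2.2.2.2.2.2.2.2.2.2.2.2.2.2.2.2.2.2.2.2.2.2.1

theorem c_2518_2523 : allTr (chkV P V lk) tr_2518_2523 = true := allC04.2.2.2.2.2.2.2.2.2.2.2.2.2.2.2.2.2.2.2.2.2.2.2.2.2.2.2.2.2.2.2.2.2.2.2.2.1

theorem ck_3086 : (chkV P V lk) 0x100000000000b00020001000100024000400040013fff400040004000400140003fff = true := allC04.2.2.2.2.2.2.2.2.2.2.2.2.2.2.2.2.2.2.2.2.2.2.2.2.2.2.2.2.2.2.2.2.2.2.2.2.2.1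

theorem c_1432_1437 : allTr (chkV P V lk) tr_1432_1437 = true := allC04.2.2.2.2.2.2.2.2.2.2.2.2.2.2.2.2.2.2.2.2.2.2.2.2.2.2.2.2.2.2.2.2.2.2.2.2.2.2.1

theorem ck_3048 : (chkV P V lk) 0x100000000000a00020016001600014000400040013fff400040004000400140003fff = true := allC04.2.2.2.2.2.2.2.2.2.2.2.2.2.2.2.2.2.2.2.2.2.2.2.2.2.2.2.2.2.2.2.2.2.2.2.2.2.2.2.1

theorem ck_2880 : (chkV P V lk) 0x10000000000060002003b003b00024000400040013fff400040004000400140003fff = true := allC04.2.2.2.2.2.2.2.2.2.2.2.2.2.2.2.2.2.2.2.2.2.2.2.2.2.2.2.2.2.2.2.2.2.2.2.2.2.2.2.2.1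

theorem ck_1449 : (chkV P V lk) 0x600010026003c00024000400040013fff400040013fff400040013fff = true := allC04.2.2.2.2.2.2.2.2.2.2.2.2.2.2.2.2.2.2.2.2.2.2.2.2.2.2.2.2.2.2.2.2.2.2.2.2.2.2.2.2.2.1

theorem c_1250_1256 : allTr (chkV P V lk) tr_1250_1256 = true := allC04.2.2.2.2.2.2.2.2.2.2.2.2.2.2.2.2.2.2.2.2.2.2.2.2.2.2.2.2.2.2.2.2.2.2.2.2.2.2.2.2.2.2.1

theorem ck_2286 : (chkV P V lk) 0xa00010020001100014000400040003ffe400040004001400140013fff = true := allC04.2.2.2.2.2.2.2.2.2.2.2.2.2.2.2.2.2.2.2.2.2.2.2.2.2.2.2.2.2.2.2.2.2.2.2.2.2.2.2.2.2.2.2.1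

theorem ck_2305 : (chkV P V lk) 0xa00010026003c00014000400040013fff400040013fff400040013fff = true := allC04.2.2.2.2.2.2.2.2.2.2.2.2.2.2.2.2.2.2.2.2.2.2.2.2.2.2.2.2.2.2.2.2.2.2.2.2.2.2.2.2.2.2.2.2.1

theorem c_788_799 : allTr (chkV P V lk) tr_788_799 = true := allC04.2.2.2.2.2.2.2.2.2.2.2.2.2.2.2.2.2.2.2.2.2.2.2.2.2.2.2.2.2.2.2.2.2.2.2.2.2.2.2.2.2.2.2.2.2.1

theorem c_363_374 : allTr (chkV P V lk) tr_363_374 = true := allC04.2.2.2.2.2.2.2.2.2.2.2.2.2.2.2.2.2.2.2.2.2.2.2.2.2.2.2.2.2.2.2.2.2.2.2.2.2.2.2.2.2.2.2.2.2.2.1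

theorem c_350_356 : allTr (chkV P V lk) tr_350_356 = true := allC04.2.2.2.2.2.2.2.2.2.2.2.2.2.2.2.2.2.2.2.2.2.2.2.2.2.2.2.2.2.2.2.2.2.2.2.2.2.2.2.2.2.2.2.2.2.2.2.1

theorem ck_2117 : (chkV P V lk) 0x900010041004600014000400040013fff40013fff4000400040013fff = true := allC04.2.2.2.2.2.2.2.2.2.2.2.2.2.2.2.2.2.2.2.2.2.2.2.2.2.2.2.2.2.2.2.2.2.2.2.2.2.2.2.2.2.2.2.2.2.2.2.2.1

theorem ck_574 : (chkV P V lk) 0x20014000b00044000400140003fff40013fff400040023fff3fff = true := allC04.2.2.2.2.2.2.2.2.2.2.2.2.2.2.2.2.2.2.2.2.2.2.2.2.2.2.2.2.2.2.2.2.2.2.2.2.2.2.2.2.2.2.2.2.2.2.2.2.2.1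

theorem ck_774 : (chkV P V lk) 0x2003c0024000640003fff4001400040013fff4000400140013ffe = true := allC04.2.2.2.2.2.2.2.2.2.2.2.2.2.2.2.2.2.2.2.2.2.2.2.2.2.2.2.2.2.2.2.2.2.2.2.2.2.2.2.2.2.2.2.2.2.2.2.2.2.2.1

theorem ck_1049 : (chkV P V lk) 0x30002003e002700044000400140013ffe400140003fff400240003ffe = true := allC04.2.2.2.2.2.2.2.2.2.2.2.2.2.2.2.2.2.2.2.2.2.2.2.2.2.2.2.2.2.2.2.2.2.2.2.2.2.2.2.2.2.2.2.2.2.2.2.2.2.2.2.1

theorem ck_799 : (chkV P V lk) 0x2004300220021400040013fff3fff40004002400040013ffe4000 = true := allC04.2.2.2.2.2.2.2.2.2.2.2.2.2.2.2.2.2.2.2.2.2.2.2.2.2.2.2.2.2.2.2.2.2.2.2.2.2.2.2.2.2.2.2.2.2.2.2.2.2.2.2.2.1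

theorem ck_2073 : (chkV P V lk) 0x900010028004200044000400040013ffc400140024000400240003ffe = true := allC04.2.2.2.2.2.2.2.2.2.2.2.2.2.2.2.2.2.2.2.2.2.2.2.2.2.2.2.2.2.2.2.2.2.2.2.2.2.2.2.2.2.2.2.2.2.2.2.2.2.2.2.2.2.1

theorem ck_2448 : (chkV P V lk) 0xb0000001d000e00024000400040013fff3ffe3fff4000400140024000 = true := allC04.2.2.2.2.2.2.2.2.2.2.2.2.2.2.2.2.2.2.2.2.2.2.2.2.2.2.2.2.2.2.2.2.2.2.2.2.2.2.2.2.2.2.2.2.2.2.2.2.2.2.2.2.2.2.1

theorem ck_2398 : (chkV P V lk) 0xa000200270015000640003fff4002400040003fff3fff400240003fff = true := allC04.2.2.2.2.2.2.2.2.2.2.2.2.2.2.2.2.2.2.2.2.2.2.2.2.2.2.2.2.2.2.2.2.2.2.2.2.2.2.2.2.2.2.2.2.2.2.2.2.2.2.2.2.2.2.2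

end MPbbea99G.E10
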