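import Pool.Agent.Lib.Pbbea99G.E10.Data
import Pool.Agent.Lib.Pbbea99G.Piece

/-!
# MP_bbea99_co: closure of the templates
-/

namespace MPbbea99G.E10

open MPbbea99S MPbbea99T MPbbea99G Finset

mutual

theorem C07_5_p0 : allN (fun j => chkV1 P V lk 0x1000700000006000200004000400140003fff4000400040003fff40004001 (0 + j)) 41 = true := by decide +kernel

theorem C07_5_p1 : allN (fun j => chkV1 P V lk 0x1000700000006000200004000400140003fff4000400040003fff40004001 (41 + j)) 41 = true := by decide +kernel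

theorem C07_5_p2 : allN (fun j => chkV1 P V lk 0x1000700000006000200004000400140003fff4000400040003fff40004001 (82 + j)) 39 = true := by decide +kernel

theorem C07_1_p0 : allN (fun j => chkV1 P V lk 0x100000001000100040001000140004000400240003fff40004000400040003fff (0 + j)) 25 = true := by decide +kernel

theorem C07_1_p1 : allN (fun j => chkV1 P V lk 0x100000001000100040001000140004000400240003fff40004000400040003fff (25 + j)) 25 = true := by decide +kernel

theorem C07_1_p2 : allN (fun j => chkV1 P V lk 0x100000001000100040001000140004000400240003fff40004000400040003fff (50 + j)) 25 = true := by decide +kernel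

theorem C07_1_p3 : allN (fun j => chkV1 P V lk 0x100000001000100040001000140004000400240003fff40004000400040003fff (75 + j)) 25 = true := by decide +kernel

theorem C07_1_p4 : allN (fun j => chkV1 P V lk 0x100000001000100040001000140004000400240003fff40004000400040003fff (100 + j)) 21 = true := by decide +kernel

theorem C07_2_p0 : allN (fun j => chkV1 P V lk 0xb00010034001d000c400040014001400040003fff400040013fff3fff (0 + j)) 41 = true := by decide +kernel

theorem C07_2_p1 : allN (fun j => chkV1 P V lk 0xb00010034001d000c400040014001400040003fff400040013fff3fff (41 + j)) 41 = true := by decide +kernel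

theorem C07_2_p2 : allN (fun j => chkV1 P V lk 0xb00010034001d000c400040014001400040003fff400040013fff3fff (82 + j)) 39 = true := by decide +kernel

end

theorem allC07 :
    ((chkV P V lk) 0x100000001000100040001000140004000400240003fff40004000400040003fff = true) ∧
    ((chkV P V lk) 0xb00010034001d000c400040014001400040003fff400040013fff3fff = true) ∧
    (allTr (chkV P V lk) tr_3192_3193 = true) ∧
    (allTr (chkV P V lk) tr_3153_3154 = true) ∧
    ((chkV P V lk) 0x1000700000006000200004000400140003fff4000400040003fff40004001 = true) ∧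
    ((chkV P V lk) 0x1000a0000001d000f000040003fff4000400140003fff4001400040004000 = true) ∧
    (allTr (chkV P V lk) tr_2681_2682 = true) ∧
    ((chkV P V lk) 0x100000000000800020013001300014000400040013fff400040004000400140003fff = true) ∧
    ((chkV P V lk) 0x100000000000600020032003200014000400040013fff400040004000400140003fff = true) ∧
    (allTr (chkV P V lk) tr_2762_2763 = true) ∧
    (allTr (chkV P V lk) tr_3009_3011 = true) ∧
    (allTr (chkV P V lk) tr_2124_2148 = true) ∧
    (allTr (chkV P V lk) tr_1637_1648 = true) ∧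
    (allTr (chkV P V lk) tr_1438_1443 = true) ∧
    (allTr (chkV P V lk) tr_650_699 = true) ∧
    ((chkV P V lk) 0x10000000000050002001f001f00014000400040013fff400040004000400140003fff = true) ∧
    ((chkV P V lk) 0x100000000000900020020002000024000400040013fff400040004000400140003fff = true) ∧
    (allTr (chkV P V lk) tr_1874_1886 = true) ∧
    (allTr (chkV P V lk) tr_2831_2832 = true) ∧
    (allTr (chkV P V lk) tr_1282_1287 = true) ∧
    ((chkV P V lk) 0x10000000000090002000a000a00014000400040013fff400040004000400140003fff = true) ∧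
    ((chkV P V lk) 0x10000000000060002003a003a00014000400040013fff400040004000400140003fff = true) ∧
    ((chkV P V lk) 0x100000000000b00020009000900014000400040013fff400040004000400140003fff = true) ∧
    (allTr (chkV P V lk) tr_2821_2822 = true) ∧
    (allTr (chkV P V lk) tr_982_987 = true) ∧
    (allTr (chkV P V lk) tr_1050_1099 = true) ∧
    ((chkV P V lk) 0x1000b0000003a002a00004000400140014000400040003fff400040003fff = true) ∧
    (allTr (chkV P V lk) tr_2987_2988 = true) ∧
    (allTr (chkV P V lk) tr_50_99 = true) ∧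
    (allTr (chkV P V lk) tr_2699_2700 = true) ∧
    (allTr (chkV P V lk) tr_3015_3016 = true) ∧
    (allTr (chkV P V lk) tr_2871_2872 = true) ∧
    ((chkV P V lk) 0x100000000000800020003000300024000400040013fff400040004000400140003fff = true) ∧
    (allTr (chkV P V lk) tr_2793_2794 = true) ∧
    ((chkV P V lk) 0x100000000000900020029002900014000400040013fff400040004000400140003fff = true) ∧
    (allTr (chkV P V lk) tr_2962_2963 = true) ∧
    (allTr (chkV P V lk) tr_1840_1842 = true) ∧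
    (allTr (chkV P V lk) tr_2937_2938 = true) ∧
    (allTr (chkV P V lk) tr_2324_2330 = true) ∧
    ((chkV P V lk) 0x10000000000040002001b001b00024000400040013fff400040004000400140003fff = true) ∧
    (allTr (chkV P V lk) tr_2056_2061 = true) ∧
    (allTr (chkV P V lk) tr_1447_1449 = true) ∧
    (allTr (chkV P V lk) tr_2103_2105 = true) ∧
    ((chkV P V lk) 0x800010024001b00024000400140013fff3fff3fff4000400140013fff = true) ∧
    ((chkV P V lk) 0x500010039002200014000400040013fff400040013fff40013fff4000 = true) ∧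
    ((chkV P V lk) 0x800010025003b000140003fff40003fff400040014000400240003fff = true) ∧
    ((chkV P V lk) 0x40001002e001a000240004000400140003fff40003fff400240003fff = true) ∧
    ((chkV P V lk) 0x70001001a004300024000400040013ffe400040003fff400240013fff = true) ∧
    ((chkV P V lk) 0x700010018000c000240003fff40023fff40004000400040023fff3fff = true) ∧
    ((chkV P V lk) 0x900010036002700024000400140023fff400040003fff400140003ffe = true) ∧
    ((chkV P V lk) 0x4000100310039003740004001400040003fff400240003fff40003fff = true) ∧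
    ((chkV P V lk) 0x70001002c004200194000400040003fff400240013fff400240003ffd = true) ∧
    ((chkV P V lk) 0x90002000b0008000b40003fff40013fff400040003fff400340013ffe = true) ∧
    ((chkV P V lk) 0xb00010017002f000940004001400040003ffe4000400040003fff4002 = true) ∧
    ((chkV P V lk) 0x13000a001740003fff400240003ffe3fff4001400140004000 = true) :=
  ⟨chkV_of (by decide +kernel) (rng_cons C07_1_p0 rfl (rng_cons C07_1_p1 rfl (rng_cons C07_1_p2 rfl (rng_cons C07_1_p3 rfl (rng_cons C07_1_p4 rfl (rng_end (Nat.le_of_eq rfl))))))),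
  chkV_of (by decide +kernel) (rng_cons C07_2_p0 rfl (rng_cons C07_2_p1 rfl (rng_cons C07_2_p2 rfl (rng_end (Nat.le_of_eq rfl))))),
  by decide +kernel,
  by decide +kernel,
  chkV_of (by decide +kernel) (rng_cons C07_5_p0 rfl (rng_cons C07_5_p1 rfl (rng_cons C07_5_p2 rfl (rng_end (Nat.le_of_eq rfl))))),
  by decide +kernel,
  by decide +kernel,
  by decide +kernel,
  by decide +kernel,
  by decide +kernel,
  by decide +kernel,
  by decide +kernel,
  by decide +kernel,
  by decide +kernel,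
  by decide +kernel,
  by decide +kernel,
  by decide +kernel,
  by decide +kernel,
  by decide +kernel,
  by decide +kernel,
  by decide +kernel,
  by decide +kernel,
  by decide +kernel,
  by decide +kernel,
  by decide +kernel,
  by decide +kernel,
  by decide +kernel,
  by decide +kernel,
  by decide +kernel,
  by decide +kernel,
  by decide +kernel,
  by decide +kernel,
  by decide +kernel,
  by decide +kernel,
  by decide +kernel,
  by decide +kernel,
  by decide +kernel,
  by decide +kernel,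
  by decide +kernel,
  by decide +kernel,
  by decide +kernel,
  by decide +kernel,
  by decide +kernel,
  by decide +kernel,
  by decide +kernel,
  by decide +kernel,
  by decide +kernel,
  by decide +kernel,
  by decide +kernel,
  by decide +kernel,
  by decide +kernel,
  by decide +kernel,
  by decide +kernel,
  by decide +kernel,
  by decide +kernel⟩

theorem ck_2792 : (chkV P V lk) 0x100000001000100040001000140004000400240003fff40004000400040003fff = true := allC07.1

theorem ck_2567 : (chkV P V lk) 0xb00010034001d000c400040014001400040003fff400040013fff3fff = true := allC07.2.1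

theorem c_3192_3193 : allTr (chkV P V lk) tr_3192_3193 = true := allC07.2.2.1

theorem c_3153_3154 : allTr (chkV P V lk) tr_3153_3154 = true := allC07.2.2.2.1

theorem ck_2680 : (chkV P V lk) 0x1000700000006000200004000400140003fff4000400040003fff40004001 = true := allC07.2.2.2.2.1

theorem ck_2710 : (chkV P V lk) 0x1000a0000001d000f000040003fff4000400140003fff4001400040004000 = true := allC07.2.2.2.2.2.1

theorem c_2681_2682 : allTr (chkV P V lk) tr_2681_2682 = true := allC07.2.2.2.2.2.2.1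

theorem ck_2942 : (chkV P V lk) 0x100000000000800020013001300014000400040013fff400040004000400140003fff = true := allC07.2.2.2.2.2.2.2.1

theorem ck_2866 : (chkV P V lk) 0x100000000000600020032003200014000400040013fff400040004000400140003fff = true := allC07.2.2.2.2.2.2.2.2.1

theorem c_2762_2763 : allTr (chkV P V lk) tr_2762_2763 = true := allC07.2.2.2.2.2.2.2.2.2.1

theorem c_3009_3011 : allTr (chkV P V lk) tr_3009_3011 = true := allC07.2.2.2.2.2.2.2.2.2.2.1

theorem c_2124_2148 : allTr (chkV P V lk) tr_2124_2148 = true := allC07.2.2.2.2.2.2.2.2.2.2.2.1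

theorem c_1637_1648 : allTr (chkV P V lk) tr_1637_1648 = true := allC07.2.2.2.2.2.2.2.2.2.2.2.2.1

theorem c_1438_1443 : allTr (chkV P V lk) tr_1438_1443 = true := allC07.2.2.2.2.2.2.2.2.2.2.2.2.2.1

theorem c_650_699 : allTr (chkV P V lk) tr_650_699 = true := allC07.2.2.2.2.2.2.2.2.2.2.2.2.2.2.1

theorem ck_2832 : (chkV P V lk) 0x10000000000050002001f001f00014000400040013fff400040004000400140003fff = true := allC07.2.2.2.2.2.2.2.2.2.2.2.2.2.2.2.1

theorem ck_3000 : (chkV P V lk) 0x100000000000900020020002000024000400040013fff400040004000400140003fff = true := allC07.2.2.2.2.2.2.2.2.2.2.2.2.2.2.2.2.1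

theorem c_1874_1886 : allTr (chkV P V lk) tr_1874_1886 = true := allC07.2.2.2.2.2.2.2.2.2.2.2.2.2.2.2.2.2.1

theorem c_2831_2832 : allTr (chkV P V lk) tr_2831_2832 = true := allC07.2.2.2.2.2.2.2.2.2.2.2.2.2.2.2.2.2.2.1

theorem c_1282_1287 : allTr (chkV P V lk) tr_1282_1287 = true := allC07.2.2.2.2.2.2.2.2.2.2.2.2.2.2.2.2.2.2.2.1

theorem ck_2989 : (chkV P V lk) 0x10000000000090002000a000a00014000400040013fff400040004000400140003fff = true := allC07.2.2.2.2.2.2.2.2.2.2.2.2.2.2.2.2.2.2.2.2.1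

theorem ck_2877 : (chkV P V lk) 0x10000000000060002003a003a00014000400040013fff400040004000400140003fff = true := allC07.2.2.2.2.2.2.2.2.2.2.2.2.2.2.2.2.2.2.2.2.2.1

theorem ck_3091 : (chkV P V lk) 0x100000000000b00020009000900014000400040013fff400040004000400140003fff = true := allC07.2.2.2.2.2.2.2.2.2.2.2.2.2.2.2.2.2.2.2.2.2.2.1

theorem c_2821_2822 : allTr (chkV P V lk) tr_2821_2822 = true := allC07.2.2.2.2.2.2.2.2.2.2.2.2.2.2.2.2.2.2.2.2.2.2.2.1

theorem c_982_987 : allTr (chkV P V lk) tr_982_987 = true := allC07.2.2.2.2.2.2.2.2.2.2.2.2.2.2.2.2.2.2.2.2.2.2.2.2.1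

theorem c_1050_1099 : allTr (chkV P V lk) tr_1050_1099 = true := allC07.2.2.2.2.2.2.2.2.2.2.2.2.2.2.2.2.2.2.2.2.2.2.2.2.2.1

theorem ck_2757 : (chkV P V lk) 0x1000b0000003a002a00004000400140014000400040003fff400040003fff = true := allC07.2.2.2.2.2.2.2.2.2.2.2.2.2.2.2.2.2.2.2.2.2.2.2.2.2.2.1

theorem c_2987_2988 : allTr (chkV P V lk) tr_2987_2988 = true := allC07.2.2.2.2.2.2.2.2.2.2.2.2.2.2.2.2.2.2.2.2.2.2.2.2.2.2.2.1

theorem c_50_99 : allTr (chkV P V lk) tr_50_99 = true := allC07.2.2.2.2.2.2.2.2.2.2.2.2.2.2.2.2.2.2.2.2.2.2.2.2.2.2.2.2.1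

theorem c_2699_2700 : allTr (chkV P V lk) tr_2699_2700 = true := allC07.2.2.2.2.2.2.2.2.2.2.2.2.2.2.2.2.2.2.2.2.2.2.2.2.2.2.2.2.2.1

theorem c_3015_3016 : allTr (chkV P V lk) tr_3015_3016 = true := allC07.2.2.2.2.2.2.2.2.2.2.2.2.2.2.2.2.2.2.2.2.2.2.2.2.2.2.2.2.2.2.1

theorem c_2871_2872 : allTr (chkV P V lk) tr_2871_2872 = true := allC07.2.2.2.2.2.2.2.2.2.2.2.2.2.2.2.2.2.2.2.2.2.2.2.2.2.2.2.2.2.2.2.1

theorem ck_2932 : (chkV P V lk) 0x100000000000800020003000300024000400040013fff400040004000400140003fff = true := allC07.2.2.2.2.2.2.2.2.2.2.2.2.2.2.2.2.2.2.2.2.2.2.2.2.2.2.2.2.2.2.2.2.1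

theorem c_2793_2794 : allTr (chkV P V lk) tr_2793_2794 = true := allC07.2.2.2.2.2.2.2.2.2.2.2.2.2.2.2.2.2.2.2.2.2.2.2.2.2.2.2.2.2.2.2.2.2.1

theorem ck_3014 : (chkV P V lk) 0x100000000000900020029002900014000400040013fff400040004000400140003fff = true := allC07.2.2.2.2.2.2.2.2.2.2.2.2.2.2.2.2.2.2.2.2.2.2.2.2.2.2.2.2.2.2.2.2.2.2.1

theorem c_2962_2963 : allTr (chkV P V lk) tr_2962_2963 = true := allC07.2.2.2.2.2.2.2.2.2.2.2.2.2.2.2.2.2.2.2.2.2.2.2.2.2.2.2.2.2.2.2.2.2.2.2.1

theorem c_1840_1842 : allTr (chkV P V lk) tr_1840_1842 = true := allC07.2.2.2.2.2.2.2.2.2.2.2.2.2.2.2.2.2.2.2.2.2.2.2.2.2.2.2.2.2.2.2.2.2.2.2.2.1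

theorem c_2937_2938 : allTr (chkV P V lk) tr_2937_2938 = true := allC07.2.2.2.2.2.2.2.2.2.2.2.2.2.2.2.2.2.2.2.2.2.2.2.2.2.2.2.2.2.2.2.2.2.2.2.2.2.1

theorem c_2324_2330 : allTr (chkV P V lk) tr_2324_2330 = true := allC07.2.2.2.2.2.2.2.2.2.2.2.2.2.2.2.2.2.2.2.2.2.2.2.2.2.2.2.2.2.2.2.2.2.2.2.2.2.2.1

theorem ck_2823 : (chkV P V lk) 0x10000000000040002001b001b00024000400040013fff400040004000400140003fff = true := allC07.2.2.2.2.2.2.2.2.2.2.2.2.2.2.2.2.2.2.2.2.2.2.2.2.2.2.2.2.2.2.2.2.2.2.2.2.2.2.2.1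

theorem c_2056_2061 : allTr (chkV P V lk) tr_2056_2061 = true := allC07.2.2.2.2.2.2.2.2.2.2.2.2.2.2.2.2.2.2.2.2.2.2.2.2.2.2.2.2.2.2.2.2.2.2.2.2.2.2.2.2.1

theorem c_1447_1449 : allTr (chkV P V lk) tr_1447_1449 = true := allC07.2.2.2.2.2.2.2.2.2.2.2.2.2.2.2.2.2.2.2.2.2.2.2.2.2.2.2.2.2.2.2.2.2.2.2.2.2.2.2.2.2.1

theorem c_2103_2105 : allTr (chkV P V lk) tr_2103_2105 = true := allC07.2.2.2.2.2.2.2.2.2.2.2.2.2.2.2.2.2.2.2.2.2.2.2.2.2.2.2.2.2.2.2.2.2.2.2.2.2.2.2.2.2.2.1

theorem ck_1836 : (chkV P V lk) 0x800010024001b00024000400140013fff3fff3fff4000400140013fff = true := allC07.2.2.2.2.2.2.2.2.2.2.2.2.2.2.2.2.2.2.2.2.2.2.2.2.2.2.2.2.2.2.2.2.2.2.2.2.2.2.2.2.2.2.2.1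

theorem ck_1287 : (chkV P V lk) 0x500010039002200014000400040013fff400040013fff40013fff4000 = true := allC07.2.2.2.2.2.2.2.2.2.2.2.2.2.2.2.2.2.2.2.2.2.2.2.2.2.2.2.2.2.2.2.2.2.2.2.2.2.2.2.2.2.2.2.2.1

theorem ck_1839 : (chkV P V lk) 0x800010025003b000140003fff40003fff400040014000400240003fff = true := allC07.2.2.2.2.2.2.2.2.2.2.2.2.2.2.2.2.2.2.2.2.2.2.2.2.2.2.2.2.2.2.2.2.2.2.2.2.2.2.2.2.2.2.2.2.2.1

theorem ck_1128 : (chkV P V lk) 0x40001002e001a000240004000400140003fff40003fff400240003fff = true := allC07.2.2.2.2.2.2.2.2.2.2.2.2.2.2.2.2.2.2.2.2.2.2.2.2.2.2.2.2.2.2.2.2.2.2.2.2.2.2.2.2.2.2.2.2.2.2.1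

theorem ck_1636 : (chkV P V lk) 0x70001001a004300024000400040013ffe400040003fff400240013fff = true := allC07.2.2.2.2.2.2.2.2.2.2.2.2.2.2.2.2.2.2.2.2.2.2.2.2.2.2.2.2.2.2.2.2.2.2.2.2.2.2.2.2.2.2.2.2.2.2.2.1

theorem ck_1630 : (chkV P V lk) 0x700010018000c000240003fff40023fff40004000400040023fff3fff = true := allC07.2.2.2.2.2.2.2.2.2.2.2.2.2.2.2.2.2.2.2.2.2.2.2.2.2.2.2.2.2.2.2.2.2.2.2.2.2.2.2.2.2.2.2.2.2.2.2.2.1

theorem ck_2086 : (chkV P V lk) 0x900010036002700024000400140023fff400040003fff400140003ffe = true := allC07.2.2.2.2.2.2.2.2.2.2.2.2.2.2.2.2.2.2.2.2.2.2.2.2.2.2.2.2.2.2.2.2.2.2.2.2.2.2.2.2.2.2.2.2.2.2.2.2.2.1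

theorem ck_1131 : (chkV P V lk) 0x4000100310039003740004001400040003fff400240003fff40003fff = true := allC07.2.2.2.2.2.2.2.2.2.2.2.2.2.2.2.2.2.2.2.2.2.2.2.2.2.2.2.2.2.2.2.2.2.2.2.2.2.2.2.2.2.2.2.2.2.2.2.2.2.2.1

theorem ck_1648 : (chkV P V lk) 0x70001002c004200194000400040003fff400240013fff400240003ffd = true := allC07.2.2.2.2.2.2.2.2.2.2.2.2.2.2.2.2.2.2.2.2.2.2.2.2.2.2.2.2.2.2.2.2.2.2.2.2.2.2.2.2.2.2.2.2.2.2.2.2.2.2.2.1

theorem ck_2123 : (chkV P V lk) 0x90002000b0008000b40003fff40013fff400040003fff400340013ffe = true := allC07.2.2.2.2.2.2.2.2.2.2.2.2.2.2.2.2.2.2.2.2.2.2.2.2.2.2.2.2.2.2.2.2.2.2.2.2.2.2.2.2.2.2.2.2.2.2.2.2.2.2.2.2.1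

theorem ck_2536 : (chkV P V lk) 0xb00010017002f000940004001400040003ffe4000400040003fff4002 = true := allC07.2.2.2.2.2.2.2.2.2.2.2.2.2.2.2.2.2.2.2.2.2.2.2.2.2.2.2.2.2.2.2.2.2.2.2.2.2.2.2.2.2.2.2.2.2.2.2.2.2.2.2.2.2.1

theorem ck_49 : (chkV P V lk) 0x13000a001740003fff400240003ffe3fff4001400140004000 = true := allC07.2.2.2.2.2.2.2.2.2.2.2.2.2.2.2.2.2.2.2.2.2.2.2.2.2.2.2.2.2.2.2.2.2.2.2.2.2.2.2.2.2.2.2.2.2.2.2.2.2.2.2.2.2.2

end MPbbea99G.E10
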