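import Pool.Agent.Lib.Pbbea99G.E10.Data
import Pool.Agent.Lib.Pbbea99G.Piece

/-!
# MP_bbea99_co: closure of the templates
-/

namespace MPbbea99G.E10

open MPbbea99S MPbbea99T MPbbea99G Finset

mutual

theorem C14_2_p0 : allN (fun j => chkV1 P V lk 0x100000001000b00010020002000004000400040004000400040004000400040004000 (0 + j)) 41 = true := by decide +kernel

theorem C14_2_p1 : allN (fun j => chkV1 P V lk 0x100000001000b00010020002000004000400040004000400040004000400040004000 (41 + j)) 41 = true := by decide +kernel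

theorem C14_2_p2 : allN (fun j => chkV1 P V lk 0x100000001000b00010020002000004000400040004000400040004000400040004000 (82 + j)) 39 = true := by decide +kernel

theorem C14_3_p0 : allN (fun j => chkV1 P V lk 0x100000001000b00010025002500004000400040004000400040004000400040004000 (0 + j)) 41 = true := by decide +kernel

theorem C14_3_p1 : allN (fun j => chkV1 P V lk 0x100000001000b00010025002500004000400040004000400040004000400040004000 (41 + j)) 41 = true := by decide +kernel

theorem C14_3_p2 : allN (fun j => chkV1 P V lk 0x100000001000b00010025002500004000400040004000400040004000400040004000 (82 + j)) 39 = true := by decide +kernel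

theorem C14_1_p0 : allN (fun j => chkV1 P V lk 0x10000000100090001000c000c00004000400040004000400040004000400040004000 (0 + j)) 41 = true := by decide +kernel

theorem C14_1_p1 : allN (fun j => chkV1 P V lk 0x10000000100090001000c000c00004000400040004000400040004000400040004000 (41 + j)) 41 = true := by decide +kernel

theorem C14_1_p2 : allN (fun j => chkV1 P V lk 0x10000000100090001000c000c00004000400040004000400040004000400040004000 (82 + j)) 39 = true := by decide +kernel

end

theorem allC14 :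
    ((chkV P V lk) 0x10000000100090001000c000c00004000400040004000400040004000400040004000 = true) ∧
    ((chkV P V lk) 0x100000001000b00010020002000004000400040004000400040004000400040004000 = true) ∧
    ((chkV P V lk) 0x100000001000b00010025002500004000400040004000400040004000400040004000 = true) ∧
    (allTr (chkV P V lk) tr_3165_3166 = true) ∧
    ((chkV P V lk) 0x10000000100090001000d000d00004000400040004000400040004000400040004000 = true) ∧
    ((chkV P V lk) 0x1000a0000002c00190000400040013fff4000400140003fff400040004000 = true) ∧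
    (allTr (chkV P V lk) tr_2734_2735 = true) ∧
    ((chkV P V lk) 0x100000000000700020045004500024000400040013fff400040004000400140003fff = true) ∧
    (allTr (chkV P V lk) tr_2690_2691 = true) ∧
    ((chkV P V lk) 0x100090000001a000d000040003fff40004001400140003fff400040004000 = true) ∧
    (allTr (chkV P V lk) tr_2437_2448 = true) ∧
    (allTr (chkV P V lk) tr_2649_2655 = true) ∧
    ((chkV P V lk) 0x1000b00000011001e00004000400040013fff40003fff4001400040004000 = true) ∧
    (allTr (chkV P V lk) tr_2706_2707 = true) ∧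
    (allTr (chkV P V lk) tr_2912_2913 = true) ∧
    (allTr (chkV P V lk) tr_2834_2835 = true) ∧
    (allTr (chkV P V lk) tr_2274_2286 = true) ∧
    (allTr (chkV P V lk) tr_2868_2869 = true) ∧
    (allTr (chkV P V lk) tr_3028_3029 = true) ∧
    ((chkV P V lk) 0x100000000000800020012001200024000400040013fff400040004000400140003fff = true) ∧
    (allTr (chkV P V lk) tr_3024_3025 = true) ∧
    ((chkV P V lk) 0x10000000000070002002c002c00014000400040013fff400040004000400140003fff = true) ∧
    ((chkV P V lk) 0x1000900000015000a00004000400040013fff40003fff4001400040004000 = true) ∧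
    (allTr (chkV P V lk) tr_3087_3088 = true) ∧
    ((chkV P V lk) 0x100000000000800020015001500024000400040013fff400040004000400140003fff = true) ∧
    ((chkV P V lk) 0x1000900000013000900004000400040003fff400140014000400040003fff = true) ∧
    (allTr (chkV P V lk) tr_2093_2098 = true) ∧
    (allTr (chkV P V lk) tr_1450_1456 = true) ∧
    ((chkV P V lk) 0x10000000000080002001c001c00014000400040013fff400040004000400140003fff = true) ∧
    ((chkV P V lk) 0x100000000000600020019001900014000400040013fff400040004000400140003fff = true) ∧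
    (allTr (chkV P V lk) tr_150_199 = true) ∧
    (allTr (chkV P V lk) tr_2949_2950 = true) ∧
    (allTr (chkV P V lk) tr_1113_1115 = true) ∧
    ((chkV P V lk) 0x10000000000080002003f003f00024000400040013fff400040004000400140003fff = true) ∧
    ((chkV P V lk) 0x100000000000a0002003d003d00014000400040013fff400040004000400140003fff = true) ∧
    (allTr (chkV P V lk) tr_3031_3032 = true) ∧
    ((chkV P V lk) 0x100000000000400020018001800024000400040013fff400040004000400140003fff = true) ∧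
    ((chkV P V lk) 0x100000000000a0002001c001c00024000400040013fff400040004000400140003fff = true) ∧
    (allTr (chkV P V lk) tr_1525_1549 = true) ∧
    (allTr (chkV P V lk) tr_3076_3077 = true) ∧
    (allTr (chkV P V lk) tr_3021_3022 = true) ∧
    (allTr (chkV P V lk) tr_2424_2436 = true) ∧
    (allTr (chkV P V lk) tr_2524_2530 = true) ∧
    (allTr (chkV P V lk) tr_1494_1496 = true) ∧
    (allTr (chkV P V lk) tr_1497_1499 = true) ∧
    ((chkV P V lk) 0xa000100450036000140003fff40023fff400040004000400140013ffe = true) ∧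
    (allTr (chkV P V lk) tr_2068_2073 = true) ∧
    ((chkV P V lk) 0x70001003b002300024000400040003fff40003fff4000400240004000 = true) ∧
    ((chkV P V lk) 0xb00010015000a00024000400040023ffe40003fff4001400140003fff = true) ∧
    ((chkV P V lk) 0xa0001002b00310002400040004001400040004001400040013fff3ffe = true) ∧
    ((chkV P V lk) 0x800010021001900014000400140003fff400140003fff400140003fff = true) ∧
    ((chkV P V lk) 0x30001002e002600034000400040003ffe40004001400040023ffe4001 = true) ∧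
    ((chkV P V lk) 0x700020015000a000540003fff40023fff40003fff4001400240003ffe = true) ∧
    ((chkV P V lk) 0xa0001000400190006400040013fff4000400040013fff400240003ffe = true) ∧
    ((chkV P V lk) 0xb0002002e004300084000400040003ffd400140003fff400340013fff = true) ∧
    ((chkV P V lk) 0x100090017000740003fff40013fff40023fff3ffe400240004000 = true) :=
  ⟨chkV_of (by decide +kernel) (rng_cons C14_1_p0 rfl (rng_cons C14_1_p1 rfl (rng_cons C14_1_p2 rfl (rng_end (Nat.le_of_eq rfl))))),
  chkV_of (by decide +kernel) (rng_cons C14_2_p0 rfl (rng_cons C14_2_p1 rfl (rng_cons C14_2_p2 rfl (rng_end (Nat.le_of_eq rfl))))),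
  chkV_of (by decide +kernel) (rng_cons C14_3_p0 rfl (rng_cons C14_3_p1 rfl (rng_cons C14_3_p2 rfl (rng_end (Nat.le_of_eq rfl))))),
  by decide +kernel,
  by decide +kernel,
  by decide +kernel,
  by decide +kernel,
  by decide +kernel,
  by decide +kernel,
  by decide +kernel,
  by decide +kernel,
  by decide +kernel,
  by decide +kernel,
  by decide +kernel,
  by decide +kernel,
  by decide +kernel,
  by decide +kernel,
  by decide +kernel,
  by decide +kernel,
  by decide +kernel,
  by decide +kernel,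
  by decide +kernel,
  by decide +kernel,
  by decide +kernel,
  by decide +kernel,
  by decide +kernel,
  by decide +kernel,
  by decide +kernel,
  by decide +kernel,
  by decide +kernel,
  by decide +kernel,
  by decide +kernel,
  by decide +kernel,
  by decide +kernel,
  by decide +kernel,
  by decide +kernel,
  by decide +kernel,
  by decide +kernel,
  by decide +kernel,
  by decide +kernel,
  by decide +kernel,
  by decide +kernel,
  by decide +kernel,
  by decide +kernel,
  by decide +kernel,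
  by decide +kernel,
  by decide +kernel,
  by decide +kernel,
  by decide +kernel,
  by decide +kernel,
  by decide +kernel,
  by decide +kernel,
  by decide +kernel,
  by decide +kernel,
  by decide +kernel,
  by decide +kernel⟩

theorem ck_3154 : (chkV P V lk) 0x10000000100090001000c000c00004000400040004000400040004000400040004000 = true := allC14.1

theorem ck_3179 : (chkV P V lk) 0x100000001000b00010020002000004000400040004000400040004000400040004000 = true := allC14.2.1

theorem ck_3184 : (chkV P V lk) 0x100000001000b00010025002500004000400040004000400040004000400040004000 = true := allC14.2.2.1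

theorem c_3165_3166 : allTr (chkV P V lk) tr_3165_3166 = true := allC14.2.2.2.1

theorem ck_3155 : (chkV P V lk) 0x10000000100090001000d000d00004000400040004000400040004000400040004000 = true := allC14.2.2.2.2.1

theorem ck_2727 : (chkV P V lk) 0x1000a0000002c00190000400040013fff4000400140003fff400040004000 = true := allC14.2.2.2.2.2.1

theorem c_2734_2735 : allTr (chkV P V lk) tr_2734_2735 = true := allC14.2.2.2.2.2.2.1

theorem ck_2927 : (chkV P V lk) 0x100000000000700020045004500024000400040013fff400040004000400140003fff = true := allC14.2.2.2.2.2.2.2.1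

theorem c_2690_2691 : allTr (chkV P V lk) tr_2690_2691 = true := allC14.2.2.2.2.2.2.2.2.1

theorem ck_2702 : (chkV P V lk) 0x100090000001a000d000040003fff40004001400140003fff400040004000 = true := allC14.2.2.2.2.2.2.2.2.2.1

theorem c_2437_2448 : allTr (chkV P V lk) tr_2437_2448 = true := allC14.2.2.2.2.2.2.2.2.2.2.1

theorem c_2649_2655 : allTr (chkV P V lk) tr_2649_2655 = true := allC14.2.2.2.2.2.2.2.2.2.2.2.1

theorem ck_2732 : (chkV P V lk) 0x1000b00000011001e00004000400040013fff40003fff4001400040004000 = true := allC14.2.2.2.2.2.2.2.2.2.2.2.2.1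

theorem c_2706_2707 : allTr (chkV P V lk) tr_2706_2707 = true := allC14.2.2.2.2.2.2.2.2.2.2.2.2.2.1

theorem c_2912_2913 : allTr (chkV P V lk) tr_2912_2913 = true := allC14.2.2.2.2.2.2.2.2.2.2.2.2.2.2.1

theorem c_2834_2835 : allTr (chkV P V lk) tr_2834_2835 = true := allC14.2.2.2.2.2.2.2.2.2.2.2.2.2.2.2.1

theorem c_2274_2286 : allTr (chkV P V lk) tr_2274_2286 = true := allC14.2.2.2.2.2.2.2.2.2.2.2.2.2.2.2.2.1

theorem c_2868_2869 : allTr (chkV P V lk) tr_2868_2869 = true := allC14.2.2.2.2.2.2.2.2.2.2.2.2.2.2.2.2.2.1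

theorem c_3028_3029 : allTr (chkV P V lk) tr_3028_3029 = true := allC14.2.2.2.2.2.2.2.2.2.2.2.2.2.2.2.2.2.2.1

theorem ck_2941 : (chkV P V lk) 0x100000000000800020012001200024000400040013fff400040004000400140003fff = true := allC14.2.2.2.2.2.2.2.2.2.2.2.2.2.2.2.2.2.2.2.1

theorem c_3024_3025 : allTr (chkV P V lk) tr_3024_3025 = true := allC14.2.2.2.2.2.2.2.2.2.2.2.2.2.2.2.2.2.2.2.2.1

theorem ck_2916 : (chkV P V lk) 0x10000000000070002002c002c00014000400040013fff400040004000400140003fff = true := allC14.2.2.2.2.2.2.2.2.2.2.2.2.2.2.2.2.2.2.2.2.2.1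

theorem ck_2697 : (chkV P V lk) 0x1000900000015000a00004000400040013fff40003fff4001400040004000 = true := allC14.2.2.2.2.2.2.2.2.2.2.2.2.2.2.2.2.2.2.2.2.2.2.1

theorem c_3087_3088 : allTr (chkV P V lk) tr_3087_3088 = true := allC14.2.2.2.2.2.2.2.2.2.2.2.2.2.2.2.2.2.2.2.2.2.2.2.1

theorem ck_2947 : (chkV P V lk) 0x100000000000800020015001500024000400040013fff400040004000400140003fff = true := allC14.2.2.2.2.2.2.2.2.2.2.2.2.2.2.2.2.2.2.2.2.2.2.2.2.1

theorem ck_2694 : (chkV P V lk) 0x1000900000013000900004000400040003fff400140014000400040003fff = true := allC14.2.2.2.2.2.2.2.2.2.2.2.2.2.2.2.2.2.2.2.2.2.2.2.2.2.1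

theorem c_2093_2098 : allTr (chkV P V lk) tr_2093_2098 = true := allC14.2.2.2.2.2.2.2.2.2.2.2.2.2.2.2.2.2.2.2.2.2.2.2.2.2.2.1

theorem c_1450_1456 : allTr (chkV P V lk) tr_1450_1456 = true := allC14.2.2.2.2.2.2.2.2.2.2.2.2.2.2.2.2.2.2.2.2.2.2.2.2.2.2.2.1

theorem ck_2958 : (chkV P V lk) 0x10000000000080002001c001c00014000400040013fff400040004000400140003fff = true := allC14.2.2.2.2.2.2.2.2.2.2.2.2.2.2.2.2.2.2.2.2.2.2.2.2.2.2.2.2.1

theorem ck_2861 : (chkV P V lk) 0x100000000000600020019001900014000400040013fff400040004000400140003fff = true := allC14.2.2.2.2.2.2.2.2.2.2.2.2.2.2.2.2.2.2.2.2.2.2.2.2.2.2.2.2.2.1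

theorem c_150_199 : allTr (chkV P V lk) tr_150_199 = true := allC14.2.2.2.2.2.2.2.2.2.2.2.2.2.2.2.2.2.2.2.2.2.2.2.2.2.2.2.2.2.2.1

theorem c_2949_2950 : allTr (chkV P V lk) tr_2949_2950 = true := allC14.2.2.2.2.2.2.2.2.2.2.2.2.2.2.2.2.2.2.2.2.2.2.2.2.2.2.2.2.2.2.2.1

theorem c_1113_1115 : allTr (chkV P V lk) tr_1113_1115 = true := allC14.2.2.2.2.2.2.2.2.2.2.2.2.2.2.2.2.2.2.2.2.2.2.2.2.2.2.2.2.2.2.2.2.1

theorem ck_2980 : (chkV P V lk) 0x10000000000080002003f003f00024000400040013fff400040004000400140003fff = true := allC14.2.2.2.2.2.2.2.2.2.2.2.2.2.2.2.2.2.2.2.2.2.2.2.2.2.2.2.2.2.2.2.2.2.1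

theorem ck_3077 : (chkV P V lk) 0x100000000000a0002003d003d00014000400040013fff400040004000400140003fff = true := allC14.2.2.2.2.2.2.2.2.2.2.2.2.2.2.2.2.2.2.2.2.2.2.2.2.2.2.2.2.2.2.2.2.2.2.1

theorem c_3031_3032 : allTr (chkV P V lk) tr_3031_3032 = true := allC14.2.2.2.2.2.2.2.2.2.2.2.2.2.2.2.2.2.2.2.2.2.2.2.2.2.2.2.2.2.2.2.2.2.2.2.1

theorem ck_2820 : (chkV P V lk) 0x100000000000400020018001800024000400040013fff400040004000400140003fff = true := allC14.2.2.2.2.2.2.2.2.2.2.2.2.2.2.2.2.2.2.2.2.2.2.2.2.2.2.2.2.2.2.2.2.2.2.2.2.1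

theorem ck_3058 : (chkV P V lk) 0x100000000000a0002001c001c00024000400040013fff400040004000400140003fff = true := allC14.2.2.2.2.2.2.2.2.2.2.2.2.2.2.2.2.2.2.2.2.2.2.2.2.2.2.2.2.2.2.2.2.2.2.2.2.2.1

theorem c_1525_1549 : allTr (chkV P V lk) tr_1525_1549 = true := allC14.2.2.2.2.2.2.2.2.2.2.2.2.2.2.2.2.2.2.2.2.2.2.2.2.2.2.2.2.2.2.2.2.2.2.2.2.2.2.1

theorem c_3076_3077 : allTr (chkV P V lk) tr_3076_3077 = true := allC14.2.2.2.2.2.2.2.2.2.2.2.2.2.2.2.2.2.2.2.2.2.2.2.2.2.2.2.2.2.2.2.2.2.2.2.2.2.2.2.1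

theorem c_3021_3022 : allTr (chkV P V lk) tr_3021_3022 = true := allC14.2.2.2.2.2.2.2.2.2.2.2.2.2.2.2.2.2.2.2.2.2.2.2.2.2.2.2.2.2.2.2.2.2.2.2.2.2.2.2.2.1

theorem c_2424_2436 : allTr (chkV P V lk) tr_2424_2436 = true := allC14.2.2.2.2.2.2.2.2.2.2.2.2.2.2.2.2.2.2.2.2.2.2.2.2.2.2.2.2.2.2.2.2.2.2.2.2.2.2.2.2.2.1

theorem c_2524_2530 : allTr (chkV P V lk) tr_2524_2530 = true := allC14.2.2.2.2.2.2.2.2.2.2.2.2.2.2.2.2.2.2.2.2.2.2.2.2.2.2.2.2.2.2.2.2.2.2.2.2.2.2.2.2.2.2.1

theorem c_1494_1496 : allTr (chkV P V lk) tr_1494_1496 = true := allC14.2.2.2.2.2.2.2.2.2.2.2.2.2.2.2.2.2.2.2.2.2.2.2.2.2.2.2.2.2.2.2.2.2.2.2.2.2.2.2.2.2.2.2.1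

theorem c_1497_1499 : allTr (chkV P V lk) tr_1497_1499 = true := allC14.2.2.2.2.2.2.2.2.2.2.2.2.2.2.2.2.2.2.2.2.2.2.2.2.2.2.2.2.2.2.2.2.2.2.2.2.2.2.2.2.2.2.2.2.1

theorem ck_2355 : (chkV P V lk) 0xa000100450036000140003fff40023fff400040004000400140013ffe = true := allC14.2.2.2.2.2.2.2.2.2.2.2.2.2.2.2.2.2.2.2.2.2.2.2.2.2.2.2.2.2.2.2.2.2.2.2.2.2.2.2.2.2.2.2.2.2.1

theorem c_2068_2073 : allTr (chkV P V lk) tr_2068_2073 = true := allC14.2.2.2.2.2.2.2.2.2.2.2.2.2.2.2.2.2.2.2.2.2.2.2.2.2.2.2.2.2.2.2.2.2.2.2.2.2.2.2.2.2.2.2.2.2.2.1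

theorem ck_1673 : (chkV P V lk) 0x70001003b002300024000400040003fff40003fff4000400240004000 = true := allC14.2.2.2.2.2.2.2.2.2.2.2.2.2.2.2.2.2.2.2.2.2.2.2.2.2.2.2.2.2.2.2.2.2.2.2.2.2.2.2.2.2.2.2.2.2.2.2.1

theorem ck_2530 : (chkV P V lk) 0xb00010015000a00024000400040023ffe40003fff4001400140003fff = true := allC14.2.2.2.2.2.2.2.2.2.2.2.2.2.2.2.2.2.2.2.2.2.2.2.2.2.2.2.2.2.2.2.2.2.2.2.2.2.2.2.2.2.2.2.2.2.2.2.2.1

theorem ck_2317 : (chkV P V lk) 0xa0001002b00310002400040004001400040004001400040013fff3ffe = true := allC14.2.2.2.2.2.2.2.2.2.2.2.2.2.2.2.2.2.2.2.2.2.2.2.2.2.2.2.2.2.2.2.2.2.2.2.2.2.2.2.2.2.2.2.2.2.2.2.2.2.1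

theorem ck_1827 : (chkV P V lk) 0x800010021001900014000400140003fff400140003fff400140003fff = true := allC14.2.2.2.2.2.2.2.2.2.2.2.2.2.2.2.2.2.2.2.2.2.2.2.2.2.2.2.2.2.2.2.2.2.2.2.2.2.2.2.2.2.2.2.2.2.2.2.2.2.2.1

theorem ck_999 : (chkV P V lk) 0x30001002e002600034000400040003ffe40004001400040023ffe4001 = true := allC14.2.2.2.2.2.2.2.2.2.2.2.2.2.2.2.2.2.2.2.2.2.2.2.2.2.2.2.2.2.2.2.2.2.2.2.2.2.2.2.2.2.2.2.2.2.2.2.2.2.2.2.1

theorem ck_1698 : (chkV P V lk) 0x700020015000a000540003fff40023fff40003fff4001400240003ffe = true := allC14.2.2.2.2.2.2.2.2.2.2.2.2.2.2.2.2.2.2.2.2.2.2.2.2.2.2.2.2.2.2.2.2.2.2.2.2.2.2.2.2.2.2.2.2.2.2.2.2.2.2.2.2.1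

theorem ck_2255 : (chkV P V lk) 0xa0001000400190006400040013fff4000400040013fff400240003ffe = true := allC14.2.2.2.2.2.2.2.2.2.2.2.2.2.2.2.2.2.2.2.2.2.2.2.2.2.2.2.2.2.2.2.2.2.2.2.2.2.2.2.2.2.2.2.2.2.2.2.2.2.2.2.2.2.1

theorem ck_2642 : (chkV P V lk) 0xb0002002e004300084000400040003ffd400140003fff400340013fff = true := allC14.2.2.2.2.2.2.2.2.2.2.2.2.2.2.2.2.2.2.2.2.2.2.2.2.2.2.2.2.2.2.2.2.2.2.2.2.2.2.2.2.2.2.2.2.2.2.2.2.2.2.2.2.2.2.1

theorem ck_249 : (chkV P V lk) 0x100090017000740003fff40013fff40023fff3ffe400240004000 = true := allC14.2.2.2.2.2.2.2.2.2.2.2.2.2.2.2.2.2.2.2.2.2.2.2.2.2.2.2.2.2.2.2.2.2.2.2.2.2.2.2.2.2.2.2.2.2.2.2.2.2.2.2.2.2.2.2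

end MPbbea99G.E10
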