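import Pool.Agent.Lib.Pbbea99G.E10.Data
import Pool.Agent.Lib.Pbbea99G.Piece

/-!
# MP_bbea99_co: closure of the templates
-/

namespace MPbbea99G.E10

open MPbbea99S MPbbea99T MPbbea99G Finset

mutual

theorem C15_1_p0 : allN (fun j => chkV1 P V lk 0x100000001000b0001002a002a00004000400040004000400040004000400040004000 (0 + j)) 31 = true := by decide +kernel

theorem C15_1_p1 : allN (fun j => chkV1 P V lk 0x100000001000b0001002a002a00004000400040004000400040004000400040004000 (31 + j)) 31 = true := by decide +kernel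

theorem C15_1_p2 : allN (fun j => chkV1 P V lk 0x100000001000b0001002a002a00004000400040004000400040004000400040004000 (62 + j)) 31 = true := by decide +kernel

theorem C15_1_p3 : allN (fun j => chkV1 P V lk 0x100000001000b0001002a002a00004000400040004000400040004000400040004000 (93 + j)) 28 = true := by decide +kernel

theorem C15_4_p0 : allN (fun j => chkV1 P V lk 0x100000001000b00010023002300004000400040004000400040004000400040004000 (0 + j)) 41 = true := by decide +kernel

theorem C15_4_p1 : allN (fun j => chkV1 P V lk 0x100000001000b00010023002300004000400040004000400040004000400040004000 (41 + j)) 41 = true := by decide +kernel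

theorem C15_4_p2 : allN (fun j => chkV1 P V lk 0x100000001000b00010023002300004000400040004000400040004000400040004000 (82 + j)) 39 = true := by decide +kernel

end

theorem allC15 :
    (allTr (chkV P V lk) tr_3189_3190 = true) ∧
    (allTr (chkV P V lk) tr_3183_3184 = true) ∧
    (allTr (chkV P V lk) tr_3180_3181 = true) ∧
    ((chkV P V lk) 0x100000001000b00010023002300004000400040004000400040004000400040004000 = true) ∧
    (allTr (chkV P V lk) tr_3151_3152 = true) ∧
    ((chkV P V lk) 0x100000000000200020004000400014000400040013fff400040004000400140003fff = true) ∧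
    ((chkV P V lk) 0x1000b00000035001f00004000400140003fff4000400040003fff40004001 = true) ∧
    ((chkV P V lk) 0x1000a0000002200120000400040004000400140004001400040003fff3fff = true) ∧
    (allTr (chkV P V lk) tr_2703_2704 = true) ∧
    (allTr (chkV P V lk) tr_2928_2930 = true) ∧
    (allTr (chkV P V lk) tr_2356_2361 = true) ∧
    (allTr (chkV P V lk) tr_2856_2858 = true) ∧
    (allTr (chkV P V lk) tr_575_587 = true) ∧
    ((chkV P V lk) 0x100080000000b000500004000400140003fff40004000400040013fff4000 = true) ∧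
    ((chkV P V lk) 0x100000000000900020028002800014000400040013fff400040004000400140003fff = true) ∧
    (allTr (chkV P V lk) tr_3001_3002 = true) ∧
    (allTr (chkV P V lk) tr_1257_1262 = true) ∧
    (allTr (chkV P V lk) tr_2915_2916 = true) ∧
    (allTr (chkV P V lk) tr_2803_2804 = true) ∧
    (allTr (chkV P V lk) tr_3137_3138 = true) ∧
    ((chkV P V lk) 0x10000000000070002002e002e00024000400040013fff400040004000400140003fff = true) ∧
    ((chkV P V lk) 0x100000000000a0002003b003b00014000400040013fff400040004000400140003fff = true) ∧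
    ((chkV P V lk) 0x100000000000900020023002300014000400040013fff400040004000400140003fff = true) ∧
    (allTr (chkV P V lk) tr_2853_2854 = true) ∧
    (allTr (chkV P V lk) tr_2953_2954 = true) ∧
    (allTr (chkV P V lk) tr_2881_2882 = true) ∧
    ((chkV P V lk) 0x100000000000600020035003500024000400040013fff400040004000400140003fff = true) ∧
    (allTr (chkV P V lk) tr_2924_2925 = true) ∧
    (allTr (chkV P V lk) tr_3090_3091 = true) ∧
    ((chkV P V lk) 0x1000a0000002a0017000040003fff40014000400040004000400040013fff = true) ∧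
    (allTr (chkV P V lk) tr_600_649 = true) ∧
    ((chkV P V lk) 0x100000000000700020043004300024000400040013fff400040004000400140003fff = true) ∧
    (allTr (chkV P V lk) tr_3040_3041 = true) ∧
    ((chkV P V lk) 0x100000000000a0002003f003f00024000400040013fff400040004000400140003fff = true) ∧
    ((chkV P V lk) 0x100000000000900020025002500014000400040013fff400040004000400140003fff = true) ∧
    ((chkV P V lk) 0x10000000000090002001d001d00024000400040013fff400040004000400140003fff = true) ∧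
    (allTr (chkV P V lk) tr_2951_2952 = true) ∧
    (allTr (chkV P V lk) tr_2959_2960 = true) ∧
    ((chkV P V lk) 0x100000000000b00020007000700024000400040013fff400040004000400140003fff = true) ∧
    (allTr (chkV P V lk) tr_1488_1493 = true) ∧
    ((chkV P V lk) 0x100000000000500020021002100024000400040013fff400040004000400140003fff = true) ∧
    ((chkV P V lk) 0x10000000000060002003d003d00024000400040013fff400040004000400140003fff = true) ∧
    ((chkV P V lk) 0x700010014000b0001400040014001400040003fff400040013fff3fff = true) ∧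
    (allTr (chkV P V lk) tr_1974_1998 = true) ∧
    ((chkV P V lk) 0x700010038002100024000400040003fff40014000400140013fff3fff = true) ∧
    (allTr (chkV P V lk) tr_2474_2486 = true) ∧
    (allTr (chkV P V lk) tr_2624_2636 = true) ∧
    ((chkV P V lk) 0xb0001001a004300014000400040013ffe400040003fff400240013fff = true) ∧
    ((chkV P V lk) 0x70001003d002400014000400040013fff40013fff4000400040013fff = true) ∧
    (allTr (chkV P V lk) tr_2656_2661 = true) ∧
    (allTr (chkV P V lk) tr_360_362 = true) ∧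
    ((chkV P V lk) 0x20019001c004240003ffe40014000400040004002400040003fff = true) ∧
    ((chkV P V lk) 0x600020025003b000340003fff3fff3ffe400140014000400340003fff = true) ∧
    ((chkV P V lk) 0x80002000a00400004400040003fff3ffd400140004001400240013fff = true) ∧
    ((chkV P V lk) 0x90000002a002500014000400040013fff4000400140023fff40003ffe = true) ∧
    ((chkV P V lk) 0xb0002003300260013400040003fff4000400240013fff40023ffe3fff = true) ∧
    ((chkV P V lk) 0x10025001f003f4000400140014000400140003ffe3fff40004000 = true) :=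
  ⟨allTr_mk (chkV_of (by decide +kernel) (rng_cons C15_1_p0 rfl (rng_cons C15_1_p1 rfl (rng_cons C15_1_p2 rfl (rng_cons C15_1_p3 rfl (rng_end (Nat.le_of_eq rfl))))))) rfl rfl,
  by decide +kernel,
  by decide +kernel,
  chkV_of (by decide +kernel) (rng_cons C15_4_p0 rfl (rng_cons C15_4_p1 rfl (rng_cons C15_4_p2 rfl (rng_end (Nat.le_of_eq rfl))))),
  by decide +kernel,
  by decide +kernel,
  by decide +kernel,
  by decide +kernel,
  by decide +kernel,
  by decide +kernel,
  by decide +kernel,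
  by decide +kernel,
  by decide +kernel,
  by decide +kernel,
  by decide +kernel,
  by decide +kernel,
  by decide +kernel,
  by decide +kernel,
  by decide +kernel,
  by decide +kernel,
  by decide +kernel,
  by decide +kernel,
  by decide +kernel,
  by decide +kernel,
  by decide +kernel,
  by decide +kernel,
  by decide +kernel,
  by decide +kernel,
  by decide +kernel,
  by decide +kernel,
  by decide +kernel,
  by decide +kernel,
  by decide +kernel,
  by decide +kernel,
  by decide +kernel,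
  by decide +kernel,
  by decide +kernel,
  by decide +kernel,
  by decide +kernel,
  by decide +kernel,
  by decide +kernel,
  by decide +kernel,
  by decide +kernel,
  by decide +kernel,
  by decide +kernel,
  by decide +kernel,
  by decide +kernel,
  by decide +kernel,
  by decide +kernel,
  by decide +kernel,
  by decide +kernel,
  by decide +kernel,
  by decide +kernel,
  by decide +kernel,
  by decide +kernel,
  by decide +kernel,
  by decide +kernel⟩

theorem c_3189_3190 : allTr (chkV P V lk) tr_3189_3190 = true := allC15.1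

theorem c_3183_3184 : allTr (chkV P V lk) tr_3183_3184 = true := allC15.2.1

theorem c_3180_3181 : allTr (chkV P V lk) tr_3180_3181 = true := allC15.2.2.1

theorem ck_3182 : (chkV P V lk) 0x100000001000b00010023002300004000400040004000400040004000400040004000 = true := allC15.2.2.2.1

theorem c_3151_3152 : allTr (chkV P V lk) tr_3151_3152 = true := allC15.2.2.2.2.1

theorem ck_2798 : (chkV P V lk) 0x100000000000200020004000400014000400040013fff400040004000400140003fff = true := allC15.2.2.2.2.2.1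

theorem ck_2748 : (chkV P V lk) 0x1000b00000035001f00004000400140003fff4000400040003fff40004001 = true := allC15.2.2.2.2.2.2.1

theorem ck_2716 : (chkV P V lk) 0x1000a0000002200120000400040004000400140004001400040003fff3fff = true := allC15.2.2.2.2.2.2.2.1

theorem c_2703_2704 : allTr (chkV P V lk) tr_2703_2704 = true := allC15.2.2.2.2.2.2.2.2.1

theorem c_2928_2930 : allTr (chkV P V lk) tr_2928_2930 = true := allC15.2.2.2.2.2.2.2.2.2.1

theorem c_2356_2361 : allTr (chkV P V lk) tr_2356_2361 = true := allC15.2.2.2.2.2.2.2.2.2.2.1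

theorem c_2856_2858 : allTr (chkV P V lk) tr_2856_2858 = true := allC15.2.2.2.2.2.2.2.2.2.2.2.1

theorem c_575_587 : allTr (chkV P V lk) tr_575_587 = true := allC15.2.2.2.2.2.2.2.2.2.2.2.2.1

theorem ck_2685 : (chkV P V lk) 0x100080000000b000500004000400140003fff40004000400040013fff4000 = true := allC15.2.2.2.2.2.2.2.2.2.2.2.2.2.1

theorem ck_3013 : (chkV P V lk) 0x100000000000900020028002800014000400040013fff400040004000400140003fff = true := allC15.2.2.2.2.2.2.2.2.2.2.2.2.2.2.1

theorem c_3001_3002 : allTr (chkV P V lk) tr_3001_3002 = true := allC15.2.2.2.2.2.2.2.2.2.2.2.2.2.2.2.1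

theorem c_1257_1262 : allTr (chkV P V lk) tr_1257_1262 = true := allC15.2.2.2.2.2.2.2.2.2.2.2.2.2.2.2.2.1

theorem c_2915_2916 : allTr (chkV P V lk) tr_2915_2916 = true := allC15.2.2.2.2.2.2.2.2.2.2.2.2.2.2.2.2.2.1

theorem c_2803_2804 : allTr (chkV P V lk) tr_2803_2804 = true := allC15.2.2.2.2.2.2.2.2.2.2.2.2.2.2.2.2.2.2.1

theorem c_3137_3138 : allTr (chkV P V lk) tr_3137_3138 = true := allC15.2.2.2.2.2.2.2.2.2.2.2.2.2.2.2.2.2.2.2.1

theorem ck_2920 : (chkV P V lk) 0x10000000000070002002e002e00024000400040013fff400040004000400140003fff = true := allC15.2.2.2.2.2.2.2.2.2.2.2.2.2.2.2.2.2.2.2.2.1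

theorem ck_3073 : (chkV P V lk) 0x100000000000a0002003b003b00014000400040013fff400040004000400140003fff = true := allC15.2.2.2.2.2.2.2.2.2.2.2.2.2.2.2.2.2.2.2.2.2.1

theorem ck_3004 : (chkV P V lk) 0x100000000000900020023002300014000400040013fff400040004000400140003fff = true := allC15.2.2.2.2.2.2.2.2.2.2.2.2.2.2.2.2.2.2.2.2.2.2.1

theorem c_2853_2854 : allTr (chkV P V lk) tr_2853_2854 = true := allC15.2.2.2.2.2.2.2.2.2.2.2.2.2.2.2.2.2.2.2.2.2.2.2.1

theorem c_2953_2954 : allTr (chkV P V lk) tr_2953_2954 = true := allC15.2.2.2.2.2.2.2.2.2.2.2.2.2.2.2.2.2.2.2.2.2.2.2.2.1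

theorem c_2881_2882 : allTr (chkV P V lk) tr_2881_2882 = true := allC15.2.2.2.2.2.2.2.2.2.2.2.2.2.2.2.2.2.2.2.2.2.2.2.2.2.1

theorem ck_2869 : (chkV P V lk) 0x100000000000600020035003500024000400040013fff400040004000400140003fff = true := allC15.2.2.2.2.2.2.2.2.2.2.2.2.2.2.2.2.2.2.2.2.2.2.2.2.2.2.1

theorem c_2924_2925 : allTr (chkV P V lk) tr_2924_2925 = true := allC15.2.2.2.2.2.2.2.2.2.2.2.2.2.2.2.2.2.2.2.2.2.2.2.2.2.2.2.1

theorem c_3090_3091 : allTr (chkV P V lk) tr_3090_3091 = true := allC15.2.2.2.2.2.2.2.2.2.2.2.2.2.2.2.2.2.2.2.2.2.2.2.2.2.2.2.2.1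

theorem ck_2725 : (chkV P V lk) 0x1000a0000002a0017000040003fff40014000400040004000400040013fff = true := allC15.2.2.2.2.2.2.2.2.2.2.2.2.2.2.2.2.2.2.2.2.2.2.2.2.2.2.2.2.2.1

theorem c_600_649 : allTr (chkV P V lk) tr_600_649 = true := allC15.2.2.2.2.2.2.2.2.2.2.2.2.2.2.2.2.2.2.2.2.2.2.2.2.2.2.2.2.2.2.1

theorem ck_2923 : (chkV P V lk) 0x100000000000700020043004300024000400040013fff400040004000400140003fff = true := allC15.2.2.2.2.2.2.2.2.2.2.2.2.2.2.2.2.2.2.2.2.2.2.2.2.2.2.2.2.2.2.2.1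

theorem c_3040_3041 : allTr (chkV P V lk) tr_3040_3041 = true := allC15.2.2.2.2.2.2.2.2.2.2.2.2.2.2.2.2.2.2.2.2.2.2.2.2.2.2.2.2.2.2.2.2.1

theorem ck_3082 : (chkV P V lk) 0x100000000000a0002003f003f00024000400040013fff400040004000400140003fff = true := allC15.2.2.2.2.2.2.2.2.2.2.2.2.2.2.2.2.2.2.2.2.2.2.2.2.2.2.2.2.2.2.2.2.2.1

theorem ck_3008 : (chkV P V lk) 0x100000000000900020025002500014000400040013fff400040004000400140003fff = true := allC15.2.2.2.2.2.2.2.2.2.2.2.2.2.2.2.2.2.2.2.2.2.2.2.2.2.2.2.2.2.2.2.2.2.2.1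

theorem ck_2997 : (chkV P V lk) 0x10000000000090002001d001d00024000400040013fff400040004000400140003fff = true := allC15.2.2.2.2.2.2.2.2.2.2.2.2.2.2.2.2.2.2.2.2.2.2.2.2.2.2.2.2.2.2.2.2.2.2.2.1

theorem c_2951_2952 : allTr (chkV P V lk) tr_2951_2952 = true := allC15.2.2.2.2.2.2.2.2.2.2.2.2.2.2.2.2.2.2.2.2.2.2.2.2.2.2.2.2.2.2.2.2.2.2.2.2.1

theorem c_2959_2960 : allTr (chkV P V lk) tr_2959_2960 = true := allC15.2.2.2.2.2.2.2.2.2.2.2.2.2.2.2.2.2.2.2.2.2.2.2.2.2.2.2.2.2.2.2.2.2.2.2.2.2.1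

theorem ck_3088 : (chkV P V lk) 0x100000000000b00020007000700024000400040013fff400040004000400140003fff = true := allC15.2.2.2.2.2.2.2.2.2.2.2.2.2.2.2.2.2.2.2.2.2.2.2.2.2.2.2.2.2.2.2.2.2.2.2.2.2.2.1

theorem c_1488_1493 : allTr (chkV P V lk) tr_1488_1493 = true := allC15.2.2.2.2.2.2.2.2.2.2.2.2.2.2.2.2.2.2.2.2.2.2.2.2.2.2.2.2.2.2.2.2.2.2.2.2.2.2.2.1

theorem ck_2835 : (chkV P V lk) 0x100000000000500020021002100024000400040013fff400040004000400140003fff = true := allC15.2.2.2.2.2.2.2.2.2.2.2.2.2.2.2.2.2.2.2.2.2.2.2.2.2.2.2.2.2.2.2.2.2.2.2.2.2.2.2.2.1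

theorem ck_2883 : (chkV P V lk) 0x10000000000060002003d003d00024000400040013fff400040004000400140003fff = true := allC15.2.2.2.2.2.2.2.2.2.2.2.2.2.2.2.2.2.2.2.2.2.2.2.2.2.2.2.2.2.2.2.2.2.2.2.2.2.2.2.2.2.1

theorem ck_1623 : (chkV P V lk) 0x700010014000b0001400040014001400040003fff400040013fff3fff = true := allC15.2.2.2.2.2.2.2.2.2.2.2.2.2.2.2.2.2.2.2.2.2.2.2.2.2.2.2.2.2.2.2.2.2.2.2.2.2.2.2.2.2.2.1

theorem c_1974_1998 : allTr (chkV P V lk) tr_1974_1998 = true := allC15.2.2.2.2.2.2.2.2.2.2.2.2.2.2.2.2.2.2.2.2.2.2.2.2.2.2.2.2.2.2.2.2.2.2.2.2.2.2.2.2.2.2.2.1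

theorem ck_1667 : (chkV P V lk) 0x700010038002100024000400040003fff40014000400140013fff3fff = true := allC15.2.2.2.2.2.2.2.2.2.2.2.2.2.2.2.2.2.2.2.2.2.2.2.2.2.2.2.2.2.2.2.2.2.2.2.2.2.2.2.2.2.2.2.2.1

theorem c_2474_2486 : allTr (chkV P V lk) tr_2474_2486 = true := allC15.2.2.2.2.2.2.2.2.2.2.2.2.2.2.2.2.2.2.2.2.2.2.2.2.2.2.2.2.2.2.2.2.2.2.2.2.2.2.2.2.2.2.2.2.2.1

theorem c_2624_2636 : allTr (chkV P V lk) tr_2624_2636 = true := allC15.2.2.2.2.2.2.2.2.2.2.2.2.2.2.2.2.2.2.2.2.2.2.2.2.2.2.2.2.2.2.2.2.2.2.2.2.2.2.2.2.2.2.2.2.2.2.1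

theorem ck_2542 : (chkV P V lk) 0xb0001001a004300014000400040013ffe400040003fff400240013fff = true := allC15.2.2.2.2.2.2.2.2.2.2.2.2.2.2.2.2.2.2.2.2.2.2.2.2.2.2.2.2.2.2.2.2.2.2.2.2.2.2.2.2.2.2.2.2.2.2.2.1

theorem ck_1677 : (chkV P V lk) 0x70001003d002400014000400040013fff40013fff4000400040013fff = true := allC15.2.2.2.2.2.2.2.2.2.2.2.2.2.2.2.2.2.2.2.2.2.2.2.2.2.2.2.2.2.2.2.2.2.2.2.2.2.2.2.2.2.2.2.2.2.2.2.2.1

theorem c_2656_2661 : allTr (chkV P V lk) tr_2656_2661 = true := allC15.2.2.2.2.2.2.2.2.2.2.2.2.2.2.2.2.2.2.2.2.2.2.2.2.2.2.2.2.2.2.2.2.2.2.2.2.2.2.2.2.2.2.2.2.2.2.2.2.2.1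

theorem c_360_362 : allTr (chkV P V lk) tr_360_362 = true := allC15.2.2.2.2.2.2.2.2.2.2.2.2.2.2.2.2.2.2.2.2.2.2.2.2.2.2.2.2.2.2.2.2.2.2.2.2.2.2.2.2.2.2.2.2.2.2.2.2.2.2.1

theorem ck_599 : (chkV P V lk) 0x20019001c004240003ffe40014000400040004002400040003fff = true := allC15.2.2.2.2.2.2.2.2.2.2.2.2.2.2.2.2.2.2.2.2.2.2.2.2.2.2.2.2.2.2.2.2.2.2.2.2.2.2.2.2.2.2.2.2.2.2.2.2.2.2.2.1

theorem ck_1524 : (chkV P V lk) 0x600020025003b000340003fff3fff3ffe400140014000400340003fff = true := allC15.2.2.2.2.2.2.2.2.2.2.2.2.2.2.2.2.2.2.2.2.2.2.2.2.2.2.2.2.2.2.2.2.2.2.2.2.2.2.2.2.2.2.2.2.2.2.2.2.2.2.2.2.1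

theorem ck_1911 : (chkV P V lk) 0x80002000a00400004400040003fff3ffd400140004001400240013fff = true := allC15.2.2.2.2.2.2.2.2.2.2.2.2.2.2.2.2.2.2.2.2.2.2.2.2.2.2.2.2.2.2.2.2.2.2.2.2.2.2.2.2.2.2.2.2.2.2.2.2.2.2.2.2.2.1

theorem ck_1998 : (chkV P V lk) 0x90000002a002500014000400040013fff4000400140023fff40003ffe = true := allC15.2.2.2.2.2.2.2.2.2.2.2.2.2.2.2.2.2.2.2.2.2.2.2.2.2.2.2.2.2.2.2.2.2.2.2.2.2.2.2.2.2.2.2.2.2.2.2.2.2.2.2.2.2.2.1

theorem ck_2648 : (chkV P V lk) 0xb0002003300260013400040003fff4000400240013fff40023ffe3fff = true := allC15.2.2.2.2.2.2.2.2.2.2.2.2.2.2.2.2.2.2.2.2.2.2.2.2.2.2.2.2.2.2.2.2.2.2.2.2.2.2.2.2.2.2.2.2.2.2.2.2.2.2.2.2.2.2.2.1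

theorem ck_349 : (chkV P V lk) 0x10025001f003f4000400140014000400140003ffe3fff40004000 = true := allC15.2.2.2.2.2.2.2.2.2.2.2.2.2.2.2.2.2.2.2.2.2.2.2.2.2.2.2.2.2.2.2.2.2.2.2.2.2.2.2.2.2.2.2.2.2.2.2.2.2.2.2.2.2.2.2.2

end MPbbea99G.E10
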