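import Pool.Agent.Lib.Pbbea99G.E10.Data
import Pool.Agent.Lib.Pbbea99G.Piece

/-!
# MP_bbea99_co: the group
-/

namespace MPbbea99G.E10

open MPbbea99S MPbbea99T MPbbea99G Finset

mutual

theorem g_mul_p0 : ∀ j, j < 9 → ∀ b, b < T.γ → ∀ x, x < T.n →
    T.ac (0 + j) (T.ac b x) = T.ac (T.mul (0 + j) b) x := by decide +kernel

theorem g_mul_p1 : ∀ j, j < 9 → ∀ b, b < T.γ → ∀ x, x < T.n →
    T.ac (9 + j) (T.ac b x) = T.ac (T.mul (9 + j) b) x := by decide +kernel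

theorem g_mul_p2 : ∀ j, j < 9 → ∀ b, b < T.γ → ∀ x, x < T.n →
    T.ac (18 + j) (T.ac b x) = T.ac (T.mul (18 + j) b) x := by decide +kernel

theorem g_mul_p3 : ∀ j, j < 9 → ∀ b, b < T.γ → ∀ x, x < T.n →
    T.ac (27 + j) (T.ac b x) = T.ac (T.mul (27 + j) b) x := by decide +kernel

theorem g_mul_p4 : ∀ j, j < 9 → ∀ b, b < T.γ → ∀ x, x < T.n →
    T.ac (36 + j) (T.ac b x) = T.ac (T.mul (36 + j) b) x := by decide +kernel

theorem g_mul_p5 : ∀ j, j < 9 → ∀ b, b < T.γ → ∀ x, x < T.n →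
    T.ac (45 + j) (T.ac b x) = T.ac (T.mul (45 + j) b) x := by decide +kernel

theorem g_mul_p6 : ∀ j, j < 9 → ∀ b, b < T.γ → ∀ x, x < T.n →
    T.ac (54 + j) (T.ac b x) = T.ac (T.mul (54 + j) b) x := by decide +kernel

theorem g_mul_p7 : ∀ j, j < 9 → ∀ b, b < T.γ → ∀ x, x < T.n →
    T.ac (63 + j) (T.ac b x) = T.ac (T.mul (63 + j) b) x := by decide +kernel

end

theorem g_mul : ∀ a, a < T.γ → ∀ b, b < T.γ → ∀ x, x < T.n →
    T.ac a (T.ac b x) = T.ac (T.mul a b) x :=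
  fun a ha => rngP_cons (p := fun a => ∀ b, b < T.γ → ∀ x, x < T.n →
    T.ac a (T.ac b x) = T.ac (T.mul a b) x) g_mul_p0 rfl (rngP_cons g_mul_p1 rfl (rngP_cons g_mul_p2 rfl (rngP_cons g_mul_p3 rfl (rngP_cons g_mul_p4 rfl (rngP_cons g_mul_p5 rfl (rngP_cons g_mul_p6 rfl (rngP_cons g_mul_p7 rfl (rngP_end (Nat.le_of_eq rfl))))))))) a (Nat.zero_le _) ha

mutual

theorem g_inj_p0 : ∀ j, j < 9 → ∀ b, b < T.γ →
    (∀ x, x < T.n → T.ac (0 + j) x = T.ac b x) → (0 + j) = b := by decide +kernel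

theorem g_inj_p1 : ∀ j, j < 9 → ∀ b, b < T.γ →
    (∀ x, x < T.n → T.ac (9 + j) x = T.ac b x) → (9 + j) = b := by decide +kernel

theorem g_inj_p2 : ∀ j, j < 9 → ∀ b, b < T.γ →
    (∀ x, x < T.n → T.ac (18 + j) x = T.ac b x) → (18 + j) = b := by decide +kernel

theorem g_inj_p3 : ∀ j, j < 9 → ∀ b, b < T.γ →
    (∀ x, x < T.n → T.ac (27 + j) x = T.ac b x) → (27 + j) = b := by decide +kernel

theorem g_inj_p4 : ∀ j, j < 9 → ∀ b, b < T.γ →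
    (∀ x, x < T.n → T.ac (36 + j) x = T.ac b x) → (36 + j) = b := by decide +kernel

theorem g_inj_p5 : ∀ j, j < 9 → ∀ b, b < T.γ →
    (∀ x, x < T.n → T.ac (45 + j) x = T.ac b x) → (45 + j) = b := by decide +kernel

theorem g_inj_p6 : ∀ j, j < 9 → ∀ b, b < T.γ →
    (∀ x, x < T.n → T.ac (54 + j) x = T.ac b x) → (54 + j) = b := by decide +kernel

theorem g_inj_p7 : ∀ j, j < 9 → ∀ b, b < T.γ →
    (∀ x, x < T.n → T.ac (63 + j) x = T.ac b x) → (63 + j) = b := by decide +kernel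

end

theorem g_inj : ∀ a, a < T.γ → ∀ b, b < T.γ →
    (∀ x, x < T.n → T.ac a x = T.ac b x) → a = b :=
  fun a ha => rngP_cons (p := fun a => ∀ b, b < T.γ →
    (∀ x, x < T.n → T.ac a x = T.ac b x) → a = b) g_inj_p0 rfl (rngP_cons g_inj_p1 rfl (rngP_cons g_inj_p2 rfl (rngP_cons g_inj_p3 rfl (rngP_cons g_inj_p4 rfl (rngP_cons g_inj_p5 rfl (rngP_cons g_inj_p6 rfl (rngP_cons g_inj_p7 rfl (rngP_end (Nat.le_of_eq rfl))))))))) a (Nat.zero_le _) ha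

mutual

theorem g_one : ∀ x, x < T.n → T.ac 0 x = x := by decide +kernel

theorem g_ilt : ∀ a, a < T.γ → T.inv a < T.γ := by decide +kernel

theorem g_inv : ∀ a, a < T.γ → ∀ x, x < T.n → T.ac (T.inv a) (T.ac a x) = x := by decide +kernel

theorem g_inv' : ∀ a, a < T.γ → ∀ x, x < T.n → T.ac a (T.ac (T.inv a) x) = x := by
  decide +kernel

theorem g_mlt_p0 : ∀ j, j < 18 → ∀ b, b < T.γ → T.mul (0 + j) b < T.γ := by decide +kernel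

theorem g_mlt_p1 : ∀ j, j < 18 → ∀ b, b < T.γ → T.mul (18 + j) b < T.γ := by decide +kernel

theorem g_mlt_p2 : ∀ j, j < 18 → ∀ b, b < T.γ → T.mul (36 + j) b < T.γ := by decide +kernel

theorem g_mlt_p3 : ∀ j, j < 18 → ∀ b, b < T.γ → T.mul (54 + j) b < T.γ := by decide +kernel

end

theorem g_mlt : ∀ a, a < T.γ → ∀ b, b < T.γ → T.mul a b < T.γ :=
  fun a ha => rngP_cons (p := fun a => ∀ b, b < T.γ → T.mul a b < T.γ) g_mlt_p0 rfl (rngP_cons g_mlt_p1 rfl (rngP_cons g_mlt_p2 rfl (rngP_cons g_mlt_p3 rfl (rngP_end (Nat.le_of_eq rfl))))) a (Nat.zero_le _) ha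

theorem g_ac : ∀ κ, κ < T.γ → ∀ x, x < T.n → T.ac κ x < T.n := by decide +kernel

theorem gp : Gp T.γ T.mul T.inv :=
  gp_of_act (n := T.n) (ac := T.ac) (by decide +kernel) g_mlt g_ilt g_ac g_mul g_inj g_one g_inv
    g_inv'

mutual

theorem h_vf : ∀ r, r < T.M → vf P r = T.inv (T.w r) := by decide +kernel

theorem h_pf : ∀ r, r < T.M → ∀ k, k < T.n → pf P r k = T.ac (T.w r) k := by decide +kernel

theorem h_pv_p0 : ∀ j, j < 5 → ∀ k, k < T.n → ∀ κ, κ < T.γ →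
    T.vn (T.mul (T.inv (T.w (0 + j))) κ) k = T.vn κ (T.ac (T.w (0 + j)) k) := by decide +kernel

theorem h_pv_p1 : ∀ j, j < 5 → ∀ k, k < T.n → ∀ κ, κ < T.γ →
    T.vn (T.mul (T.inv (T.w (5 + j))) κ) k = T.vn κ (T.ac (T.w (5 + j)) k) := by decide +kernel

theorem h_pv_p2 : ∀ j, j < 5 → ∀ k, k < T.n → ∀ κ, κ < T.γ →
    T.vn (T.mul (T.inv (T.w (10 + j))) κ) k = T.vn κ (T.ac (T.w (10 + j)) k) := by decide +kernel

theorem h_pv_p3 : ∀ j, j < 5 → ∀ k, k < T.n → ∀ κ, κ < T.γ →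
    T.vn (T.mul (T.inv (T.w (15 + j))) κ) k = T.vn κ (T.ac (T.w (15 + j)) k) := by decide +kernel

theorem h_pv_p4 : ∀ j, j < 5 → ∀ k, k < T.n → ∀ κ, κ < T.γ →
    T.vn (T.mul (T.inv (T.w (20 + j))) κ) k = T.vn κ (T.ac (T.w (20 + j)) k) := by decide +kernel

theorem h_pv_p5 : ∀ j, j < 5 → ∀ k, k < T.n → ∀ κ, κ < T.γ →
    T.vn (T.mul (T.inv (T.w (25 + j))) κ) k = T.vn κ (T.ac (T.w (25 + j)) k) := by decide +kernel

theorem h_pv_p6 : ∀ j, j < 5 → ∀ k, k < T.n → ∀ κ, κ < T.γ →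
    T.vn (T.mul (T.inv (T.w (30 + j))) κ) k = T.vn κ (T.ac (T.w (30 + j)) k) := by decide +kernel

theorem h_pv_p7 : ∀ j, j < 5 → ∀ k, k < T.n → ∀ κ, κ < T.γ →
    T.vn (T.mul (T.inv (T.w (35 + j))) κ) k = T.vn κ (T.ac (T.w (35 + j)) k) := by decide +kernel

theorem h_pv_p8 : ∀ j, j < 5 → ∀ k, k < T.n → ∀ κ, κ < T.γ →
    T.vn (T.mul (T.inv (T.w (40 + j))) κ) k = T.vn κ (T.ac (T.w (40 + j)) k) := by decide +kernel

theorem h_pv_p9 : ∀ j, j < 5 → ∀ k, k < T.n → ∀ κ, κ < T.γ →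
    T.vn (T.mul (T.inv (T.w (45 + j))) κ) k = T.vn κ (T.ac (T.w (45 + j)) k) := by decide +kernel

theorem h_pv_p10 : ∀ j, j < 5 → ∀ k, k < T.n → ∀ κ, κ < T.γ →
    T.vn (T.mul (T.inv (T.w (50 + j))) κ) k = T.vn κ (T.ac (T.w (50 + j)) k) := by decide +kernel

theorem h_pv_p11 : ∀ j, j < 5 → ∀ k, k < T.n → ∀ κ, κ < T.γ →
    T.vn (T.mul (T.inv (T.w (55 + j))) κ) k = T.vn κ (T.ac (T.w (55 + j)) k) := by decide +kernel

theorem h_pv_p12 : ∀ j, j < 5 → ∀ k, k < T.n → ∀ κ, κ < T.γ →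
    T.vn (T.mul (T.inv (T.w (60 + j))) κ) k = T.vn κ (T.ac (T.w (60 + j)) k) := by decide +kernel

theorem h_pv_p13 : ∀ j, j < 5 → ∀ k, k < T.n → ∀ κ, κ < T.γ →
    T.vn (T.mul (T.inv (T.w (65 + j))) κ) k = T.vn κ (T.ac (T.w (65 + j)) k) := by decide +kernel

theorem h_pv_p14 : ∀ j, j < 5 → ∀ k, k < T.n → ∀ κ, κ < T.γ →
    T.vn (T.mul (T.inv (T.w (70 + j))) κ) k = T.vn κ (T.ac (T.w (70 + j)) k) := by decide +kernel

theorem h_pv_p15 : ∀ j, j < 5 → ∀ k, k < T.n → ∀ κ, κ < T.γ →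
    T.vn (T.mul (T.inv (T.w (75 + j))) κ) k = T.vn κ (T.ac (T.w (75 + j)) k) := by decide +kernel

theorem h_pv_p16 : ∀ j, j < 5 → ∀ k, k < T.n → ∀ κ, κ < T.γ →
    T.vn (T.mul (T.inv (T.w (80 + j))) κ) k = T.vn κ (T.ac (T.w (80 + j)) k) := by decide +kernel

theorem h_pv_p17 : ∀ j, j < 5 → ∀ k, k < T.n → ∀ κ, κ < T.γ →
    T.vn (T.mul (T.inv (T.w (85 + j))) κ) k = T.vn κ (T.ac (T.w (85 + j)) k) := by decide +kernel

theorem h_pv_p18 : ∀ j, j < 5 → ∀ k, k < T.n → ∀ κ, κ < T.γ →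
    T.vn (T.mul (T.inv (T.w (90 + j))) κ) k = T.vn κ (T.ac (T.w (90 + j)) k) := by decide +kernel

theorem h_pv_p19 : ∀ j, j < 5 → ∀ k, k < T.n → ∀ κ, κ < T.γ →
    T.vn (T.mul (T.inv (T.w (95 + j))) κ) k = T.vn κ (T.ac (T.w (95 + j)) k) := by decide +kernel

theorem h_pv_p20 : ∀ j, j < 5 → ∀ k, k < T.n → ∀ κ, κ < T.γ →
    T.vn (T.mul (T.inv (T.w (100 + j))) κ) k = T.vn κ (T.ac (T.w (100 + j)) k) := by decide +kernel

theorem h_pv_p21 : ∀ j, j < 5 → ∀ k, k < T.n → ∀ κ, κ < T.γ →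
    T.vn (T.mul (T.inv (T.w (105 + j))) κ) k = T.vn κ (T.ac (T.w (105 + j)) k) := by decide +kernel

theorem h_pv_p22 : ∀ j, j < 5 → ∀ k, k < T.n → ∀ κ, κ < T.γ →
    T.vn (T.mul (T.inv (T.w (110 + j))) κ) k = T.vn κ (T.ac (T.w (110 + j)) k) := by decide +kernel

theorem h_pv_p23 : ∀ j, j < 5 → ∀ k, k < T.n → ∀ κ, κ < T.γ →
    T.vn (T.mul (T.inv (T.w (115 + j))) κ) k = T.vn κ (T.ac (T.w (115 + j)) k) := by decide +kernel

theorem h_pv_p24 : ∀ j, j < 1 → ∀ k, k < T.n → ∀ κ, κ < T.γ →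
    T.vn (T.mul (T.inv (T.w (120 + j))) κ) k = T.vn κ (T.ac (T.w (120 + j)) k) := by decide +kernel

end

theorem h_pv : ∀ r, r < T.M → ∀ k, k < T.n → ∀ κ, κ < T.γ →
    T.vn (T.mul (T.inv (T.w r)) κ) k = T.vn κ (T.ac (T.w r) k) :=
  fun r hr => rngP_cons (p := fun r => ∀ k, k < T.n → ∀ κ, κ < T.γ →
    T.vn (T.mul (T.inv (T.w r)) κ) k = T.vn κ (T.ac (T.w r) k)) h_pv_p0 rfl (rngP_cons h_pv_p1 rfl (rngP_cons h_pv_p2 rfl (rngP_cons h_pv_p3 rfl (rngP_cons h_pv_p4 rfl (rngP_cons h_pv_p5 rfl (rngP_cons h_pv_p6 rfl (rngP_cons h_pv_p7 rfl (rngP_cons h_pv_p8 rfl (rngP_cons h_pv_p9 rfl (rngP_cons h_pv_p10 rfl (rngP_cons h_pv_p11 rfl (rngP_cons h_pv_p12 rfl (rngP_cons h_pv_p13 rfl (rngP_cons h_pv_p14 rfl (rngP_cons h_pv_p15 rfl (rngP_cons h_pv_p16 rfl (rngP_cons h_pv_p17 rfl (rngP_cons h_pv_p18 rfl (rngP_cons h_pv_p19 rfl (rngP_cons h_pv_p20 rfl (rngP_cons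 h_pv_p21 rfl (rngP_cons h_pv_p22 rfl (rngP_cons h_pv_p23 rfl (rngP_cons h_pv_p24 rfl (rngP_end (Nat.le_of_eq rfl)))))))))))))))))))))))))) r (Nat.zero_le _) hr

end MPbbea99G.E10
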