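import Pool.Agent.Lib.Pbbea99G.E10.Data

/-!
# MP_bbea99_co: bounds of the outer level
-/

namespace MPbbea99G.E10

open MPbbea99S MPbbea99T MPbbea99G Finset

theorem tu00 : ∀ j, j < 18 → ∀ β, β < 1 → chkU P Q 0 β (0 + j) = true := by decide +kernel

end MPbbea99G.E10
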