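import Pool.Agent.Lib.Pbbea99G.E10.Hyp
import Pool.Agent.Lib.Pbbea99G.E10.Out
import Pool.Agent.Lib.Pbbea99G.E10.C00
import Pool.Agent.Lib.Pbbea99G.E10.C01
import Pool.Agent.Lib.Pbbea99G.E10.C02
import Pool.Agent.Lib.Pbbea99G.E10.C03
import Pool.Agent.Lib.Pbbea99G.E10.C04
import Pool.Agent.Lib.Pbbea99G.E10.C05
import Pool.Agent.Lib.Pbbea99G.E10.C06
import Pool.Agent.Lib.Pbbea99G.E10.C07
import Pool.Agent.Lib.Pbbea99G.E10.C08
import Pool.Agent.Lib.Pbbea99G.E10.C09
import Pool.Agent.Lib.Pbbea99G.E10.C10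
import Pool.Agent.Lib.Pbbea99G.E10.C11
import Pool.Agent.Lib.Pbbea99G.E10.C12
import Pool.Agent.Lib.Pbbea99G.E10.C13
import Pool.Agent.Lib.Pbbea99G.E10.C14
import Pool.Agent.Lib.Pbbea99G.E10.C15
import Pool.Agent.Lib.Pbbea99G.E10.O00
import Pool.Agent.Lib.Pbbea99G.E10.O01
import Pool.Agent.Lib.Pbbea99G.E10.O02
import Pool.Agent.Lib.Pbbea99G.E10.O03
import Pool.Agent.Lib.Pbbea99G.E10.O04
import Pool.Agent.Lib.Pbbea99G.E10.O05
import Pool.Agent.Lib.Pbbea99G.E10.O06
import Pool.Agent.Lib.Pbbea99G.E10.O07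
import Pool.Agent.Lib.Pbbea99G.E10.O08
import Pool.Agent.Lib.Pbbea99G.E10.O09

/-!
# MP_bbea99_co: the word on 10 letters
-/

namespace MPbbea99G.E10

open MPbbea99S MPbbea99T MPbbea99G Finset

theorem c_2568_2570 : allTr (chkV P V lk) tr_2568_2570 = true := allTr_mk ck_2569 c_2568_2569 rfl

theorem c_2678_2680 : allTr (chkV P V lk) tr_2678_2680 = true := allTr_mk ck_2679 c_2678_2679 rfl

theorem c_2681_2683 : allTr (chkV P V lk) tr_2681_2683 = true := allTr_mk ck_2682 c_2681_2682 rfl

theorem c_2684_2686 : allTr (chkV P V lk) tr_2684_2686 = true := allTr_mk ck_2685 c_2684_2685 rfl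

theorem c_2687_2689 : allTr (chkV P V lk) tr_2687_2689 = true := allTr_mk ck_2688 c_2687_2688 rfl

theorem c_2690_2692 : allTr (chkV P V lk) tr_2690_2692 = true := allTr_mk ck_2691 c_2690_2691 rfl

theorem c_2693_2695 : allTr (chkV P V lk) tr_2693_2695 = true := allTr_mk ck_2694 c_2693_2694 rfl

theorem c_2696_2698 : allTr (chkV P V lk) tr_2696_2698 = true := allTr_mk ck_2697 c_2696_2697 rfl

theorem c_2703_2705 : allTr (chkV P V lk) tr_2703_2705 = true := allTr_mk ck_2704 c_2703_2704 rfl

theorem c_2706_2708 : allTr (chkV P V lk) tr_2706_2708 = true := allTr_mk ck_2707 c_2706_2707 rfl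

theorem c_2709_2711 : allTr (chkV P V lk) tr_2709_2711 = true := allTr_mk ck_2710 c_2709_2710 rfl

theorem c_2712_2714 : allTr (chkV P V lk) tr_2712_2714 = true := allTr_mk ck_2713 c_2712_2713 rfl

theorem c_2715_2717 : allTr (chkV P V lk) tr_2715_2717 = true := allTr_mk ck_2716 c_2715_2716 rfl

theorem c_2718_2720 : allTr (chkV P V lk) tr_2718_2720 = true := allTr_mk ck_2719 c_2718_2719 rfl

theorem c_2721_2723 : allTr (chkV P V lk) tr_2721_2723 = true := allTr_mk ck_2722 c_2721_2722 rfl

theorem c_2728_2730 : allTr (chkV P V lk) tr_2728_2730 = true := allTr_mk ck_2729 c_2728_2729 rfl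

theorem c_2731_2733 : allTr (chkV P V lk) tr_2731_2733 = true := allTr_mk ck_2732 c_2731_2732 rfl

theorem c_2734_2736 : allTr (chkV P V lk) tr_2734_2736 = true := allTr_mk ck_2735 c_2734_2735 rfl

theorem c_2737_2739 : allTr (chkV P V lk) tr_2737_2739 = true := allTr_mk ck_2738 c_2737_2738 rfl

theorem c_2740_2742 : allTr (chkV P V lk) tr_2740_2742 = true := allTr_mk ck_2741 c_2740_2741 rfl

theorem c_2743_2745 : allTr (chkV P V lk) tr_2743_2745 = true := allTr_mk ck_2744 c_2743_2744 rfl

theorem c_2746_2748 : allTr (chkV P V lk) tr_2746_2748 = true := allTr_mk ck_2747 c_2746_2747 rfl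

theorem c_2753_2755 : allTr (chkV P V lk) tr_2753_2755 = true := allTr_mk ck_2754 c_2753_2754 rfl

theorem c_2756_2758 : allTr (chkV P V lk) tr_2756_2758 = true := allTr_mk ck_2757 c_2756_2757 rfl

theorem c_2759_2761 : allTr (chkV P V lk) tr_2759_2761 = true := allTr_mk ck_2760 c_2759_2760 rfl

theorem c_2762_2764 : allTr (chkV P V lk) tr_2762_2764 = true := allTr_mk ck_2763 c_2762_2763 rfl

theorem c_2765_2767 : allTr (chkV P V lk) tr_2765_2767 = true := allTr_mk ck_2766 c_2765_2766 rfl

theorem c_2790_2792 : allTr (chkV P V lk) tr_2790_2792 = true := allTr_mk ck_2791 c_2790_2791 rfl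

theorem c_2793_2795 : allTr (chkV P V lk) tr_2793_2795 = true := allTr_mk ck_2794 c_2793_2794 rfl

theorem c_2796_2798 : allTr (chkV P V lk) tr_2796_2798 = true := allTr_mk ck_2797 c_2796_2797 rfl

theorem c_2803_2805 : allTr (chkV P V lk) tr_2803_2805 = true := allTr_mk ck_2804 c_2803_2804 rfl

theorem c_2806_2808 : allTr (chkV P V lk) tr_2806_2808 = true := allTr_mk ck_2807 c_2806_2807 rfl

theorem c_2809_2811 : allTr (chkV P V lk) tr_2809_2811 = true := allTr_mk ck_2810 c_2809_2810 rfl

theorem c_2812_2814 : allTr (chkV P V lk) tr_2812_2814 = true := allTr_mk ck_2813 c_2812_2813 rfl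

theorem c_2818_2820 : allTr (chkV P V lk) tr_2818_2820 = true := allTr_mk ck_2819 c_2818_2819 rfl

theorem c_2821_2823 : allTr (chkV P V lk) tr_2821_2823 = true := allTr_mk ck_2822 c_2821_2822 rfl

theorem c_2828_2830 : allTr (chkV P V lk) tr_2828_2830 = true := allTr_mk ck_2829 c_2828_2829 rfl

theorem c_2831_2833 : allTr (chkV P V lk) tr_2831_2833 = true := allTr_mk ck_2832 c_2831_2832 rfl

theorem c_2834_2836 : allTr (chkV P V lk) tr_2834_2836 = true := allTr_mk ck_2835 c_2834_2835 rfl

theorem c_2837_2839 : allTr (chkV P V lk) tr_2837_2839 = true := allTr_mk ck_2838 c_2837_2838 rfl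

theorem c_2843_2845 : allTr (chkV P V lk) tr_2843_2845 = true := allTr_mk ck_2844 c_2843_2844 rfl

theorem c_2846_2848 : allTr (chkV P V lk) tr_2846_2848 = true := allTr_mk ck_2847 c_2846_2847 rfl

theorem c_2853_2855 : allTr (chkV P V lk) tr_2853_2855 = true := allTr_mk ck_2854 c_2853_2854 rfl

theorem c_2859_2861 : allTr (chkV P V lk) tr_2859_2861 = true := allTr_mk ck_2860 c_2859_2860 rfl

theorem c_2862_2864 : allTr (chkV P V lk) tr_2862_2864 = true := allTr_mk ck_2863 c_2862_2863 rfl

theorem c_2865_2867 : allTr (chkV P V lk) tr_2865_2867 = true := allTr_mk ck_2866 c_2865_2866 rfl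

theorem c_2868_2870 : allTr (chkV P V lk) tr_2868_2870 = true := allTr_mk ck_2869 c_2868_2869 rfl

theorem c_2871_2873 : allTr (chkV P V lk) tr_2871_2873 = true := allTr_mk ck_2872 c_2871_2872 rfl

theorem c_2878_2880 : allTr (chkV P V lk) tr_2878_2880 = true := allTr_mk ck_2879 c_2878_2879 rfl

theorem c_2881_2883 : allTr (chkV P V lk) tr_2881_2883 = true := allTr_mk ck_2882 c_2881_2882 rfl

theorem c_2884_2886 : allTr (chkV P V lk) tr_2884_2886 = true := allTr_mk ck_2885 c_2884_2885 rfl

theorem c_2887_2889 : allTr (chkV P V lk) tr_2887_2889 = true := allTr_mk ck_2888 c_2887_2888 rfl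

theorem c_2890_2892 : allTr (chkV P V lk) tr_2890_2892 = true := allTr_mk ck_2891 c_2890_2891 rfl

theorem c_2893_2895 : allTr (chkV P V lk) tr_2893_2895 = true := allTr_mk ck_2894 c_2893_2894 rfl

theorem c_2896_2898 : allTr (chkV P V lk) tr_2896_2898 = true := allTr_mk ck_2897 c_2896_2897 rfl

theorem c_2903_2905 : allTr (chkV P V lk) tr_2903_2905 = true := allTr_mk ck_2904 c_2903_2904 rfl

theorem c_2906_2908 : allTr (chkV P V lk) tr_2906_2908 = true := allTr_mk ck_2907 c_2906_2907 rfl

theorem c_2912_2914 : allTr (chkV P V lk) tr_2912_2914 = true := allTr_mk ck_2913 c_2912_2913 rfl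

theorem c_2915_2917 : allTr (chkV P V lk) tr_2915_2917 = true := allTr_mk ck_2916 c_2915_2916 rfl

theorem c_2931_2933 : allTr (chkV P V lk) tr_2931_2933 = true := allTr_mk ck_2932 c_2931_2932 rfl

theorem c_2934_2936 : allTr (chkV P V lk) tr_2934_2936 = true := allTr_mk ck_2935 c_2934_2935 rfl

theorem c_2937_2939 : allTr (chkV P V lk) tr_2937_2939 = true := allTr_mk ck_2938 c_2937_2938 rfl

theorem c_2940_2942 : allTr (chkV P V lk) tr_2940_2942 = true := allTr_mk ck_2941 c_2940_2941 rfl

theorem c_2943_2945 : allTr (chkV P V lk) tr_2943_2945 = true := allTr_mk ck_2944 c_2943_2944 rfl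

theorem c_2946_2948 : allTr (chkV P V lk) tr_2946_2948 = true := allTr_mk ck_2947 c_2946_2947 rfl

theorem c_2953_2955 : allTr (chkV P V lk) tr_2953_2955 = true := allTr_mk ck_2954 c_2953_2954 rfl

theorem c_2959_2961 : allTr (chkV P V lk) tr_2959_2961 = true := allTr_mk ck_2960 c_2959_2960 rfl

theorem c_2962_2964 : allTr (chkV P V lk) tr_2962_2964 = true := allTr_mk ck_2963 c_2962_2963 rfl

theorem c_2965_2967 : allTr (chkV P V lk) tr_2965_2967 = true := allTr_mk ck_2966 c_2965_2966 rfl

theorem c_2968_2970 : allTr (chkV P V lk) tr_2968_2970 = true := allTr_mk ck_2969 c_2968_2969 rfl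

theorem c_2971_2973 : allTr (chkV P V lk) tr_2971_2973 = true := allTr_mk ck_2972 c_2971_2972 rfl

theorem c_2978_2980 : allTr (chkV P V lk) tr_2978_2980 = true := allTr_mk ck_2979 c_2978_2979 rfl

theorem c_2981_2983 : allTr (chkV P V lk) tr_2981_2983 = true := allTr_mk ck_2982 c_2981_2982 rfl

theorem c_2984_2986 : allTr (chkV P V lk) tr_2984_2986 = true := allTr_mk ck_2985 c_2984_2985 rfl

theorem c_2987_2989 : allTr (chkV P V lk) tr_2987_2989 = true := allTr_mk ck_2988 c_2987_2988 rfl

theorem c_2993_2995 : allTr (chkV P V lk) tr_2993_2995 = true := allTr_mk ck_2994 c_2993_2994 rfl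

theorem c_2996_2998 : allTr (chkV P V lk) tr_2996_2998 = true := allTr_mk ck_2997 c_2996_2997 rfl

theorem c_3003_3005 : allTr (chkV P V lk) tr_3003_3005 = true := allTr_mk ck_3004 c_3003_3004 rfl

theorem c_3006_3008 : allTr (chkV P V lk) tr_3006_3008 = true := allTr_mk ck_3007 c_3006_3007 rfl

theorem c_3012_3014 : allTr (chkV P V lk) tr_3012_3014 = true := allTr_mk ck_3013 c_3012_3013 rfl

theorem c_3015_3017 : allTr (chkV P V lk) tr_3015_3017 = true := allTr_mk ck_3016 c_3015_3016 rfl

theorem c_3018_3020 : allTr (chkV P V lk) tr_3018_3020 = true := allTr_mk ck_3019 c_3018_3019 rfl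

theorem c_3021_3023 : allTr (chkV P V lk) tr_3021_3023 = true := allTr_mk ck_3022 c_3021_3022 rfl

theorem c_3028_3030 : allTr (chkV P V lk) tr_3028_3030 = true := allTr_mk ck_3029 c_3028_3029 rfl

theorem c_3031_3033 : allTr (chkV P V lk) tr_3031_3033 = true := allTr_mk ck_3032 c_3031_3032 rfl

theorem c_3034_3036 : allTr (chkV P V lk) tr_3034_3036 = true := allTr_mk ck_3035 c_3034_3035 rfl

theorem c_3037_3039 : allTr (chkV P V lk) tr_3037_3039 = true := allTr_mk ck_3038 c_3037_3038 rfl

theorem c_3040_3042 : allTr (chkV P V lk) tr_3040_3042 = true := allTr_mk ck_3041 c_3040_3041 rfl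

theorem c_3043_3045 : allTr (chkV P V lk) tr_3043_3045 = true := allTr_mk ck_3044 c_3043_3044 rfl

theorem c_3046_3048 : allTr (chkV P V lk) tr_3046_3048 = true := allTr_mk ck_3047 c_3046_3047 rfl

theorem c_3053_3055 : allTr (chkV P V lk) tr_3053_3055 = true := allTr_mk ck_3054 c_3053_3054 rfl

theorem c_3056_3058 : allTr (chkV P V lk) tr_3056_3058 = true := allTr_mk ck_3057 c_3056_3057 rfl

theorem c_3059_3061 : allTr (chkV P V lk) tr_3059_3061 = true := allTr_mk ck_3060 c_3059_3060 rfl

theorem c_3062_3064 : allTr (chkV P V lk) tr_3062_3064 = true := allTr_mk ck_3063 c_3062_3063 rfl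

theorem c_3065_3067 : allTr (chkV P V lk) tr_3065_3067 = true := allTr_mk ck_3066 c_3065_3066 rfl

theorem c_3068_3070 : allTr (chkV P V lk) tr_3068_3070 = true := allTr_mk ck_3069 c_3068_3069 rfl

theorem c_3071_3073 : allTr (chkV P V lk) tr_3071_3073 = true := allTr_mk ck_3072 c_3071_3072 rfl

theorem c_3081_3083 : allTr (chkV P V lk) tr_3081_3083 = true := allTr_mk ck_3082 c_3081_3082 rfl

theorem c_3084_3086 : allTr (chkV P V lk) tr_3084_3086 = true := allTr_mk ck_3085 c_3084_3085 rfl

theorem c_3087_3089 : allTr (chkV P V lk) tr_3087_3089 = true := allTr_mk ck_3088 c_3087_3088 rfl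

theorem c_3090_3092 : allTr (chkV P V lk) tr_3090_3092 = true := allTr_mk ck_3091 c_3090_3091 rfl

theorem c_3093_3095 : allTr (chkV P V lk) tr_3093_3095 = true := allTr_mk ck_3094 c_3093_3094 rfl

theorem c_3096_3098 : allTr (chkV P V lk) tr_3096_3098 = true := allTr_mk ck_3097 c_3096_3097 rfl

theorem c_3103_3105 : allTr (chkV P V lk) tr_3103_3105 = true := allTr_mk ck_3104 c_3103_3104 rfl

theorem c_3106_3108 : allTr (chkV P V lk) tr_3106_3108 = true := allTr_mk ck_3107 c_3106_3107 rfl

theorem c_3109_3111 : allTr (chkV P V lk) tr_3109_3111 = true := allTr_mk ck_3110 c_3109_3110 rfl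

theorem c_3112_3114 : allTr (chkV P V lk) tr_3112_3114 = true := allTr_mk ck_3113 c_3112_3113 rfl

theorem c_3118_3120 : allTr (chkV P V lk) tr_3118_3120 = true := allTr_mk ck_3119 c_3118_3119 rfl

theorem c_3121_3123 : allTr (chkV P V lk) tr_3121_3123 = true := allTr_mk ck_3122 c_3121_3122 rfl

theorem c_3131_3133 : allTr (chkV P V lk) tr_3131_3133 = true := allTr_mk ck_3132 c_3131_3132 rfl

theorem c_3134_3136 : allTr (chkV P V lk) tr_3134_3136 = true := allTr_mk ck_3135 c_3134_3135 rfl

theorem c_3137_3139 : allTr (chkV P V lk) tr_3137_3139 = true := allTr_mk ck_3138 c_3137_3138 rfl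

theorem c_3143_3145 : allTr (chkV P V lk) tr_3143_3145 = true := allTr_mk ck_3144 c_3143_3144 rfl

theorem c_3146_3148 : allTr (chkV P V lk) tr_3146_3148 = true := allTr_mk ck_3147 c_3146_3147 rfl

theorem c_3153_3155 : allTr (chkV P V lk) tr_3153_3155 = true := allTr_mk ck_3154 c_3153_3154 rfl

theorem c_3156_3158 : allTr (chkV P V lk) tr_3156_3158 = true := allTr_mk ck_3157 c_3156_3157 rfl

theorem c_3159_3161 : allTr (chkV P V lk) tr_3159_3161 = true := allTr_mk ck_3160 c_3159_3160 rfl

theorem c_3162_3164 : allTr (chkV P V lk) tr_3162_3164 = true := allTr_mk ck_3163 c_3162_3163 rfl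

theorem c_3165_3167 : allTr (chkV P V lk) tr_3165_3167 = true := allTr_mk ck_3166 c_3165_3166 rfl

theorem c_3168_3170 : allTr (chkV P V lk) tr_3168_3170 = true := allTr_mk ck_3169 c_3168_3169 rfl

theorem c_3171_3173 : allTr (chkV P V lk) tr_3171_3173 = true := allTr_mk ck_3172 c_3171_3172 rfl

theorem c_3174_3176 : allTr (chkV P V lk) tr_3174_3176 = true := allTr_mk ck_3175 c_3174_3175 rfl

theorem c_3177_3179 : allTr (chkV P V lk) tr_3177_3179 = true := allTr_mk ck_3178 c_3177_3178 rfl

theorem c_3180_3182 : allTr (chkV P V lk) tr_3180_3182 = true := allTr_mk ck_3181 c_3180_3181 rfl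

theorem c_3183_3185 : allTr (chkV P V lk) tr_3183_3185 = true := allTr_mk ck_3184 c_3183_3184 rfl

theorem c_3186_3188 : allTr (chkV P V lk) tr_3186_3188 = true := allTr_mk ck_3187 c_3186_3187 rfl

theorem c_3189_3191 : allTr (chkV P V lk) tr_3189_3191 = true := allTr_mk ck_3190 c_3189_3190 rfl

theorem c_3192_3194 : allTr (chkV P V lk) tr_3192_3194 = true := allTr_mk ck_3193 c_3192_3193 rfl

theorem c_3195_3197 : allTr (chkV P V lk) tr_3195_3197 = true := allTr_mk ck_3196 c_3195_3196 rfl

theorem c_775_778 : allTr (chkV P V lk) tr_775_778 = true := allTr_mk ck_776 c_775_776 c_777_778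

theorem c_1899_1902 : allTr (chkV P V lk) tr_1899_1902 = true := allTr_mk ck_1900 c_1899_1900 c_1901_1902

theorem c_2699_2702 : allTr (chkV P V lk) tr_2699_2702 = true := allTr_mk ck_2700 c_2699_2700 c_2701_2702

theorem c_2724_2727 : allTr (chkV P V lk) tr_2724_2727 = true := allTr_mk ck_2725 c_2724_2725 c_2726_2727

theorem c_2749_2752 : allTr (chkV P V lk) tr_2749_2752 = true := allTr_mk ck_2750 c_2749_2750 c_2751_2752

theorem c_2799_2802 : allTr (chkV P V lk) tr_2799_2802 = true := allTr_mk ck_2800 c_2799_2800 c_2801_2802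

theorem c_2824_2827 : allTr (chkV P V lk) tr_2824_2827 = true := allTr_mk ck_2825 c_2824_2825 c_2826_2827

theorem c_2849_2852 : allTr (chkV P V lk) tr_2849_2852 = true := allTr_mk ck_2850 c_2849_2850 c_2851_2852

theorem c_2874_2877 : allTr (chkV P V lk) tr_2874_2877 = true := allTr_mk ck_2875 c_2874_2875 c_2876_2877

theorem c_2899_2902 : allTr (chkV P V lk) tr_2899_2902 = true := allTr_mk ck_2900 c_2899_2900 c_2901_2902

theorem c_2924_2927 : allTr (chkV P V lk) tr_2924_2927 = true := allTr_mk ck_2925 c_2924_2925 c_2926_2927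

theorem c_2949_2952 : allTr (chkV P V lk) tr_2949_2952 = true := allTr_mk ck_2950 c_2949_2950 c_2951_2952

theorem c_2974_2977 : allTr (chkV P V lk) tr_2974_2977 = true := allTr_mk ck_2975 c_2974_2975 c_2976_2977

theorem c_2999_3002 : allTr (chkV P V lk) tr_2999_3002 = true := allTr_mk ck_3000 c_2999_3000 c_3001_3002

theorem c_3024_3027 : allTr (chkV P V lk) tr_3024_3027 = true := allTr_mk ck_3025 c_3024_3025 c_3026_3027

theorem c_3049_3052 : allTr (chkV P V lk) tr_3049_3052 = true := allTr_mk ck_3050 c_3049_3050 c_3051_3052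

theorem c_3074_3077 : allTr (chkV P V lk) tr_3074_3077 = true := allTr_mk ck_3075 c_3074_3075 c_3076_3077

theorem c_3099_3102 : allTr (chkV P V lk) tr_3099_3102 = true := allTr_mk ck_3100 c_3099_3100 c_3101_3102

theorem c_3124_3127 : allTr (chkV P V lk) tr_3124_3127 = true := allTr_mk ck_3125 c_3124_3125 c_3126_3127

theorem c_3149_3152 : allTr (chkV P V lk) tr_3149_3152 = true := allTr_mk ck_3150 c_3149_3150 c_3151_3152

theorem c_357_362 : allTr (chkV P V lk) tr_357_362 = true := allTr_mk ck_359 c_357_359 c_360_362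

theorem c_1113_1118 : allTr (chkV P V lk) tr_1113_1118 = true := allTr_mk ck_1115 c_1113_1115 c_1116_1118

theorem c_1119_1124 : allTr (chkV P V lk) tr_1119_1124 = true := allTr_mk ck_1121 c_1119_1121 c_1122_1124

theorem c_1444_1449 : allTr (chkV P V lk) tr_1444_1449 = true := allTr_mk ck_1446 c_1444_1446 c_1447_1449

theorem c_1494_1499 : allTr (chkV P V lk) tr_1494_1499 = true := allTr_mk ck_1496 c_1494_1496 c_1497_1499

theorem c_1837_1842 : allTr (chkV P V lk) tr_1837_1842 = true := allTr_mk ck_1839 c_1837_1839 c_1840_1842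

theorem c_2062_2067 : allTr (chkV P V lk) tr_2062_2067 = true := allTr_mk ck_2064 c_2062_2064 c_2065_2067

theorem c_2318_2323 : allTr (chkV P V lk) tr_2318_2323 = true := allTr_mk ck_2320 c_2318_2320 c_2321_2323

theorem c_2568_2573 : allTr (chkV P V lk) tr_2568_2573 = true := allTr_mk ck_2570 c_2568_2570 c_2571_2573

theorem c_2581_2586 : allTr (chkV P V lk) tr_2581_2586 = true := allTr_mk ck_2583 c_2581_2583 c_2584_2586

theorem c_2587_2592 : allTr (chkV P V lk) tr_2587_2592 = true := allTr_mk ck_2589 c_2587_2589 c_2590_2592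

theorem c_2681_2686 : allTr (chkV P V lk) tr_2681_2686 = true := allTr_mk ck_2683 c_2681_2683 c_2684_2686

theorem c_2687_2692 : allTr (chkV P V lk) tr_2687_2692 = true := allTr_mk ck_2689 c_2687_2689 c_2690_2692

theorem c_2693_2698 : allTr (chkV P V lk) tr_2693_2698 = true := allTr_mk ck_2695 c_2693_2695 c_2696_2698

theorem c_2706_2711 : allTr (chkV P V lk) tr_2706_2711 = true := allTr_mk ck_2708 c_2706_2708 c_2709_2711

theorem c_2712_2717 : allTr (chkV P V lk) tr_2712_2717 = true := allTr_mk ck_2714 c_2712_2714 c_2715_2717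

theorem c_2718_2723 : allTr (chkV P V lk) tr_2718_2723 = true := allTr_mk ck_2720 c_2718_2720 c_2721_2723

theorem c_2731_2736 : allTr (chkV P V lk) tr_2731_2736 = true := allTr_mk ck_2733 c_2731_2733 c_2734_2736

theorem c_2737_2742 : allTr (chkV P V lk) tr_2737_2742 = true := allTr_mk ck_2739 c_2737_2739 c_2740_2742

theorem c_2743_2748 : allTr (chkV P V lk) tr_2743_2748 = true := allTr_mk ck_2745 c_2743_2745 c_2746_2748

theorem c_2756_2761 : allTr (chkV P V lk) tr_2756_2761 = true := allTr_mk ck_2758 c_2756_2758 c_2759_2761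

theorem c_2762_2767 : allTr (chkV P V lk) tr_2762_2767 = true := allTr_mk ck_2764 c_2762_2764 c_2765_2767

theorem c_2787_2792 : allTr (chkV P V lk) tr_2787_2792 = true := allTr_mk ck_2789 c_2787_2789 c_2790_2792

theorem c_2793_2798 : allTr (chkV P V lk) tr_2793_2798 = true := allTr_mk ck_2795 c_2793_2795 c_2796_2798

theorem c_2806_2811 : allTr (chkV P V lk) tr_2806_2811 = true := allTr_mk ck_2808 c_2806_2808 c_2809_2811

theorem c_2812_2817 : allTr (chkV P V lk) tr_2812_2817 = true := allTr_mk ck_2814 c_2812_2814 c_2815_2817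

theorem c_2818_2823 : allTr (chkV P V lk) tr_2818_2823 = true := allTr_mk ck_2820 c_2818_2820 c_2821_2823

theorem c_2831_2836 : allTr (chkV P V lk) tr_2831_2836 = true := allTr_mk ck_2833 c_2831_2833 c_2834_2836

theorem c_2837_2842 : allTr (chkV P V lk) tr_2837_2842 = true := allTr_mk ck_2839 c_2837_2839 c_2840_2842

theorem c_2843_2848 : allTr (chkV P V lk) tr_2843_2848 = true := allTr_mk ck_2845 c_2843_2845 c_2846_2848

theorem c_2856_2861 : allTr (chkV P V lk) tr_2856_2861 = true := allTr_mk ck_2858 c_2856_2858 c_2859_2861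

theorem c_2862_2867 : allTr (chkV P V lk) tr_2862_2867 = true := allTr_mk ck_2864 c_2862_2864 c_2865_2867

theorem c_2868_2873 : allTr (chkV P V lk) tr_2868_2873 = true := allTr_mk ck_2870 c_2868_2870 c_2871_2873

theorem c_2881_2886 : allTr (chkV P V lk) tr_2881_2886 = true := allTr_mk ck_2883 c_2881_2883 c_2884_2886

theorem c_2887_2892 : allTr (chkV P V lk) tr_2887_2892 = true := allTr_mk ck_2889 c_2887_2889 c_2890_2892

theorem c_2893_2898 : allTr (chkV P V lk) tr_2893_2898 = true := allTr_mk ck_2895 c_2893_2895 c_2896_2898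

theorem c_2906_2911 : allTr (chkV P V lk) tr_2906_2911 = true := allTr_mk ck_2908 c_2906_2908 c_2909_2911

theorem c_2912_2917 : allTr (chkV P V lk) tr_2912_2917 = true := allTr_mk ck_2914 c_2912_2914 c_2915_2917

theorem c_2918_2923 : allTr (chkV P V lk) tr_2918_2923 = true := allTr_mk ck_2920 c_2918_2920 c_2921_2923

theorem c_2931_2936 : allTr (chkV P V lk) tr_2931_2936 = true := allTr_mk ck_2933 c_2931_2933 c_2934_2936

theorem c_2937_2942 : allTr (chkV P V lk) tr_2937_2942 = true := allTr_mk ck_2939 c_2937_2939 c_2940_2942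

theorem c_2943_2948 : allTr (chkV P V lk) tr_2943_2948 = true := allTr_mk ck_2945 c_2943_2945 c_2946_2948

theorem c_2956_2961 : allTr (chkV P V lk) tr_2956_2961 = true := allTr_mk ck_2958 c_2956_2958 c_2959_2961

theorem c_2962_2967 : allTr (chkV P V lk) tr_2962_2967 = true := allTr_mk ck_2964 c_2962_2964 c_2965_2967

theorem c_2968_2973 : allTr (chkV P V lk) tr_2968_2973 = true := allTr_mk ck_2970 c_2968_2970 c_2971_2973

theorem c_2981_2986 : allTr (chkV P V lk) tr_2981_2986 = true := allTr_mk ck_2983 c_2981_2983 c_2984_2986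

theorem c_2987_2992 : allTr (chkV P V lk) tr_2987_2992 = true := allTr_mk ck_2989 c_2987_2989 c_2990_2992

theorem c_2993_2998 : allTr (chkV P V lk) tr_2993_2998 = true := allTr_mk ck_2995 c_2993_2995 c_2996_2998

theorem c_3006_3011 : allTr (chkV P V lk) tr_3006_3011 = true := allTr_mk ck_3008 c_3006_3008 c_3009_3011

theorem c_3012_3017 : allTr (chkV P V lk) tr_3012_3017 = true := allTr_mk ck_3014 c_3012_3014 c_3015_3017

theorem c_3018_3023 : allTr (chkV P V lk) tr_3018_3023 = true := allTr_mk ck_3020 c_3018_3020 c_3021_3023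

theorem c_3031_3036 : allTr (chkV P V lk) tr_3031_3036 = true := allTr_mk ck_3033 c_3031_3033 c_3034_3036

theorem c_3037_3042 : allTr (chkV P V lk) tr_3037_3042 = true := allTr_mk ck_3039 c_3037_3039 c_3040_3042

theorem c_3043_3048 : allTr (chkV P V lk) tr_3043_3048 = true := allTr_mk ck_3045 c_3043_3045 c_3046_3048

theorem c_3056_3061 : allTr (chkV P V lk) tr_3056_3061 = true := allTr_mk ck_3058 c_3056_3058 c_3059_3061

theorem c_3062_3067 : allTr (chkV P V lk) tr_3062_3067 = true := allTr_mk ck_3064 c_3062_3064 c_3065_3067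

theorem c_3068_3073 : allTr (chkV P V lk) tr_3068_3073 = true := allTr_mk ck_3070 c_3068_3070 c_3071_3073

theorem c_3081_3086 : allTr (chkV P V lk) tr_3081_3086 = true := allTr_mk ck_3083 c_3081_3083 c_3084_3086

theorem c_3087_3092 : allTr (chkV P V lk) tr_3087_3092 = true := allTr_mk ck_3089 c_3087_3089 c_3090_3092

theorem c_3093_3098 : allTr (chkV P V lk) tr_3093_3098 = true := allTr_mk ck_3095 c_3093_3095 c_3096_3098

theorem c_3106_3111 : allTr (chkV P V lk) tr_3106_3111 = true := allTr_mk ck_3108 c_3106_3108 c_3109_3111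

theorem c_3112_3117 : allTr (chkV P V lk) tr_3112_3117 = true := allTr_mk ck_3114 c_3112_3114 c_3115_3117

theorem c_3118_3123 : allTr (chkV P V lk) tr_3118_3123 = true := allTr_mk ck_3120 c_3118_3120 c_3121_3123

theorem c_3131_3136 : allTr (chkV P V lk) tr_3131_3136 = true := allTr_mk ck_3133 c_3131_3133 c_3134_3136

theorem c_3137_3142 : allTr (chkV P V lk) tr_3137_3142 = true := allTr_mk ck_3139 c_3137_3139 c_3140_3142

theorem c_3143_3148 : allTr (chkV P V lk) tr_3143_3148 = true := allTr_mk ck_3145 c_3143_3145 c_3146_3148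

theorem c_3156_3161 : allTr (chkV P V lk) tr_3156_3161 = true := allTr_mk ck_3158 c_3156_3158 c_3159_3161

theorem c_3162_3167 : allTr (chkV P V lk) tr_3162_3167 = true := allTr_mk ck_3164 c_3162_3164 c_3165_3167

theorem c_3168_3173 : allTr (chkV P V lk) tr_3168_3173 = true := allTr_mk ck_3170 c_3168_3170 c_3171_3173

theorem c_3174_3179 : allTr (chkV P V lk) tr_3174_3179 = true := allTr_mk ck_3176 c_3174_3176 c_3177_3179

theorem c_3180_3185 : allTr (chkV P V lk) tr_3180_3185 = true := allTr_mk ck_3182 c_3180_3182 c_3183_3185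

theorem c_3186_3191 : allTr (chkV P V lk) tr_3186_3191 = true := allTr_mk ck_3188 c_3186_3188 c_3189_3191

theorem c_3192_3197 : allTr (chkV P V lk) tr_3192_3197 = true := allTr_mk ck_3194 c_3192_3194 c_3195_3197

theorem c_775_781 : allTr (chkV P V lk) tr_775_781 = true := allTr_mk ck_778 c_775_778 c_779_781

theorem c_1125_1131 : allTr (chkV P V lk) tr_1125_1131 = true := allTr_mk ck_1128 c_1125_1128 c_1129_1131

theorem c_1674_1680 : allTr (chkV P V lk) tr_1674_1680 = true := allTr_mk ck_1677 c_1674_1677 c_1678_1680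

theorem c_1824_1830 : allTr (chkV P V lk) tr_1824_1830 = true := allTr_mk ck_1827 c_1824_1827 c_1828_1830

theorem c_1899_1905 : allTr (chkV P V lk) tr_1899_1905 = true := allTr_mk ck_1902 c_1899_1902 c_1903_1905

theorem c_2099_2105 : allTr (chkV P V lk) tr_2099_2105 = true := allTr_mk ck_2102 c_2099_2102 c_2103_2105

theorem c_2299_2305 : allTr (chkV P V lk) tr_2299_2305 = true := allTr_mk ck_2302 c_2299_2302 c_2303_2305

theorem c_2674_2680 : allTr (chkV P V lk) tr_2674_2680 = true := allTr_mk ck_2677 c_2674_2677 c_2678_2680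

theorem c_2699_2705 : allTr (chkV P V lk) tr_2699_2705 = true := allTr_mk ck_2702 c_2699_2702 c_2703_2705

theorem c_2724_2730 : allTr (chkV P V lk) tr_2724_2730 = true := allTr_mk ck_2727 c_2724_2727 c_2728_2730

theorem c_2749_2755 : allTr (chkV P V lk) tr_2749_2755 = true := allTr_mk ck_2752 c_2749_2752 c_2753_2755

theorem c_2799_2805 : allTr (chkV P V lk) tr_2799_2805 = true := allTr_mk ck_2802 c_2799_2802 c_2803_2805

theorem c_2824_2830 : allTr (chkV P V lk) tr_2824_2830 = true := allTr_mk ck_2827 c_2824_2827 c_2828_2830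

theorem c_2849_2855 : allTr (chkV P V lk) tr_2849_2855 = true := allTr_mk ck_2852 c_2849_2852 c_2853_2855

theorem c_2874_2880 : allTr (chkV P V lk) tr_2874_2880 = true := allTr_mk ck_2877 c_2874_2877 c_2878_2880

theorem c_2899_2905 : allTr (chkV P V lk) tr_2899_2905 = true := allTr_mk ck_2902 c_2899_2902 c_2903_2905

theorem c_2924_2930 : allTr (chkV P V lk) tr_2924_2930 = true := allTr_mk ck_2927 c_2924_2927 c_2928_2930

theorem c_2949_2955 : allTr (chkV P V lk) tr_2949_2955 = true := allTr_mk ck_2952 c_2949_2952 c_2953_2955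

theorem c_2974_2980 : allTr (chkV P V lk) tr_2974_2980 = true := allTr_mk ck_2977 c_2974_2977 c_2978_2980

theorem c_2999_3005 : allTr (chkV P V lk) tr_2999_3005 = true := allTr_mk ck_3002 c_2999_3002 c_3003_3005

theorem c_3024_3030 : allTr (chkV P V lk) tr_3024_3030 = true := allTr_mk ck_3027 c_3024_3027 c_3028_3030

theorem c_3049_3055 : allTr (chkV P V lk) tr_3049_3055 = true := allTr_mk ck_3052 c_3049_3052 c_3053_3055

theorem c_3074_3080 : allTr (chkV P V lk) tr_3074_3080 = true := allTr_mk ck_3077 c_3074_3077 c_3078_3080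

theorem c_3099_3105 : allTr (chkV P V lk) tr_3099_3105 = true := allTr_mk ck_3102 c_3099_3102 c_3103_3105

theorem c_3124_3130 : allTr (chkV P V lk) tr_3124_3130 = true := allTr_mk ck_3127 c_3124_3127 c_3128_3130

theorem c_3149_3155 : allTr (chkV P V lk) tr_3149_3155 = true := allTr_mk ck_3152 c_3149_3152 c_3153_3155

theorem c_988_999 : allTr (chkV P V lk) tr_988_999 = true := allTr_mk ck_993 c_988_993 c_994_999

theorem c_1113_1124 : allTr (chkV P V lk) tr_1113_1124 = true := allTr_mk ck_1118 c_1113_1118 c_1119_1124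

theorem c_1263_1274 : allTr (chkV P V lk) tr_1263_1274 = true := allTr_mk ck_1268 c_1263_1268 c_1269_1274

theorem c_1288_1299 : allTr (chkV P V lk) tr_1288_1299 = true := allTr_mk ck_1293 c_1288_1293 c_1294_1299

theorem c_1438_1449 : allTr (chkV P V lk) tr_1438_1449 = true := allTr_mk ck_1443 c_1438_1443 c_1444_1449

theorem c_1488_1499 : allTr (chkV P V lk) tr_1488_1499 = true := allTr_mk ck_1493 c_1488_1493 c_1494_1499

theorem c_1612_1623 : allTr (chkV P V lk) tr_1612_1623 = true := allTr_mk ck_1617 c_1612_1617 c_1618_1623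

theorem c_1662_1673 : allTr (chkV P V lk) tr_1662_1673 = true := allTr_mk ck_1667 c_1662_1667 c_1668_1673

theorem c_1812_1823 : allTr (chkV P V lk) tr_1812_1823 = true := allTr_mk ck_1817 c_1812_1817 c_1818_1823

theorem c_1837_1848 : allTr (chkV P V lk) tr_1837_1848 = true := allTr_mk ck_1842 c_1837_1842 c_1843_1848

theorem c_2062_2073 : allTr (chkV P V lk) tr_2062_2073 = true := allTr_mk ck_2067 c_2062_2067 c_2068_2073

theorem c_2087_2098 : allTr (chkV P V lk) tr_2087_2098 = true := allTr_mk ck_2092 c_2087_2092 c_2093_2098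

theorem c_2112_2123 : allTr (chkV P V lk) tr_2112_2123 = true := allTr_mk ck_2117 c_2112_2117 c_2118_2123

theorem c_2287_2298 : allTr (chkV P V lk) tr_2287_2298 = true := allTr_mk ck_2292 c_2287_2292 c_2293_2298

theorem c_2312_2323 : allTr (chkV P V lk) tr_2312_2323 = true := allTr_mk ck_2317 c_2312_2317 c_2318_2323

theorem c_2512_2523 : allTr (chkV P V lk) tr_2512_2523 = true := allTr_mk ck_2517 c_2512_2517 c_2518_2523

theorem c_2537_2548 : allTr (chkV P V lk) tr_2537_2548 = true := allTr_mk ck_2542 c_2537_2542 c_2543_2548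

theorem c_2562_2573 : allTr (chkV P V lk) tr_2562_2573 = true := allTr_mk ck_2567 c_2562_2567 c_2568_2573

theorem c_2587_2598 : allTr (chkV P V lk) tr_2587_2598 = true := allTr_mk ck_2592 c_2587_2592 c_2593_2598

theorem c_2637_2648 : allTr (chkV P V lk) tr_2637_2648 = true := allTr_mk ck_2642 c_2637_2642 c_2643_2648

theorem c_2687_2698 : allTr (chkV P V lk) tr_2687_2698 = true := allTr_mk ck_2692 c_2687_2692 c_2693_2698

theorem c_2712_2723 : allTr (chkV P V lk) tr_2712_2723 = true := allTr_mk ck_2717 c_2712_2717 c_2718_2723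

theorem c_2737_2748 : allTr (chkV P V lk) tr_2737_2748 = true := allTr_mk ck_2742 c_2737_2742 c_2743_2748

theorem c_2762_2773 : allTr (chkV P V lk) tr_2762_2773 = true := allTr_mk ck_2767 c_2762_2767 c_2768_2773

theorem c_2787_2798 : allTr (chkV P V lk) tr_2787_2798 = true := allTr_mk ck_2792 c_2787_2792 c_2793_2798

theorem c_2812_2823 : allTr (chkV P V lk) tr_2812_2823 = true := allTr_mk ck_2817 c_2812_2817 c_2818_2823

theorem c_2837_2848 : allTr (chkV P V lk) tr_2837_2848 = true := allTr_mk ck_2842 c_2837_2842 c_2843_2848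

theorem c_2862_2873 : allTr (chkV P V lk) tr_2862_2873 = true := allTr_mk ck_2867 c_2862_2867 c_2868_2873

theorem c_2887_2898 : allTr (chkV P V lk) tr_2887_2898 = true := allTr_mk ck_2892 c_2887_2892 c_2893_2898

theorem c_2912_2923 : allTr (chkV P V lk) tr_2912_2923 = true := allTr_mk ck_2917 c_2912_2917 c_2918_2923

theorem c_2937_2948 : allTr (chkV P V lk) tr_2937_2948 = true := allTr_mk ck_2942 c_2937_2942 c_2943_2948

theorem c_2962_2973 : allTr (chkV P V lk) tr_2962_2973 = true := allTr_mk ck_2967 c_2962_2967 c_2968_2973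

theorem c_2987_2998 : allTr (chkV P V lk) tr_2987_2998 = true := allTr_mk ck_2992 c_2987_2992 c_2993_2998

theorem c_3012_3023 : allTr (chkV P V lk) tr_3012_3023 = true := allTr_mk ck_3017 c_3012_3017 c_3018_3023

theorem c_3037_3048 : allTr (chkV P V lk) tr_3037_3048 = true := allTr_mk ck_3042 c_3037_3042 c_3043_3048

theorem c_3062_3073 : allTr (chkV P V lk) tr_3062_3073 = true := allTr_mk ck_3067 c_3062_3067 c_3068_3073

theorem c_3087_3098 : allTr (chkV P V lk) tr_3087_3098 = true := allTr_mk ck_3092 c_3087_3092 c_3093_3098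

theorem c_3112_3123 : allTr (chkV P V lk) tr_3112_3123 = true := allTr_mk ck_3117 c_3112_3117 c_3118_3123

theorem c_3137_3148 : allTr (chkV P V lk) tr_3137_3148 = true := allTr_mk ck_3142 c_3137_3142 c_3143_3148

theorem c_3162_3173 : allTr (chkV P V lk) tr_3162_3173 = true := allTr_mk ck_3167 c_3162_3167 c_3168_3173

theorem c_3174_3185 : allTr (chkV P V lk) tr_3174_3185 = true := allTr_mk ck_3179 c_3174_3179 c_3180_3185

theorem c_3186_3197 : allTr (chkV P V lk) tr_3186_3197 = true := allTr_mk ck_3191 c_3186_3191 c_3192_3197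

theorem c_350_362 : allTr (chkV P V lk) tr_350_362 = true := allTr_mk ck_356 c_350_356 c_357_362

theorem c_775_787 : allTr (chkV P V lk) tr_775_787 = true := allTr_mk ck_781 c_775_781 c_782_787

theorem c_975_987 : allTr (chkV P V lk) tr_975_987 = true := allTr_mk ck_981 c_975_981 c_982_987

theorem c_1100_1112 : allTr (chkV P V lk) tr_1100_1112 = true := allTr_mk ck_1106 c_1100_1106 c_1107_1112

theorem c_1125_1137 : allTr (chkV P V lk) tr_1125_1137 = true := allTr_mk ck_1131 c_1125_1131 c_1132_1137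

theorem c_1250_1262 : allTr (chkV P V lk) tr_1250_1262 = true := allTr_mk ck_1256 c_1250_1256 c_1257_1262

theorem c_1275_1287 : allTr (chkV P V lk) tr_1275_1287 = true := allTr_mk ck_1281 c_1275_1281 c_1282_1287

theorem c_1425_1437 : allTr (chkV P V lk) tr_1425_1437 = true := allTr_mk ck_1431 c_1425_1431 c_1432_1437

theorem c_1450_1462 : allTr (chkV P V lk) tr_1450_1462 = true := allTr_mk ck_1456 c_1450_1456 c_1457_1462

theorem c_1624_1636 : allTr (chkV P V lk) tr_1624_1636 = true := allTr_mk ck_1630 c_1624_1630 c_1631_1636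

theorem c_1649_1661 : allTr (chkV P V lk) tr_1649_1661 = true := allTr_mk ck_1655 c_1649_1655 c_1656_1661

theorem c_1674_1686 : allTr (chkV P V lk) tr_1674_1686 = true := allTr_mk ck_1680 c_1674_1680 c_1681_1686

theorem c_1824_1836 : allTr (chkV P V lk) tr_1824_1836 = true := allTr_mk ck_1830 c_1824_1830 c_1831_1836

theorem c_1849_1861 : allTr (chkV P V lk) tr_1849_1861 = true := allTr_mk ck_1855 c_1849_1855 c_1856_1861

theorem c_1899_1911 : allTr (chkV P V lk) tr_1899_1911 = true := allTr_mk ck_1905 c_1899_1905 c_1906_1911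

theorem c_2049_2061 : allTr (chkV P V lk) tr_2049_2061 = true := allTr_mk ck_2055 c_2049_2055 c_2056_2061

theorem c_2099_2111 : allTr (chkV P V lk) tr_2099_2111 = true := allTr_mk ck_2105 c_2099_2105 c_2106_2111

theorem c_2249_2261 : allTr (chkV P V lk) tr_2249_2261 = true := allTr_mk ck_2255 c_2249_2255 c_2256_2261

theorem c_2299_2311 : allTr (chkV P V lk) tr_2299_2311 = true := allTr_mk ck_2305 c_2299_2305 c_2306_2311

theorem c_2324_2336 : allTr (chkV P V lk) tr_2324_2336 = true := allTr_mk ck_2330 c_2324_2330 c_2331_2336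

theorem c_2349_2361 : allTr (chkV P V lk) tr_2349_2361 = true := allTr_mk ck_2355 c_2349_2355 c_2356_2361

theorem c_2524_2536 : allTr (chkV P V lk) tr_2524_2536 = true := allTr_mk ck_2530 c_2524_2530 c_2531_2536

theorem c_2574_2586 : allTr (chkV P V lk) tr_2574_2586 = true := allTr_mk ck_2580 c_2574_2580 c_2581_2586

theorem c_2649_2661 : allTr (chkV P V lk) tr_2649_2661 = true := allTr_mk ck_2655 c_2649_2655 c_2656_2661

theorem c_2674_2686 : allTr (chkV P V lk) tr_2674_2686 = true := allTr_mk ck_2680 c_2674_2680 c_2681_2686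

theorem c_2699_2711 : allTr (chkV P V lk) tr_2699_2711 = true := allTr_mk ck_2705 c_2699_2705 c_2706_2711

theorem c_2724_2736 : allTr (chkV P V lk) tr_2724_2736 = true := allTr_mk ck_2730 c_2724_2730 c_2731_2736

theorem c_2749_2761 : allTr (chkV P V lk) tr_2749_2761 = true := allTr_mk ck_2755 c_2749_2755 c_2756_2761

theorem c_2799_2811 : allTr (chkV P V lk) tr_2799_2811 = true := allTr_mk ck_2805 c_2799_2805 c_2806_2811

theorem c_2824_2836 : allTr (chkV P V lk) tr_2824_2836 = true := allTr_mk ck_2830 c_2824_2830 c_2831_2836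

theorem c_2849_2861 : allTr (chkV P V lk) tr_2849_2861 = true := allTr_mk ck_2855 c_2849_2855 c_2856_2861

theorem c_2874_2886 : allTr (chkV P V lk) tr_2874_2886 = true := allTr_mk ck_2880 c_2874_2880 c_2881_2886

theorem c_2899_2911 : allTr (chkV P V lk) tr_2899_2911 = true := allTr_mk ck_2905 c_2899_2905 c_2906_2911

theorem c_2924_2936 : allTr (chkV P V lk) tr_2924_2936 = true := allTr_mk ck_2930 c_2924_2930 c_2931_2936

theorem c_2949_2961 : allTr (chkV P V lk) tr_2949_2961 = true := allTr_mk ck_2955 c_2949_2955 c_2956_2961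

theorem c_2974_2986 : allTr (chkV P V lk) tr_2974_2986 = true := allTr_mk ck_2980 c_2974_2980 c_2981_2986

theorem c_2999_3011 : allTr (chkV P V lk) tr_2999_3011 = true := allTr_mk ck_3005 c_2999_3005 c_3006_3011

theorem c_3024_3036 : allTr (chkV P V lk) tr_3024_3036 = true := allTr_mk ck_3030 c_3024_3030 c_3031_3036

theorem c_3049_3061 : allTr (chkV P V lk) tr_3049_3061 = true := allTr_mk ck_3055 c_3049_3055 c_3056_3061

theorem c_3074_3086 : allTr (chkV P V lk) tr_3074_3086 = true := allTr_mk ck_3080 c_3074_3080 c_3081_3086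

theorem c_3099_3111 : allTr (chkV P V lk) tr_3099_3111 = true := allTr_mk ck_3105 c_3099_3105 c_3106_3111

theorem c_3124_3136 : allTr (chkV P V lk) tr_3124_3136 = true := allTr_mk ck_3130 c_3124_3130 c_3131_3136

theorem c_3149_3161 : allTr (chkV P V lk) tr_3149_3161 = true := allTr_mk ck_3155 c_3149_3155 c_3156_3161

theorem c_3174_3197 : allTr (chkV P V lk) tr_3174_3197 = true := allTr_mk ck_3185 c_3174_3185 c_3186_3197

theorem c_350_374 : allTr (chkV P V lk) tr_350_374 = true := allTr_mk ck_362 c_350_362 c_363_374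

theorem c_575_599 : allTr (chkV P V lk) tr_575_599 = true := allTr_mk ck_587 c_575_587 c_588_599

theorem c_775_799 : allTr (chkV P V lk) tr_775_799 = true := allTr_mk ck_787 c_775_787 c_788_799

theorem c_975_999 : allTr (chkV P V lk) tr_975_999 = true := allTr_mk ck_987 c_975_987 c_988_999

theorem c_1100_1124 : allTr (chkV P V lk) tr_1100_1124 = true := allTr_mk ck_1112 c_1100_1112 c_1113_1124

theorem c_1125_1149 : allTr (chkV P V lk) tr_1125_1149 = true := allTr_mk ck_1137 c_1125_1137 c_1138_1149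

theorem c_1250_1274 : allTr (chkV P V lk) tr_1250_1274 = true := allTr_mk ck_1262 c_1250_1262 c_1263_1274

theorem c_1275_1299 : allTr (chkV P V lk) tr_1275_1299 = true := allTr_mk ck_1287 c_1275_1287 c_1288_1299

theorem c_1400_1424 : allTr (chkV P V lk) tr_1400_1424 = true := allTr_mk ck_1412 c_1400_1412 c_1413_1424

theorem c_1425_1449 : allTr (chkV P V lk) tr_1425_1449 = true := allTr_mk ck_1437 c_1425_1437 c_1438_1449

theorem c_1450_1474 : allTr (chkV P V lk) tr_1450_1474 = true := allTr_mk ck_1462 c_1450_1462 c_1463_1474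

theorem c_1475_1499 : allTr (chkV P V lk) tr_1475_1499 = true := allTr_mk ck_1487 c_1475_1487 c_1488_1499

theorem c_1599_1623 : allTr (chkV P V lk) tr_1599_1623 = true := allTr_mk ck_1611 c_1599_1611 c_1612_1623

theorem c_1624_1648 : allTr (chkV P V lk) tr_1624_1648 = true := allTr_mk ck_1636 c_1624_1636 c_1637_1648

theorem c_1649_1673 : allTr (chkV P V lk) tr_1649_1673 = true := allTr_mk ck_1661 c_1649_1661 c_1662_1673

theorem c_1674_1698 : allTr (chkV P V lk) tr_1674_1698 = true := allTr_mk ck_1686 c_1674_1686 c_1687_1698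

theorem c_1799_1823 : allTr (chkV P V lk) tr_1799_1823 = true := allTr_mk ck_1811 c_1799_1811 c_1812_1823

theorem c_1824_1848 : allTr (chkV P V lk) tr_1824_1848 = true := allTr_mk ck_1836 c_1824_1836 c_1837_1848

theorem c_1849_1873 : allTr (chkV P V lk) tr_1849_1873 = true := allTr_mk ck_1861 c_1849_1861 c_1862_1873

theorem c_1874_1898 : allTr (chkV P V lk) tr_1874_1898 = true := allTr_mk ck_1886 c_1874_1886 c_1887_1898

theorem c_1899_1923 : allTr (chkV P V lk) tr_1899_1923 = true := allTr_mk ck_1911 c_1899_1911 c_1912_1923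

theorem c_2024_2048 : allTr (chkV P V lk) tr_2024_2048 = true := allTr_mk ck_2036 c_2024_2036 c_2037_2048

theorem c_2049_2073 : allTr (chkV P V lk) tr_2049_2073 = true := allTr_mk ck_2061 c_2049_2061 c_2062_2073

theorem c_2074_2098 : allTr (chkV P V lk) tr_2074_2098 = true := allTr_mk ck_2086 c_2074_2086 c_2087_2098

theorem c_2099_2123 : allTr (chkV P V lk) tr_2099_2123 = true := allTr_mk ck_2111 c_2099_2111 c_2112_2123

theorem c_2249_2273 : allTr (chkV P V lk) tr_2249_2273 = true := allTr_mk ck_2261 c_2249_2261 c_2262_2273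

theorem c_2274_2298 : allTr (chkV P V lk) tr_2274_2298 = true := allTr_mk ck_2286 c_2274_2286 c_2287_2298

theorem c_2299_2323 : allTr (chkV P V lk) tr_2299_2323 = true := allTr_mk ck_2311 c_2299_2311 c_2312_2323

theorem c_2324_2348 : allTr (chkV P V lk) tr_2324_2348 = true := allTr_mk ck_2336 c_2324_2336 c_2337_2348

theorem c_2349_2373 : allTr (chkV P V lk) tr_2349_2373 = true := allTr_mk ck_2361 c_2349_2361 c_2362_2373

theorem c_2399_2423 : allTr (chkV P V lk) tr_2399_2423 = true := allTr_mk ck_2411 c_2399_2411 c_2412_2423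

theorem c_2424_2448 : allTr (chkV P V lk) tr_2424_2448 = true := allTr_mk ck_2436 c_2424_2436 c_2437_2448

theorem c_2474_2498 : allTr (chkV P V lk) tr_2474_2498 = true := allTr_mk ck_2486 c_2474_2486 c_2487_2498

theorem c_2499_2523 : allTr (chkV P V lk) tr_2499_2523 = true := allTr_mk ck_2511 c_2499_2511 c_2512_2523

theorem c_2524_2548 : allTr (chkV P V lk) tr_2524_2548 = true := allTr_mk ck_2536 c_2524_2536 c_2537_2548

theorem c_2549_2573 : allTr (chkV P V lk) tr_2549_2573 = true := allTr_mk ck_2561 c_2549_2561 c_2562_2573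

theorem c_2574_2598 : allTr (chkV P V lk) tr_2574_2598 = true := allTr_mk ck_2586 c_2574_2586 c_2587_2598

theorem c_2599_2623 : allTr (chkV P V lk) tr_2599_2623 = true := allTr_mk ck_2611 c_2599_2611 c_2612_2623

theorem c_2624_2648 : allTr (chkV P V lk) tr_2624_2648 = true := allTr_mk ck_2636 c_2624_2636 c_2637_2648

theorem c_2649_2673 : allTr (chkV P V lk) tr_2649_2673 = true := allTr_mk ck_2661 c_2649_2661 c_2662_2673

theorem c_2674_2698 : allTr (chkV P V lk) tr_2674_2698 = true := allTr_mk ck_2686 c_2674_2686 c_2687_2698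

theorem c_2699_2723 : allTr (chkV P V lk) tr_2699_2723 = true := allTr_mk ck_2711 c_2699_2711 c_2712_2723

theorem c_2724_2748 : allTr (chkV P V lk) tr_2724_2748 = true := allTr_mk ck_2736 c_2724_2736 c_2737_2748

theorem c_2749_2773 : allTr (chkV P V lk) tr_2749_2773 = true := allTr_mk ck_2761 c_2749_2761 c_2762_2773

theorem c_2774_2798 : allTr (chkV P V lk) tr_2774_2798 = true := allTr_mk ck_2786 c_2774_2786 c_2787_2798

theorem c_2799_2823 : allTr (chkV P V lk) tr_2799_2823 = true := allTr_mk ck_2811 c_2799_2811 c_2812_2823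

theorem c_2824_2848 : allTr (chkV P V lk) tr_2824_2848 = true := allTr_mk ck_2836 c_2824_2836 c_2837_2848

theorem c_2849_2873 : allTr (chkV P V lk) tr_2849_2873 = true := allTr_mk ck_2861 c_2849_2861 c_2862_2873

theorem c_2874_2898 : allTr (chkV P V lk) tr_2874_2898 = true := allTr_mk ck_2886 c_2874_2886 c_2887_2898

theorem c_2899_2923 : allTr (chkV P V lk) tr_2899_2923 = true := allTr_mk ck_2911 c_2899_2911 c_2912_2923

theorem c_2924_2948 : allTr (chkV P V lk) tr_2924_2948 = true := allTr_mk ck_2936 c_2924_2936 c_2937_2948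

theorem c_2949_2973 : allTr (chkV P V lk) tr_2949_2973 = true := allTr_mk ck_2961 c_2949_2961 c_2962_2973

theorem c_2974_2998 : allTr (chkV P V lk) tr_2974_2998 = true := allTr_mk ck_2986 c_2974_2986 c_2987_2998

theorem c_2999_3023 : allTr (chkV P V lk) tr_2999_3023 = true := allTr_mk ck_3011 c_2999_3011 c_3012_3023

theorem c_3024_3048 : allTr (chkV P V lk) tr_3024_3048 = true := allTr_mk ck_3036 c_3024_3036 c_3037_3048

theorem c_3049_3073 : allTr (chkV P V lk) tr_3049_3073 = true := allTr_mk ck_3061 c_3049_3061 c_3062_3073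

theorem c_3074_3098 : allTr (chkV P V lk) tr_3074_3098 = true := allTr_mk ck_3086 c_3074_3086 c_3087_3098

theorem c_3099_3123 : allTr (chkV P V lk) tr_3099_3123 = true := allTr_mk ck_3111 c_3099_3111 c_3112_3123

theorem c_3124_3148 : allTr (chkV P V lk) tr_3124_3148 = true := allTr_mk ck_3136 c_3124_3136 c_3137_3148

theorem c_3149_3173 : allTr (chkV P V lk) tr_3149_3173 = true := allTr_mk ck_3161 c_3149_3161 c_3162_3173

theorem c_3149_3197 : allTr (chkV P V lk) tr_3149_3197 = true := allTr_mk ck_3173 c_3149_3173 c_3174_3197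

theorem c_350_399 : allTr (chkV P V lk) tr_350_399 = true := allTr_mk ck_374 c_350_374 c_375_399

theorem c_550_599 : allTr (chkV P V lk) tr_550_599 = true := allTr_mk ck_574 c_550_574 c_575_599

theorem c_750_799 : allTr (chkV P V lk) tr_750_799 = true := allTr_mk ck_774 c_750_774 c_775_799

theorem c_850_899 : allTr (chkV P V lk) tr_850_899 = true := allTr_mk ck_874 c_850_874 c_875_899

theorem c_950_999 : allTr (chkV P V lk) tr_950_999 = true := allTr_mk ck_974 c_950_974 c_975_999

theorem c_1100_1149 : allTr (chkV P V lk) tr_1100_1149 = true := allTr_mk ck_1124 c_1100_1124 c_1125_1149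

theorem c_1250_1299 : allTr (chkV P V lk) tr_1250_1299 = true := allTr_mk ck_1274 c_1250_1274 c_1275_1299

theorem c_1300_1349 : allTr (chkV P V lk) tr_1300_1349 = true := allTr_mk ck_1324 c_1300_1324 c_1325_1349

theorem c_1400_1449 : allTr (chkV P V lk) tr_1400_1449 = true := allTr_mk ck_1424 c_1400_1424 c_1425_1449

theorem c_1450_1499 : allTr (chkV P V lk) tr_1450_1499 = true := allTr_mk ck_1474 c_1450_1474 c_1475_1499

theorem c_1500_1549 : allTr (chkV P V lk) tr_1500_1549 = true := allTr_mk ck_1524 c_1500_1524 c_1525_1549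

theorem c_1599_1648 : allTr (chkV P V lk) tr_1599_1648 = true := allTr_mk ck_1623 c_1599_1623 c_1624_1648

theorem c_1649_1698 : allTr (chkV P V lk) tr_1649_1698 = true := allTr_mk ck_1673 c_1649_1673 c_1674_1698

theorem c_1699_1748 : allTr (chkV P V lk) tr_1699_1748 = true := allTr_mk ck_1723 c_1699_1723 c_1724_1748

theorem c_1799_1848 : allTr (chkV P V lk) tr_1799_1848 = true := allTr_mk ck_1823 c_1799_1823 c_1824_1848

theorem c_1849_1898 : allTr (chkV P V lk) tr_1849_1898 = true := allTr_mk ck_1873 c_1849_1873 c_1874_1898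

theorem c_1899_1948 : allTr (chkV P V lk) tr_1899_1948 = true := allTr_mk ck_1923 c_1899_1923 c_1924_1948

theorem c_1949_1998 : allTr (chkV P V lk) tr_1949_1998 = true := allTr_mk ck_1973 c_1949_1973 c_1974_1998

theorem c_1999_2048 : allTr (chkV P V lk) tr_1999_2048 = true := allTr_mk ck_2023 c_1999_2023 c_2024_2048

theorem c_2049_2098 : allTr (chkV P V lk) tr_2049_2098 = true := allTr_mk ck_2073 c_2049_2073 c_2074_2098

theorem c_2099_2148 : allTr (chkV P V lk) tr_2099_2148 = true := allTr_mk ck_2123 c_2099_2123 c_2124_2148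

theorem c_2149_2198 : allTr (chkV P V lk) tr_2149_2198 = true := allTr_mk ck_2173 c_2149_2173 c_2174_2198

theorem c_2249_2298 : allTr (chkV P V lk) tr_2249_2298 = true := allTr_mk ck_2273 c_2249_2273 c_2274_2298

theorem c_2299_2348 : allTr (chkV P V lk) tr_2299_2348 = true := allTr_mk ck_2323 c_2299_2323 c_2324_2348

theorem c_2349_2398 : allTr (chkV P V lk) tr_2349_2398 = true := allTr_mk ck_2373 c_2349_2373 c_2374_2398

theorem c_2399_2448 : allTr (chkV P V lk) tr_2399_2448 = true := allTr_mk ck_2423 c_2399_2423 c_2424_2448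

theorem c_2449_2498 : allTr (chkV P V lk) tr_2449_2498 = true := allTr_mk ck_2473 c_2449_2473 c_2474_2498

theorem c_2499_2548 : allTr (chkV P V lk) tr_2499_2548 = true := allTr_mk ck_2523 c_2499_2523 c_2524_2548

theorem c_2549_2598 : allTr (chkV P V lk) tr_2549_2598 = true := allTr_mk ck_2573 c_2549_2573 c_2574_2598

theorem c_2599_2648 : allTr (chkV P V lk) tr_2599_2648 = true := allTr_mk ck_2623 c_2599_2623 c_2624_2648

theorem c_2649_2698 : allTr (chkV P V lk) tr_2649_2698 = true := allTr_mk ck_2673 c_2649_2673 c_2674_2698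

theorem c_2699_2748 : allTr (chkV P V lk) tr_2699_2748 = true := allTr_mk ck_2723 c_2699_2723 c_2724_2748

theorem c_2749_2798 : allTr (chkV P V lk) tr_2749_2798 = true := allTr_mk ck_2773 c_2749_2773 c_2774_2798

theorem c_2799_2848 : allTr (chkV P V lk) tr_2799_2848 = true := allTr_mk ck_2823 c_2799_2823 c_2824_2848

theorem c_2849_2898 : allTr (chkV P V lk) tr_2849_2898 = true := allTr_mk ck_2873 c_2849_2873 c_2874_2898

theorem c_2899_2948 : allTr (chkV P V lk) tr_2899_2948 = true := allTr_mk ck_2923 c_2899_2923 c_2924_2948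

theorem c_2949_2998 : allTr (chkV P V lk) tr_2949_2998 = true := allTr_mk ck_2973 c_2949_2973 c_2974_2998

theorem c_2999_3048 : allTr (chkV P V lk) tr_2999_3048 = true := allTr_mk ck_3023 c_2999_3023 c_3024_3048

theorem c_3049_3098 : allTr (chkV P V lk) tr_3049_3098 = true := allTr_mk ck_3073 c_3049_3073 c_3074_3098

theorem c_3099_3148 : allTr (chkV P V lk) tr_3099_3148 = true := allTr_mk ck_3123 c_3099_3123 c_3124_3148

theorem c_1500_1598 : allTr (chkV P V lk) tr_1500_1598 = true := allTr_mk ck_1549 c_1500_1549 c_1550_1598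

theorem c_3099_3197 : allTr (chkV P V lk) tr_3099_3197 = true := allTr_mk ck_3148 c_3099_3148 c_3149_3197

theorem c_0_99 : allTr (chkV P V lk) tr_0_99 = true := allTr_mk ck_49 c_0_49 c_50_99

theorem c_100_199 : allTr (chkV P V lk) tr_100_199 = true := allTr_mk ck_149 c_100_149 c_150_199

theorem c_200_299 : allTr (chkV P V lk) tr_200_299 = true := allTr_mk ck_249 c_200_249 c_250_299

theorem c_300_399 : allTr (chkV P V lk) tr_300_399 = true := allTr_mk ck_349 c_300_349 c_350_399

theorem c_400_499 : allTr (chkV P V lk) tr_400_499 = true := allTr_mk ck_449 c_400_449 c_450_499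

theorem c_500_599 : allTr (chkV P V lk) tr_500_599 = true := allTr_mk ck_549 c_500_549 c_550_599

theorem c_600_699 : allTr (chkV P V lk) tr_600_699 = true := allTr_mk ck_649 c_600_649 c_650_699

theorem c_700_799 : allTr (chkV P V lk) tr_700_799 = true := allTr_mk ck_749 c_700_749 c_750_799

theorem c_800_899 : allTr (chkV P V lk) tr_800_899 = true := allTr_mk ck_849 c_800_849 c_850_899

theorem c_900_999 : allTr (chkV P V lk) tr_900_999 = true := allTr_mk ck_949 c_900_949 c_950_999

theorem c_1000_1099 : allTr (chkV P V lk) tr_1000_1099 = true := allTr_mk ck_1049 c_1000_1049 c_1050_1099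

theorem c_1100_1199 : allTr (chkV P V lk) tr_1100_1199 = true := allTr_mk ck_1149 c_1100_1149 c_1150_1199

theorem c_1200_1299 : allTr (chkV P V lk) tr_1200_1299 = true := allTr_mk ck_1249 c_1200_1249 c_1250_1299

theorem c_1300_1399 : allTr (chkV P V lk) tr_1300_1399 = true := allTr_mk ck_1349 c_1300_1349 c_1350_1399

theorem c_1400_1499 : allTr (chkV P V lk) tr_1400_1499 = true := allTr_mk ck_1449 c_1400_1449 c_1450_1499

theorem c_1599_1698 : allTr (chkV P V lk) tr_1599_1698 = true := allTr_mk ck_1648 c_1599_1648 c_1649_1698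

theorem c_1699_1798 : allTr (chkV P V lk) tr_1699_1798 = true := allTr_mk ck_1748 c_1699_1748 c_1749_1798

theorem c_1799_1898 : allTr (chkV P V lk) tr_1799_1898 = true := allTr_mk ck_1848 c_1799_1848 c_1849_1898

theorem c_1899_1998 : allTr (chkV P V lk) tr_1899_1998 = true := allTr_mk ck_1948 c_1899_1948 c_1949_1998

theorem c_1999_2098 : allTr (chkV P V lk) tr_1999_2098 = true := allTr_mk ck_2048 c_1999_2048 c_2049_2098

theorem c_2099_2198 : allTr (chkV P V lk) tr_2099_2198 = true := allTr_mk ck_2148 c_2099_2148 c_2149_2198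

theorem c_2199_2298 : allTr (chkV P V lk) tr_2199_2298 = true := allTr_mk ck_2248 c_2199_2248 c_2249_2298

theorem c_2299_2398 : allTr (chkV P V lk) tr_2299_2398 = true := allTr_mk ck_2348 c_2299_2348 c_2349_2398

theorem c_2399_2498 : allTr (chkV P V lk) tr_2399_2498 = true := allTr_mk ck_2448 c_2399_2448 c_2449_2498

theorem c_2499_2598 : allTr (chkV P V lk) tr_2499_2598 = true := allTr_mk ck_2548 c_2499_2548 c_2549_2598

theorem c_2599_2698 : allTr (chkV P V lk) tr_2599_2698 = true := allTr_mk ck_2648 c_2599_2648 c_2649_2698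

theorem c_2699_2798 : allTr (chkV P V lk) tr_2699_2798 = true := allTr_mk ck_2748 c_2699_2748 c_2749_2798

theorem c_2799_2898 : allTr (chkV P V lk) tr_2799_2898 = true := allTr_mk ck_2848 c_2799_2848 c_2849_2898

theorem c_2899_2998 : allTr (chkV P V lk) tr_2899_2998 = true := allTr_mk ck_2948 c_2899_2948 c_2949_2998

theorem c_2999_3098 : allTr (chkV P V lk) tr_2999_3098 = true := allTr_mk ck_3048 c_2999_3048 c_3049_3098

theorem c_1400_1598 : allTr (chkV P V lk) tr_1400_1598 = true := allTr_mk ck_1499 c_1400_1499 c_1500_1598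

theorem c_2999_3197 : allTr (chkV P V lk) tr_2999_3197 = true := allTr_mk ck_3098 c_2999_3098 c_3099_3197

theorem c_0_199 : allTr (chkV P V lk) tr_0_199 = true := allTr_mk ck_99 c_0_99 c_100_199

theorem c_200_399 : allTr (chkV P V lk) tr_200_399 = true := allTr_mk ck_299 c_200_299 c_300_399

theorem c_400_599 : allTr (chkV P V lk) tr_400_599 = true := allTr_mk ck_499 c_400_499 c_500_599

theorem c_600_799 : allTr (chkV P V lk) tr_600_799 = true := allTr_mk ck_699 c_600_699 c_700_799

theorem c_800_999 : allTr (chkV P V lk) tr_800_999 = true := allTr_mk ck_899 c_800_899 c_900_999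

theorem c_1000_1199 : allTr (chkV P V lk) tr_1000_1199 = true := allTr_mk ck_1099 c_1000_1099 c_1100_1199

theorem c_1200_1399 : allTr (chkV P V lk) tr_1200_1399 = true := allTr_mk ck_1299 c_1200_1299 c_1300_1399

theorem c_1599_1798 : allTr (chkV P V lk) tr_1599_1798 = true := allTr_mk ck_1698 c_1599_1698 c_1699_1798

theorem c_1799_1998 : allTr (chkV P V lk) tr_1799_1998 = true := allTr_mk ck_1898 c_1799_1898 c_1899_1998

theorem c_1999_2198 : allTr (chkV P V lk) tr_1999_2198 = true := allTr_mk ck_2098 c_1999_2098 c_2099_2198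

theorem c_2199_2398 : allTr (chkV P V lk) tr_2199_2398 = true := allTr_mk ck_2298 c_2199_2298 c_2299_2398

theorem c_2399_2598 : allTr (chkV P V lk) tr_2399_2598 = true := allTr_mk ck_2498 c_2399_2498 c_2499_2598

theorem c_2599_2798 : allTr (chkV P V lk) tr_2599_2798 = true := allTr_mk ck_2698 c_2599_2698 c_2699_2798

theorem c_2799_2998 : allTr (chkV P V lk) tr_2799_2998 = true := allTr_mk ck_2898 c_2799_2898 c_2899_2998

theorem c_1200_1598 : allTr (chkV P V lk) tr_1200_1598 = true := allTr_mk ck_1399 c_1200_1399 c_1400_1598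

theorem c_2799_3197 : allTr (chkV P V lk) tr_2799_3197 = true := allTr_mk ck_2998 c_2799_2998 c_2999_3197

theorem c_0_399 : allTr (chkV P V lk) tr_0_399 = true := allTr_mk ck_199 c_0_199 c_200_399

theorem c_400_799 : allTr (chkV P V lk) tr_400_799 = true := allTr_mk ck_599 c_400_599 c_600_799

theorem c_800_1199 : allTr (chkV P V lk) tr_800_1199 = true := allTr_mk ck_999 c_800_999 c_1000_1199

theorem c_1599_1998 : allTr (chkV P V lk) tr_1599_1998 = true := allTr_mk ck_1798 c_1599_1798 c_1799_1998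

theorem c_1999_2398 : allTr (chkV P V lk) tr_1999_2398 = true := allTr_mk ck_2198 c_1999_2198 c_2199_2398

theorem c_2399_2798 : allTr (chkV P V lk) tr_2399_2798 = true := allTr_mk ck_2598 c_2399_2598 c_2599_2798

theorem c_800_1598 : allTr (chkV P V lk) tr_800_1598 = true := allTr_mk ck_1199 c_800_1199 c_1200_1598

theorem c_2399_3197 : allTr (chkV P V lk) tr_2399_3197 = true := allTr_mk ck_2798 c_2399_2798 c_2799_3197

theorem c_0_799 : allTr (chkV P V lk) tr_0_799 = true := allTr_mk ck_399 c_0_399 c_400_799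

theorem c_1599_2398 : allTr (chkV P V lk) tr_1599_2398 = true := allTr_mk ck_1998 c_1599_1998 c_1999_2398

theorem c_0_1598 : allTr (chkV P V lk) tr_0_1598 = true := allTr_mk ck_799 c_0_799 c_800_1598

theorem c_1599_3197 : allTr (chkV P V lk) tr_1599_3197 = true := allTr_mk ck_2398 c_1599_2398 c_2399_3197

theorem c_0_3197 : allTr (chkV P V lk) tr_0_3197 = true := allTr_mk ck_1598 c_0_1598 c_1599_3197

theorem o_3195_3197 : allTr oF tr_3195_3197 = true := allTr_mk ok_3196 o_3195_3196 rfl

theorem o_3149_3152 : allTr oF tr_3149_3152 = true := allTr_mk ok_3150 o_3149_3150 o_3151_3152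

theorem o_2681_2686 : allTr oF tr_2681_2686 = true := allTr_mk ok_2683 o_2681_2683 o_2684_2686

theorem o_2687_2692 : allTr oF tr_2687_2692 = true := allTr_mk ok_2689 o_2687_2689 o_2690_2692

theorem o_2693_2698 : allTr oF tr_2693_2698 = true := allTr_mk ok_2695 o_2693_2695 o_2696_2698

theorem o_2706_2711 : allTr oF tr_2706_2711 = true := allTr_mk ok_2708 o_2706_2708 o_2709_2711

theorem o_2712_2717 : allTr oF tr_2712_2717 = true := allTr_mk ok_2714 o_2712_2714 o_2715_2717

theorem o_2718_2723 : allTr oF tr_2718_2723 = true := allTr_mk ok_2720 o_2718_2720 o_2721_2723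

theorem o_2731_2736 : allTr oF tr_2731_2736 = true := allTr_mk ok_2733 o_2731_2733 o_2734_2736

theorem o_2737_2742 : allTr oF tr_2737_2742 = true := allTr_mk ok_2739 o_2737_2739 o_2740_2742

theorem o_2743_2748 : allTr oF tr_2743_2748 = true := allTr_mk ok_2745 o_2743_2745 o_2746_2748

theorem o_2756_2761 : allTr oF tr_2756_2761 = true := allTr_mk ok_2758 o_2756_2758 o_2759_2761

theorem o_2762_2767 : allTr oF tr_2762_2767 = true := allTr_mk ok_2764 o_2762_2764 o_2765_2767

theorem o_2793_2798 : allTr oF tr_2793_2798 = true := allTr_mk ok_2795 o_2793_2795 o_2796_2798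

theorem o_2806_2811 : allTr oF tr_2806_2811 = true := allTr_mk ok_2808 o_2806_2808 o_2809_2811

theorem o_2812_2817 : allTr oF tr_2812_2817 = true := allTr_mk ok_2814 o_2812_2814 o_2815_2817

theorem o_2818_2823 : allTr oF tr_2818_2823 = true := allTr_mk ok_2820 o_2818_2820 o_2821_2823

theorem o_2831_2836 : allTr oF tr_2831_2836 = true := allTr_mk ok_2833 o_2831_2833 o_2834_2836

theorem o_2837_2842 : allTr oF tr_2837_2842 = true := allTr_mk ok_2839 o_2837_2839 o_2840_2842

theorem o_2856_2861 : allTr oF tr_2856_2861 = true := allTr_mk ok_2858 o_2856_2858 o_2859_2861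

theorem o_2862_2867 : allTr oF tr_2862_2867 = true := allTr_mk ok_2864 o_2862_2864 o_2865_2867

theorem o_2868_2873 : allTr oF tr_2868_2873 = true := allTr_mk ok_2870 o_2868_2870 o_2871_2873

theorem o_2881_2886 : allTr oF tr_2881_2886 = true := allTr_mk ok_2883 o_2881_2883 o_2884_2886

theorem o_2887_2892 : allTr oF tr_2887_2892 = true := allTr_mk ok_2889 o_2887_2889 o_2890_2892

theorem o_2893_2898 : allTr oF tr_2893_2898 = true := allTr_mk ok_2895 o_2893_2895 o_2896_2898

theorem o_2906_2911 : allTr oF tr_2906_2911 = true := allTr_mk ok_2908 o_2906_2908 o_2909_2911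

theorem o_2918_2923 : allTr oF tr_2918_2923 = true := allTr_mk ok_2920 o_2918_2920 o_2921_2923

theorem o_2931_2936 : allTr oF tr_2931_2936 = true := allTr_mk ok_2933 o_2931_2933 o_2934_2936

theorem o_2937_2942 : allTr oF tr_2937_2942 = true := allTr_mk ok_2939 o_2937_2939 o_2940_2942

theorem o_2943_2948 : allTr oF tr_2943_2948 = true := allTr_mk ok_2945 o_2943_2945 o_2946_2948

theorem o_2956_2961 : allTr oF tr_2956_2961 = true := allTr_mk ok_2958 o_2956_2958 o_2959_2961

theorem o_2962_2967 : allTr oF tr_2962_2967 = true := allTr_mk ok_2964 o_2962_2964 o_2965_2967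

theorem o_2968_2973 : allTr oF tr_2968_2973 = true := allTr_mk ok_2970 o_2968_2970 o_2971_2973

theorem o_2981_2986 : allTr oF tr_2981_2986 = true := allTr_mk ok_2983 o_2981_2983 o_2984_2986

theorem o_2987_2992 : allTr oF tr_2987_2992 = true := allTr_mk ok_2989 o_2987_2989 o_2990_2992

theorem o_2993_2998 : allTr oF tr_2993_2998 = true := allTr_mk ok_2995 o_2993_2995 o_2996_2998

theorem o_3006_3011 : allTr oF tr_3006_3011 = true := allTr_mk ok_3008 o_3006_3008 o_3009_3011

theorem o_3012_3017 : allTr oF tr_3012_3017 = true := allTr_mk ok_3014 o_3012_3014 o_3015_3017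

theorem o_3018_3023 : allTr oF tr_3018_3023 = true := allTr_mk ok_3020 o_3018_3020 o_3021_3023

theorem o_3031_3036 : allTr oF tr_3031_3036 = true := allTr_mk ok_3033 o_3031_3033 o_3034_3036

theorem o_3037_3042 : allTr oF tr_3037_3042 = true := allTr_mk ok_3039 o_3037_3039 o_3040_3042

theorem o_3043_3048 : allTr oF tr_3043_3048 = true := allTr_mk ok_3045 o_3043_3045 o_3046_3048

theorem o_3056_3061 : allTr oF tr_3056_3061 = true := allTr_mk ok_3058 o_3056_3058 o_3059_3061

theorem o_3062_3067 : allTr oF tr_3062_3067 = true := allTr_mk ok_3064 o_3062_3064 o_3065_3067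

theorem o_3068_3073 : allTr oF tr_3068_3073 = true := allTr_mk ok_3070 o_3068_3070 o_3071_3073

theorem o_3081_3086 : allTr oF tr_3081_3086 = true := allTr_mk ok_3083 o_3081_3083 o_3084_3086

theorem o_3087_3092 : allTr oF tr_3087_3092 = true := allTr_mk ok_3089 o_3087_3089 o_3090_3092

theorem o_3093_3098 : allTr oF tr_3093_3098 = true := allTr_mk ok_3095 o_3093_3095 o_3096_3098

theorem o_3106_3111 : allTr oF tr_3106_3111 = true := allTr_mk ok_3108 o_3106_3108 o_3109_3111

theorem o_3112_3117 : allTr oF tr_3112_3117 = true := allTr_mk ok_3114 o_3112_3114 o_3115_3117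

theorem o_3131_3136 : allTr oF tr_3131_3136 = true := allTr_mk ok_3133 o_3131_3133 o_3134_3136

theorem o_3137_3142 : allTr oF tr_3137_3142 = true := allTr_mk ok_3139 o_3137_3139 o_3140_3142

theorem o_3143_3148 : allTr oF tr_3143_3148 = true := allTr_mk ok_3145 o_3143_3145 o_3146_3148

theorem o_3156_3161 : allTr oF tr_3156_3161 = true := allTr_mk ok_3158 o_3156_3158 o_3159_3161

theorem o_3162_3167 : allTr oF tr_3162_3167 = true := allTr_mk ok_3164 o_3162_3164 o_3165_3167

theorem o_3168_3173 : allTr oF tr_3168_3173 = true := allTr_mk ok_3170 o_3168_3170 o_3171_3173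

theorem o_3174_3179 : allTr oF tr_3174_3179 = true := allTr_mk ok_3176 o_3174_3176 o_3177_3179

theorem o_3180_3185 : allTr oF tr_3180_3185 = true := allTr_mk ok_3182 o_3180_3182 o_3183_3185

theorem o_3186_3191 : allTr oF tr_3186_3191 = true := allTr_mk ok_3188 o_3186_3188 o_3189_3191

theorem o_3192_3197 : allTr oF tr_3192_3197 = true := allTr_mk ok_3194 o_3192_3194 o_3195_3197

theorem o_2574_2580 : allTr oF tr_2574_2580 = true := allTr_mk ok_2577 o_2574_2577 o_2578_2580

theorem o_2699_2705 : allTr oF tr_2699_2705 = true := allTr_mk ok_2702 o_2699_2702 o_2703_2705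

theorem o_2724_2730 : allTr oF tr_2724_2730 = true := allTr_mk ok_2727 o_2724_2727 o_2728_2730

theorem o_2749_2755 : allTr oF tr_2749_2755 = true := allTr_mk ok_2752 o_2749_2752 o_2753_2755

theorem o_2799_2805 : allTr oF tr_2799_2805 = true := allTr_mk ok_2802 o_2799_2802 o_2803_2805

theorem o_2824_2830 : allTr oF tr_2824_2830 = true := allTr_mk ok_2827 o_2824_2827 o_2828_2830

theorem o_2849_2855 : allTr oF tr_2849_2855 = true := allTr_mk ok_2852 o_2849_2852 o_2853_2855

theorem o_2874_2880 : allTr oF tr_2874_2880 = true := allTr_mk ok_2877 o_2874_2877 o_2878_2880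

theorem o_2899_2905 : allTr oF tr_2899_2905 = true := allTr_mk ok_2902 o_2899_2902 o_2903_2905

theorem o_2924_2930 : allTr oF tr_2924_2930 = true := allTr_mk ok_2927 o_2924_2927 o_2928_2930

theorem o_2949_2955 : allTr oF tr_2949_2955 = true := allTr_mk ok_2952 o_2949_2952 o_2953_2955

theorem o_2974_2980 : allTr oF tr_2974_2980 = true := allTr_mk ok_2977 o_2974_2977 o_2978_2980

theorem o_2999_3005 : allTr oF tr_2999_3005 = true := allTr_mk ok_3002 o_2999_3002 o_3003_3005

theorem o_3024_3030 : allTr oF tr_3024_3030 = true := allTr_mk ok_3027 o_3024_3027 o_3028_3030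

theorem o_3049_3055 : allTr oF tr_3049_3055 = true := allTr_mk ok_3052 o_3049_3052 o_3053_3055

theorem o_3074_3080 : allTr oF tr_3074_3080 = true := allTr_mk ok_3077 o_3074_3077 o_3078_3080

theorem o_3099_3105 : allTr oF tr_3099_3105 = true := allTr_mk ok_3102 o_3099_3102 o_3103_3105

theorem o_3124_3130 : allTr oF tr_3124_3130 = true := allTr_mk ok_3127 o_3124_3127 o_3128_3130

theorem o_3149_3155 : allTr oF tr_3149_3155 = true := allTr_mk ok_3152 o_3149_3152 o_3153_3155

theorem o_1113_1124 : allTr oF tr_1113_1124 = true := allTr_mk ok_1118 o_1113_1118 o_1119_1124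

theorem o_1288_1299 : allTr oF tr_1288_1299 = true := allTr_mk ok_1293 o_1288_1293 o_1294_1299

theorem o_1438_1449 : allTr oF tr_1438_1449 = true := allTr_mk ok_1443 o_1438_1443 o_1444_1449

theorem o_1488_1499 : allTr oF tr_1488_1499 = true := allTr_mk ok_1493 o_1488_1493 o_1494_1499

theorem o_1612_1623 : allTr oF tr_1612_1623 = true := allTr_mk ok_1617 o_1612_1617 o_1618_1623

theorem o_1662_1673 : allTr oF tr_1662_1673 = true := allTr_mk ok_1667 o_1662_1667 o_1668_1673

theorem o_1812_1823 : allTr oF tr_1812_1823 = true := allTr_mk ok_1817 o_1812_1817 o_1818_1823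

theorem o_1837_1848 : allTr oF tr_1837_1848 = true := allTr_mk ok_1842 o_1837_1842 o_1843_1848

theorem o_2037_2048 : allTr oF tr_2037_2048 = true := allTr_mk ok_2042 o_2037_2042 o_2043_2048

theorem o_2087_2098 : allTr oF tr_2087_2098 = true := allTr_mk ok_2092 o_2087_2092 o_2093_2098

theorem o_2112_2123 : allTr oF tr_2112_2123 = true := allTr_mk ok_2117 o_2112_2117 o_2118_2123

theorem o_2287_2298 : allTr oF tr_2287_2298 = true := allTr_mk ok_2292 o_2287_2292 o_2293_2298

theorem o_2312_2323 : allTr oF tr_2312_2323 = true := allTr_mk ok_2317 o_2312_2317 o_2318_2323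

theorem o_2537_2548 : allTr oF tr_2537_2548 = true := allTr_mk ok_2542 o_2537_2542 o_2543_2548

theorem o_2562_2573 : allTr oF tr_2562_2573 = true := allTr_mk ok_2567 o_2562_2567 o_2568_2573

theorem o_2587_2598 : allTr oF tr_2587_2598 = true := allTr_mk ok_2592 o_2587_2592 o_2593_2598

theorem o_2637_2648 : allTr oF tr_2637_2648 = true := allTr_mk ok_2642 o_2637_2642 o_2643_2648

theorem o_2687_2698 : allTr oF tr_2687_2698 = true := allTr_mk ok_2692 o_2687_2692 o_2693_2698

theorem o_2712_2723 : allTr oF tr_2712_2723 = true := allTr_mk ok_2717 o_2712_2717 o_2718_2723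

theorem o_2737_2748 : allTr oF tr_2737_2748 = true := allTr_mk ok_2742 o_2737_2742 o_2743_2748

theorem o_2762_2773 : allTr oF tr_2762_2773 = true := allTr_mk ok_2767 o_2762_2767 o_2768_2773

theorem o_2787_2798 : allTr oF tr_2787_2798 = true := allTr_mk ok_2792 o_2787_2792 o_2793_2798

theorem o_2812_2823 : allTr oF tr_2812_2823 = true := allTr_mk ok_2817 o_2812_2817 o_2818_2823

theorem o_2837_2848 : allTr oF tr_2837_2848 = true := allTr_mk ok_2842 o_2837_2842 o_2843_2848

theorem o_2862_2873 : allTr oF tr_2862_2873 = true := allTr_mk ok_2867 o_2862_2867 o_2868_2873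

theorem o_2887_2898 : allTr oF tr_2887_2898 = true := allTr_mk ok_2892 o_2887_2892 o_2893_2898

theorem o_2912_2923 : allTr oF tr_2912_2923 = true := allTr_mk ok_2917 o_2912_2917 o_2918_2923

theorem o_2937_2948 : allTr oF tr_2937_2948 = true := allTr_mk ok_2942 o_2937_2942 o_2943_2948

theorem o_2962_2973 : allTr oF tr_2962_2973 = true := allTr_mk ok_2967 o_2962_2967 o_2968_2973

theorem o_2987_2998 : allTr oF tr_2987_2998 = true := allTr_mk ok_2992 o_2987_2992 o_2993_2998

theorem o_3012_3023 : allTr oF tr_3012_3023 = true := allTr_mk ok_3017 o_3012_3017 o_3018_3023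

theorem o_3037_3048 : allTr oF tr_3037_3048 = true := allTr_mk ok_3042 o_3037_3042 o_3043_3048

theorem o_3062_3073 : allTr oF tr_3062_3073 = true := allTr_mk ok_3067 o_3062_3067 o_3068_3073

theorem o_3087_3098 : allTr oF tr_3087_3098 = true := allTr_mk ok_3092 o_3087_3092 o_3093_3098

theorem o_3112_3123 : allTr oF tr_3112_3123 = true := allTr_mk ok_3117 o_3112_3117 o_3118_3123

theorem o_3137_3148 : allTr oF tr_3137_3148 = true := allTr_mk ok_3142 o_3137_3142 o_3143_3148

theorem o_3162_3173 : allTr oF tr_3162_3173 = true := allTr_mk ok_3167 o_3162_3167 o_3168_3173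

theorem o_3174_3185 : allTr oF tr_3174_3185 = true := allTr_mk ok_3179 o_3174_3179 o_3180_3185

theorem o_3186_3197 : allTr oF tr_3186_3197 = true := allTr_mk ok_3191 o_3186_3191 o_3192_3197

theorem o_1250_1262 : allTr oF tr_1250_1262 = true := allTr_mk ok_1256 o_1250_1256 o_1257_1262

theorem o_1275_1287 : allTr oF tr_1275_1287 = true := allTr_mk ok_1281 o_1275_1281 o_1282_1287

theorem o_1425_1437 : allTr oF tr_1425_1437 = true := allTr_mk ok_1431 o_1425_1431 o_1432_1437

theorem o_1450_1462 : allTr oF tr_1450_1462 = true := allTr_mk ok_1456 o_1450_1456 o_1457_1462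

theorem o_1624_1636 : allTr oF tr_1624_1636 = true := allTr_mk ok_1630 o_1624_1630 o_1631_1636

theorem o_1649_1661 : allTr oF tr_1649_1661 = true := allTr_mk ok_1655 o_1649_1655 o_1656_1661

theorem o_1674_1686 : allTr oF tr_1674_1686 = true := allTr_mk ok_1680 o_1674_1680 o_1681_1686

theorem o_1799_1811 : allTr oF tr_1799_1811 = true := allTr_mk ok_1805 o_1799_1805 o_1806_1811

theorem o_1824_1836 : allTr oF tr_1824_1836 = true := allTr_mk ok_1830 o_1824_1830 o_1831_1836

theorem o_1849_1861 : allTr oF tr_1849_1861 = true := allTr_mk ok_1855 o_1849_1855 o_1856_1861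

theorem o_2049_2061 : allTr oF tr_2049_2061 = true := allTr_mk ok_2055 o_2049_2055 o_2056_2061

theorem o_2099_2111 : allTr oF tr_2099_2111 = true := allTr_mk ok_2105 o_2099_2105 o_2106_2111

theorem o_2274_2286 : allTr oF tr_2274_2286 = true := allTr_mk ok_2280 o_2274_2280 o_2281_2286

theorem o_2299_2311 : allTr oF tr_2299_2311 = true := allTr_mk ok_2305 o_2299_2305 o_2306_2311

theorem o_2324_2336 : allTr oF tr_2324_2336 = true := allTr_mk ok_2330 o_2324_2330 o_2331_2336

theorem o_2524_2536 : allTr oF tr_2524_2536 = true := allTr_mk ok_2530 o_2524_2530 o_2531_2536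

theorem o_2574_2586 : allTr oF tr_2574_2586 = true := allTr_mk ok_2580 o_2574_2580 o_2581_2586

theorem o_2674_2686 : allTr oF tr_2674_2686 = true := allTr_mk ok_2680 o_2674_2680 o_2681_2686

theorem o_2699_2711 : allTr oF tr_2699_2711 = true := allTr_mk ok_2705 o_2699_2705 o_2706_2711

theorem o_2724_2736 : allTr oF tr_2724_2736 = true := allTr_mk ok_2730 o_2724_2730 o_2731_2736

theorem o_2749_2761 : allTr oF tr_2749_2761 = true := allTr_mk ok_2755 o_2749_2755 o_2756_2761

theorem o_2799_2811 : allTr oF tr_2799_2811 = true := allTr_mk ok_2805 o_2799_2805 o_2806_2811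

theorem o_2824_2836 : allTr oF tr_2824_2836 = true := allTr_mk ok_2830 o_2824_2830 o_2831_2836

theorem o_2849_2861 : allTr oF tr_2849_2861 = true := allTr_mk ok_2855 o_2849_2855 o_2856_2861

theorem o_2874_2886 : allTr oF tr_2874_2886 = true := allTr_mk ok_2880 o_2874_2880 o_2881_2886

theorem o_2899_2911 : allTr oF tr_2899_2911 = true := allTr_mk ok_2905 o_2899_2905 o_2906_2911

theorem o_2924_2936 : allTr oF tr_2924_2936 = true := allTr_mk ok_2930 o_2924_2930 o_2931_2936

theorem o_2949_2961 : allTr oF tr_2949_2961 = true := allTr_mk ok_2955 o_2949_2955 o_2956_2961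

theorem o_2974_2986 : allTr oF tr_2974_2986 = true := allTr_mk ok_2980 o_2974_2980 o_2981_2986

theorem o_2999_3011 : allTr oF tr_2999_3011 = true := allTr_mk ok_3005 o_2999_3005 o_3006_3011

theorem o_3024_3036 : allTr oF tr_3024_3036 = true := allTr_mk ok_3030 o_3024_3030 o_3031_3036

theorem o_3049_3061 : allTr oF tr_3049_3061 = true := allTr_mk ok_3055 o_3049_3055 o_3056_3061

theorem o_3074_3086 : allTr oF tr_3074_3086 = true := allTr_mk ok_3080 o_3074_3080 o_3081_3086

theorem o_3099_3111 : allTr oF tr_3099_3111 = true := allTr_mk ok_3105 o_3099_3105 o_3106_3111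

theorem o_3124_3136 : allTr oF tr_3124_3136 = true := allTr_mk ok_3130 o_3124_3130 o_3131_3136

theorem o_3149_3161 : allTr oF tr_3149_3161 = true := allTr_mk ok_3155 o_3149_3155 o_3156_3161

theorem o_3174_3197 : allTr oF tr_3174_3197 = true := allTr_mk ok_3185 o_3174_3185 o_3186_3197

theorem o_775_799 : allTr oF tr_775_799 = true := allTr_mk ok_787 o_775_787 o_788_799

theorem o_975_999 : allTr oF tr_975_999 = true := allTr_mk ok_987 o_975_987 o_988_999

theorem o_1100_1124 : allTr oF tr_1100_1124 = true := allTr_mk ok_1112 o_1100_1112 o_1113_1124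

theorem o_1250_1274 : allTr oF tr_1250_1274 = true := allTr_mk ok_1262 o_1250_1262 o_1263_1274

theorem o_1275_1299 : allTr oF tr_1275_1299 = true := allTr_mk ok_1287 o_1275_1287 o_1288_1299

theorem o_1400_1424 : allTr oF tr_1400_1424 = true := allTr_mk ok_1412 o_1400_1412 o_1413_1424

theorem o_1425_1449 : allTr oF tr_1425_1449 = true := allTr_mk ok_1437 o_1425_1437 o_1438_1449

theorem o_1450_1474 : allTr oF tr_1450_1474 = true := allTr_mk ok_1462 o_1450_1462 o_1463_1474

theorem o_1475_1499 : allTr oF tr_1475_1499 = true := allTr_mk ok_1487 o_1475_1487 o_1488_1499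

theorem o_1599_1623 : allTr oF tr_1599_1623 = true := allTr_mk ok_1611 o_1599_1611 o_1612_1623

theorem o_1624_1648 : allTr oF tr_1624_1648 = true := allTr_mk ok_1636 o_1624_1636 o_1637_1648

theorem o_1649_1673 : allTr oF tr_1649_1673 = true := allTr_mk ok_1661 o_1649_1661 o_1662_1673

theorem o_1674_1698 : allTr oF tr_1674_1698 = true := allTr_mk ok_1686 o_1674_1686 o_1687_1698

theorem o_1799_1823 : allTr oF tr_1799_1823 = true := allTr_mk ok_1811 o_1799_1811 o_1812_1823

theorem o_1824_1848 : allTr oF tr_1824_1848 = true := allTr_mk ok_1836 o_1824_1836 o_1837_1848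

theorem o_1849_1873 : allTr oF tr_1849_1873 = true := allTr_mk ok_1861 o_1849_1861 o_1862_1873

theorem o_1874_1898 : allTr oF tr_1874_1898 = true := allTr_mk ok_1886 o_1874_1886 o_1887_1898

theorem o_2024_2048 : allTr oF tr_2024_2048 = true := allTr_mk ok_2036 o_2024_2036 o_2037_2048

theorem o_2049_2073 : allTr oF tr_2049_2073 = true := allTr_mk ok_2061 o_2049_2061 o_2062_2073

theorem o_2074_2098 : allTr oF tr_2074_2098 = true := allTr_mk ok_2086 o_2074_2086 o_2087_2098

theorem o_2099_2123 : allTr oF tr_2099_2123 = true := allTr_mk ok_2111 o_2099_2111 o_2112_2123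

theorem o_2249_2273 : allTr oF tr_2249_2273 = true := allTr_mk ok_2261 o_2249_2261 o_2262_2273

theorem o_2274_2298 : allTr oF tr_2274_2298 = true := allTr_mk ok_2286 o_2274_2286 o_2287_2298

theorem o_2299_2323 : allTr oF tr_2299_2323 = true := allTr_mk ok_2311 o_2299_2311 o_2312_2323

theorem o_2324_2348 : allTr oF tr_2324_2348 = true := allTr_mk ok_2336 o_2324_2336 o_2337_2348

theorem o_2349_2373 : allTr oF tr_2349_2373 = true := allTr_mk ok_2361 o_2349_2361 o_2362_2373

theorem o_2399_2423 : allTr oF tr_2399_2423 = true := allTr_mk ok_2411 o_2399_2411 o_2412_2423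

theorem o_2474_2498 : allTr oF tr_2474_2498 = true := allTr_mk ok_2486 o_2474_2486 o_2487_2498

theorem o_2499_2523 : allTr oF tr_2499_2523 = true := allTr_mk ok_2511 o_2499_2511 o_2512_2523

theorem o_2524_2548 : allTr oF tr_2524_2548 = true := allTr_mk ok_2536 o_2524_2536 o_2537_2548

theorem o_2549_2573 : allTr oF tr_2549_2573 = true := allTr_mk ok_2561 o_2549_2561 o_2562_2573

theorem o_2574_2598 : allTr oF tr_2574_2598 = true := allTr_mk ok_2586 o_2574_2586 o_2587_2598

theorem o_2599_2623 : allTr oF tr_2599_2623 = true := allTr_mk ok_2611 o_2599_2611 o_2612_2623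

theorem o_2624_2648 : allTr oF tr_2624_2648 = true := allTr_mk ok_2636 o_2624_2636 o_2637_2648

theorem o_2649_2673 : allTr oF tr_2649_2673 = true := allTr_mk ok_2661 o_2649_2661 o_2662_2673

theorem o_2674_2698 : allTr oF tr_2674_2698 = true := allTr_mk ok_2686 o_2674_2686 o_2687_2698

theorem o_2699_2723 : allTr oF tr_2699_2723 = true := allTr_mk ok_2711 o_2699_2711 o_2712_2723

theorem o_2724_2748 : allTr oF tr_2724_2748 = true := allTr_mk ok_2736 o_2724_2736 o_2737_2748

theorem o_2749_2773 : allTr oF tr_2749_2773 = true := allTr_mk ok_2761 o_2749_2761 o_2762_2773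

theorem o_2774_2798 : allTr oF tr_2774_2798 = true := allTr_mk ok_2786 o_2774_2786 o_2787_2798

theorem o_2799_2823 : allTr oF tr_2799_2823 = true := allTr_mk ok_2811 o_2799_2811 o_2812_2823

theorem o_2824_2848 : allTr oF tr_2824_2848 = true := allTr_mk ok_2836 o_2824_2836 o_2837_2848

theorem o_2849_2873 : allTr oF tr_2849_2873 = true := allTr_mk ok_2861 o_2849_2861 o_2862_2873

theorem o_2874_2898 : allTr oF tr_2874_2898 = true := allTr_mk ok_2886 o_2874_2886 o_2887_2898

theorem o_2899_2923 : allTr oF tr_2899_2923 = true := allTr_mk ok_2911 o_2899_2911 o_2912_2923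

theorem o_2924_2948 : allTr oF tr_2924_2948 = true := allTr_mk ok_2936 o_2924_2936 o_2937_2948

theorem o_2949_2973 : allTr oF tr_2949_2973 = true := allTr_mk ok_2961 o_2949_2961 o_2962_2973

theorem o_2974_2998 : allTr oF tr_2974_2998 = true := allTr_mk ok_2986 o_2974_2986 o_2987_2998

theorem o_2999_3023 : allTr oF tr_2999_3023 = true := allTr_mk ok_3011 o_2999_3011 o_3012_3023

theorem o_3024_3048 : allTr oF tr_3024_3048 = true := allTr_mk ok_3036 o_3024_3036 o_3037_3048

theorem o_3049_3073 : allTr oF tr_3049_3073 = true := allTr_mk ok_3061 o_3049_3061 o_3062_3073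

theorem o_3074_3098 : allTr oF tr_3074_3098 = true := allTr_mk ok_3086 o_3074_3086 o_3087_3098

theorem o_3099_3123 : allTr oF tr_3099_3123 = true := allTr_mk ok_3111 o_3099_3111 o_3112_3123

theorem o_3124_3148 : allTr oF tr_3124_3148 = true := allTr_mk ok_3136 o_3124_3136 o_3137_3148

theorem o_3149_3173 : allTr oF tr_3149_3173 = true := allTr_mk ok_3161 o_3149_3161 o_3162_3173

theorem o_3149_3197 : allTr oF tr_3149_3197 = true := allTr_mk ok_3173 o_3149_3173 o_3174_3197

theorem o_350_399 : allTr oF tr_350_399 = true := allTr_mk ok_374 o_350_374 o_375_399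

theorem o_750_799 : allTr oF tr_750_799 = true := allTr_mk ok_774 o_750_774 o_775_799

theorem o_950_999 : allTr oF tr_950_999 = true := allTr_mk ok_974 o_950_974 o_975_999

theorem o_1100_1149 : allTr oF tr_1100_1149 = true := allTr_mk ok_1124 o_1100_1124 o_1125_1149

theorem o_1250_1299 : allTr oF tr_1250_1299 = true := allTr_mk ok_1274 o_1250_1274 o_1275_1299

theorem o_1400_1449 : allTr oF tr_1400_1449 = true := allTr_mk ok_1424 o_1400_1424 o_1425_1449

theorem o_1450_1499 : allTr oF tr_1450_1499 = true := allTr_mk ok_1474 o_1450_1474 o_1475_1499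

theorem o_1500_1549 : allTr oF tr_1500_1549 = true := allTr_mk ok_1524 o_1500_1524 o_1525_1549

theorem o_1599_1648 : allTr oF tr_1599_1648 = true := allTr_mk ok_1623 o_1599_1623 o_1624_1648

theorem o_1649_1698 : allTr oF tr_1649_1698 = true := allTr_mk ok_1673 o_1649_1673 o_1674_1698

theorem o_1699_1748 : allTr oF tr_1699_1748 = true := allTr_mk ok_1723 o_1699_1723 o_1724_1748

theorem o_1799_1848 : allTr oF tr_1799_1848 = true := allTr_mk ok_1823 o_1799_1823 o_1824_1848

theorem o_1849_1898 : allTr oF tr_1849_1898 = true := allTr_mk ok_1873 o_1849_1873 o_1874_1898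

theorem o_1899_1948 : allTr oF tr_1899_1948 = true := allTr_mk ok_1923 o_1899_1923 o_1924_1948

theorem o_1949_1998 : allTr oF tr_1949_1998 = true := allTr_mk ok_1973 o_1949_1973 o_1974_1998

theorem o_1999_2048 : allTr oF tr_1999_2048 = true := allTr_mk ok_2023 o_1999_2023 o_2024_2048

theorem o_2049_2098 : allTr oF tr_2049_2098 = true := allTr_mk ok_2073 o_2049_2073 o_2074_2098

theorem o_2099_2148 : allTr oF tr_2099_2148 = true := allTr_mk ok_2123 o_2099_2123 o_2124_2148

theorem o_2149_2198 : allTr oF tr_2149_2198 = true := allTr_mk ok_2173 o_2149_2173 o_2174_2198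

theorem o_2249_2298 : allTr oF tr_2249_2298 = true := allTr_mk ok_2273 o_2249_2273 o_2274_2298

theorem o_2299_2348 : allTr oF tr_2299_2348 = true := allTr_mk ok_2323 o_2299_2323 o_2324_2348

theorem o_2349_2398 : allTr oF tr_2349_2398 = true := allTr_mk ok_2373 o_2349_2373 o_2374_2398

theorem o_2399_2448 : allTr oF tr_2399_2448 = true := allTr_mk ok_2423 o_2399_2423 o_2424_2448

theorem o_2449_2498 : allTr oF tr_2449_2498 = true := allTr_mk ok_2473 o_2449_2473 o_2474_2498

theorem o_2499_2548 : allTr oF tr_2499_2548 = true := allTr_mk ok_2523 o_2499_2523 o_2524_2548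

theorem o_2549_2598 : allTr oF tr_2549_2598 = true := allTr_mk ok_2573 o_2549_2573 o_2574_2598

theorem o_2599_2648 : allTr oF tr_2599_2648 = true := allTr_mk ok_2623 o_2599_2623 o_2624_2648

theorem o_2649_2698 : allTr oF tr_2649_2698 = true := allTr_mk ok_2673 o_2649_2673 o_2674_2698

theorem o_2699_2748 : allTr oF tr_2699_2748 = true := allTr_mk ok_2723 o_2699_2723 o_2724_2748

theorem o_2749_2798 : allTr oF tr_2749_2798 = true := allTr_mk ok_2773 o_2749_2773 o_2774_2798

theorem o_2799_2848 : allTr oF tr_2799_2848 = true := allTr_mk ok_2823 o_2799_2823 o_2824_2848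

theorem o_2849_2898 : allTr oF tr_2849_2898 = true := allTr_mk ok_2873 o_2849_2873 o_2874_2898

theorem o_2899_2948 : allTr oF tr_2899_2948 = true := allTr_mk ok_2923 o_2899_2923 o_2924_2948

theorem o_2949_2998 : allTr oF tr_2949_2998 = true := allTr_mk ok_2973 o_2949_2973 o_2974_2998

theorem o_2999_3048 : allTr oF tr_2999_3048 = true := allTr_mk ok_3023 o_2999_3023 o_3024_3048

theorem o_3049_3098 : allTr oF tr_3049_3098 = true := allTr_mk ok_3073 o_3049_3073 o_3074_3098

theorem o_3099_3148 : allTr oF tr_3099_3148 = true := allTr_mk ok_3123 o_3099_3123 o_3124_3148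

theorem o_1500_1598 : allTr oF tr_1500_1598 = true := allTr_mk ok_1549 o_1500_1549 o_1550_1598

theorem o_3099_3197 : allTr oF tr_3099_3197 = true := allTr_mk ok_3148 o_3099_3148 o_3149_3197

theorem o_0_99 : allTr oF tr_0_99 = true := allTr_mk ok_49 o_0_49 o_50_99

theorem o_100_199 : allTr oF tr_100_199 = true := allTr_mk ok_149 o_100_149 o_150_199

theorem o_300_399 : allTr oF tr_300_399 = true := allTr_mk ok_349 o_300_349 o_350_399

theorem o_400_499 : allTr oF tr_400_499 = true := allTr_mk ok_449 o_400_449 o_450_499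

theorem o_500_599 : allTr oF tr_500_599 = true := allTr_mk ok_549 o_500_549 o_550_599

theorem o_600_699 : allTr oF tr_600_699 = true := allTr_mk ok_649 o_600_649 o_650_699

theorem o_700_799 : allTr oF tr_700_799 = true := allTr_mk ok_749 o_700_749 o_750_799

theorem o_800_899 : allTr oF tr_800_899 = true := allTr_mk ok_849 o_800_849 o_850_899

theorem o_900_999 : allTr oF tr_900_999 = true := allTr_mk ok_949 o_900_949 o_950_999

theorem o_1000_1099 : allTr oF tr_1000_1099 = true := allTr_mk ok_1049 o_1000_1049 o_1050_1099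

theorem o_1100_1199 : allTr oF tr_1100_1199 = true := allTr_mk ok_1149 o_1100_1149 o_1150_1199

theorem o_1200_1299 : allTr oF tr_1200_1299 = true := allTr_mk ok_1249 o_1200_1249 o_1250_1299

theorem o_1300_1399 : allTr oF tr_1300_1399 = true := allTr_mk ok_1349 o_1300_1349 o_1350_1399

theorem o_1400_1499 : allTr oF tr_1400_1499 = true := allTr_mk ok_1449 o_1400_1449 o_1450_1499

theorem o_1599_1698 : allTr oF tr_1599_1698 = true := allTr_mk ok_1648 o_1599_1648 o_1649_1698

theorem o_1699_1798 : allTr oF tr_1699_1798 = true := allTr_mk ok_1748 o_1699_1748 o_1749_1798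

theorem o_1799_1898 : allTr oF tr_1799_1898 = true := allTr_mk ok_1848 o_1799_1848 o_1849_1898

theorem o_1899_1998 : allTr oF tr_1899_1998 = true := allTr_mk ok_1948 o_1899_1948 o_1949_1998

theorem o_1999_2098 : allTr oF tr_1999_2098 = true := allTr_mk ok_2048 o_1999_2048 o_2049_2098

theorem o_2099_2198 : allTr oF tr_2099_2198 = true := allTr_mk ok_2148 o_2099_2148 o_2149_2198

theorem o_2199_2298 : allTr oF tr_2199_2298 = true := allTr_mk ok_2248 o_2199_2248 o_2249_2298

theorem o_2299_2398 : allTr oF tr_2299_2398 = true := allTr_mk ok_2348 o_2299_2348 o_2349_2398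

theorem o_2399_2498 : allTr oF tr_2399_2498 = true := allTr_mk ok_2448 o_2399_2448 o_2449_2498

theorem o_2499_2598 : allTr oF tr_2499_2598 = true := allTr_mk ok_2548 o_2499_2548 o_2549_2598

theorem o_2599_2698 : allTr oF tr_2599_2698 = true := allTr_mk ok_2648 o_2599_2648 o_2649_2698

theorem o_2699_2798 : allTr oF tr_2699_2798 = true := allTr_mk ok_2748 o_2699_2748 o_2749_2798

theorem o_2799_2898 : allTr oF tr_2799_2898 = true := allTr_mk ok_2848 o_2799_2848 o_2849_2898

theorem o_2899_2998 : allTr oF tr_2899_2998 = true := allTr_mk ok_2948 o_2899_2948 o_2949_2998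

theorem o_2999_3098 : allTr oF tr_2999_3098 = true := allTr_mk ok_3048 o_2999_3048 o_3049_3098

theorem o_1400_1598 : allTr oF tr_1400_1598 = true := allTr_mk ok_1499 o_1400_1499 o_1500_1598

theorem o_2999_3197 : allTr oF tr_2999_3197 = true := allTr_mk ok_3098 o_2999_3098 o_3099_3197

theorem o_0_199 : allTr oF tr_0_199 = true := allTr_mk ok_99 o_0_99 o_100_199

theorem o_200_399 : allTr oF tr_200_399 = true := allTr_mk ok_299 o_200_299 o_300_399

theorem o_400_599 : allTr oF tr_400_599 = true := allTr_mk ok_499 o_400_499 o_500_599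

theorem o_600_799 : allTr oF tr_600_799 = true := allTr_mk ok_699 o_600_699 o_700_799

theorem o_800_999 : allTr oF tr_800_999 = true := allTr_mk ok_899 o_800_899 o_900_999

theorem o_1000_1199 : allTr oF tr_1000_1199 = true := allTr_mk ok_1099 o_1000_1099 o_1100_1199

theorem o_1200_1399 : allTr oF tr_1200_1399 = true := allTr_mk ok_1299 o_1200_1299 o_1300_1399

theorem o_1599_1798 : allTr oF tr_1599_1798 = true := allTr_mk ok_1698 o_1599_1698 o_1699_1798

theorem o_1799_1998 : allTr oF tr_1799_1998 = true := allTr_mk ok_1898 o_1799_1898 o_1899_1998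

theorem o_1999_2198 : allTr oF tr_1999_2198 = true := allTr_mk ok_2098 o_1999_2098 o_2099_2198

theorem o_2199_2398 : allTr oF tr_2199_2398 = true := allTr_mk ok_2298 o_2199_2298 o_2299_2398

theorem o_2399_2598 : allTr oF tr_2399_2598 = true := allTr_mk ok_2498 o_2399_2498 o_2499_2598

theorem o_2599_2798 : allTr oF tr_2599_2798 = true := allTr_mk ok_2698 o_2599_2698 o_2699_2798

theorem o_2799_2998 : allTr oF tr_2799_2998 = true := allTr_mk ok_2898 o_2799_2898 o_2899_2998

theorem o_1200_1598 : allTr oF tr_1200_1598 = true := allTr_mk ok_1399 o_1200_1399 o_1400_1598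

theorem o_2799_3197 : allTr oF tr_2799_3197 = true := allTr_mk ok_2998 o_2799_2998 o_2999_3197

theorem o_0_399 : allTr oF tr_0_399 = true := allTr_mk ok_199 o_0_199 o_200_399

theorem o_400_799 : allTr oF tr_400_799 = true := allTr_mk ok_599 o_400_599 o_600_799

theorem o_800_1199 : allTr oF tr_800_1199 = true := allTr_mk ok_999 o_800_999 o_1000_1199

theorem o_1599_1998 : allTr oF tr_1599_1998 = true := allTr_mk ok_1798 o_1599_1798 o_1799_1998

theorem o_1999_2398 : allTr oF tr_1999_2398 = true := allTr_mk ok_2198 o_1999_2198 o_2199_2398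

theorem o_2399_2798 : allTr oF tr_2399_2798 = true := allTr_mk ok_2598 o_2399_2598 o_2599_2798

theorem o_800_1598 : allTr oF tr_800_1598 = true := allTr_mk ok_1199 o_800_1199 o_1200_1598

theorem o_2399_3197 : allTr oF tr_2399_3197 = true := allTr_mk ok_2798 o_2399_2798 o_2799_3197

theorem o_0_799 : allTr oF tr_0_799 = true := allTr_mk ok_399 o_0_399 o_400_799

theorem o_1599_2398 : allTr oF tr_1599_2398 = true := allTr_mk ok_1998 o_1599_1998 o_1999_2398

theorem o_0_1598 : allTr oF tr_0_1598 = true := allTr_mk ok_799 o_0_799 o_800_1598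

theorem o_1599_3197 : allTr oF tr_1599_3197 = true := allTr_mk ok_2398 o_1599_2398 o_2399_3197

theorem o_0_3197 : allTr oF tr_0_3197 = true := allTr_mk ok_1598 o_0_1598 o_1599_3197

/-- the sequence of types -/
noncomputable def y : ℕ → ℕ := gs T.M T.mul T.w

theorem y_isG : IsG T.γ T.M T.mul T.w y := gs_isG gp (by decide +kernel) t_w (by decide +kernel)

theorem hlk : ∀ ia ib ic ie t, lk ia ib ic ie t = true → chkV P V lk t = true :=
  fun _ _ _ _ _ h => memTr_spec c_0_3197 h

theorem hbf : ∀ i, i < P.M → bf Q i = bf Q 0 := by decide +kernel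

theorem hout : ∀ ia ib ic ie t, ia < P.M → ib < P.M → ic < P.M → ie < P.M →
    lk ia ib ic ie t = true → chkOV P VO Q t ia ib ic ie = true :=
  fun _ _ _ _ _ ha hb hc he h => chkOV_one hbf ha hb hc he (memTr_spec o_0_3197 h)

theorem zero : ∃ t, chkV P V lk t = true ∧ Match P.n P.A P.B 16384 T.mul T.inv y T.vc t 0 0 0 0 := by
  refine ⟨0x100010001000600010000000000004000400040004000400040004000400040004000, memTr_spec c_0_3197 (by decide +kernel), ?_⟩
  apply match_zero gp y_isG.lt <;> decide +kernel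

/-- `𝒜(s,10)` holds for all `s` above the threshold -/
theorem avoid (s : ℝ) (hs1 : 1 < s) (hs2 : (1 : ℝ) < (s - 1) * (5 + 1)) : Avoid s 10 := by
  have h := avoid_mainV chyp vok y_isG cert hlk hout zero act le_rfl vok' ohyp ocert s hs1
    (by
      have e1 : ((P.B : ℕ) : ℝ) = 1 := by norm_num [P]
      have e2 : ((P.A : ℕ) : ℝ) = 5 := by norm_num [P]
      rw [e1, e2]
      exact hs2)
  exact h

end MPbbea99G.E10
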